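import Mathlib

/-!
# Bounding faithful modules over commutative rings generated by elements with `t ^ q = t`
-/

universe u

namespace Pool.Agent.helper9.MNE

/-- a commutative ring in which every nonzero element satisfies `s ^ (q-1) = 1` has at most `q`
elements -/
theorem card_le_of_pow (S : Type u) [CommRing S] [Nontrivial S] (q : ℕ) (hq2 : 2 ≤ q)
    (h1 : ∀ s : S, s ≠ 0 → s ^ (q - 1) = 1) : Finite S ∧ Nat.card S ≤ q := by
  haveI : IsDomain S := by
    haveI : NoZeroDivisors S := by
      constructor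
      intro a b hab
      by_contra hcon
      push Not at hcon
      have h2 : (a * b) ^ (q - 1) = 1 := by
        rw [mul_pow, h1 a hcon.1, h1 b hcon.2, one_mul]
      rw [hab, zero_pow (by omega)] at h2
      exact zero_ne_one h2
    exact NoZeroDivisors.to_isDomain _
  classical
  set P : Polynomial S := Polynomial.X ^ q - Polynomial.X with hP
  have hdeg : P.natDegree = q := by
    rw [hP]
    rw [Polynomial.natDegree_sub_eq_left_of_natDegree_lt, Polynomial.natDegree_X_pow]
    rw [Polynomial.natDegree_X_pow, Polynomial.natDegree_X]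
    omega
  have hP0 : P ≠ 0 := by
    intro h
    rw [h, Polynomial.natDegree_zero] at hdeg
    omega
  have hroot : ∀ s : S, s ∈ P.roots.toFinset := by
    intro s
    rw [Multiset.mem_toFinset, Polynomial.mem_roots hP0, Polynomial.IsRoot.def, hP,
      Polynomial.eval_sub, Polynomial.eval_pow, Polynomial.eval_X, sub_eq_zero]
    by_cases hs : s = 0
    · rw [hs, zero_pow (by omega)]
    · have := h1 s hs
      calc s ^ q = s ^ (q - 1) * s := by
            rw [← pow_succ, Nat.sub_add_cancel (by omega)]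
        _ = s := by rw [this, one_mul]
  have hfin : Finite S :=
    Set.finite_univ_iff.mp (Set.Finite.subset P.roots.toFinset.finite_toSet (fun s _ => hroot s))
  refine ⟨hfin, ?_⟩
  haveI := Fintype.ofFinite S
  rw [Nat.card_eq_fintype_card]
  calc Fintype.card S = (Finset.univ : Finset S).card := rfl
    _ ≤ P.roots.toFinset.card := Finset.card_le_card (fun s _ => hroot s)
    _ ≤ Multiset.card P.roots := Multiset.toFinset_card_le _
    _ ≤ P.natDegree := Polynomial.card_roots' _
    _ = q := hdeg

/-- In a commutative ring of characteristic `p`, the elements with `s ^ (p^f) = s` form a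
subring. -/
theorem pow_eq_of_closure {A : Type u} [Ring A] (G : Set A)
    (hcomm : ∀ a ∈ G, ∀ b ∈ G, a * b = b * a) (p f : ℕ) [hp : Fact p.Prime]
    (hq : ∀ t ∈ G, t ^ (p ^ f) = t) (hpA : (p : A) = 0) (t : A)
    (ht : t ∈ Subring.closure G) : t ^ (p ^ f) = t := by
  rcases subsingleton_or_nontrivial A with hA | hA
  · exact Subsingleton.elim _ _
  haveI : CharP A p := by
    rw [CharP.charP_iff_prime_eq_zero hp.out]
    exact hpA
  have hpf : p ^ f ≠ 0 := pow_ne_zero _ hp.out.ne_zero
  have hc : ∀ x ∈ Subring.closure G, ∀ y ∈ Subring.closure G, Commute x y := by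
    have h := Subring.isMulCommutative_closure hcomm
    intro x hx y hy
    exact congrArg Subtype.val (h.is_comm.comm ⟨x, hx⟩ ⟨y, hy⟩)
  induction ht using Subring.closure_induction with
  | mem x hx => exact hq x hx
  | zero => exact zero_pow hpf
  | one => exact one_pow _
  | add x y hx hy ihx ihy =>
    rw [add_pow_char_pow_of_commute p f (hc x hx y hy), ihx, ihy]
  | neg x hx ihx =>
    have h := add_pow_char_pow_of_commute p f
      (hc x hx (-x) ((Subring.closure G).neg_mem hx))
    rw [ihx, add_neg_cancel, zero_pow hpf] at h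
    rw [eq_comm, neg_eq_iff_add_eq_zero]
    exact h.symm
  | mul x y hx hy ihx ihy =>
    rw [Commute.mul_pow (hc x hx y hy), ihx, ihy]

section

variable {M : Type u} [AddCommGroup M] (G : Set (AddMonoid.End M)) (p f : ℕ) [hp : Fact p.Prime]
  (hf : 0 < f)
  (hcomm : ∀ a ∈ G, ∀ b ∈ G, a * b = b * a) (hq : ∀ t ∈ G, t ^ (p ^ f) = t)
  (hpM : ∀ m : M, p • m = 0)

include hf hcomm hq hpM hp

omit hf in
theorem pow_q_eq (t : AddMonoid.End M) (ht : t ∈ Subring.closure G) :
    t ^ (p ^ f) = t := by
  apply pow_eq_of_closure G hcomm p f hq _ t ht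
  apply AddMonoidHom.ext
  intro m
  have h2 : (p : AddMonoid.End M) m = p • m := by
    rw [← nsmul_one]
    rfl
  exact h2.trans (hpM m)

variable (hFS : ∀ A B : AddSubgroup M, (∀ t ∈ G, ∀ m ∈ A, t m ∈ A) → (∀ t ∈ G, ∀ m ∈ B, t m ∈ B) →
    A ⊓ B = ⊥ → A = ⊥ ∨ B = ⊥)

include hFS

theorem pow_eq_one [Nontrivial M] (t : AddMonoid.End M) (ht : t ∈ Subring.closure G)
    (ht0 : t ≠ 0) : t ^ (p ^ f - 1) = 1 := by
  have hq2 : 2 ≤ p ^ f := le_trans hp.out.two_le (Nat.le_self_pow hf.ne' p)
  have htq := pow_q_eq G p f hcomm hq hpM t ht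
  set e := t ^ (p ^ f - 1) with he
  have het : e * t = t := by
    rw [he, ← pow_succ, Nat.sub_add_cancel (by omega), htq]
  have hee : e * e = e := by
    obtain ⟨k, hk⟩ : ∃ k, p ^ f - 1 = k + 1 := ⟨p ^ f - 2, by omega⟩
    calc e * e = e * (t * t ^ k) := by rw [← pow_succ', ← hk, ← he]
      _ = e * t * t ^ k := by rw [mul_assoc]
      _ = t * t ^ k := by rw [het]
      _ = e := by rw [← pow_succ', ← hk, ← he]
  have hcl : ∀ s ∈ Subring.closure G, s * e = e * s := by
    intro s hs
    have h := Subring.isMulCommutative_closure hcomm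
    have h1 : s * t = t * s := congrArg Subtype.val (h.is_comm.comm ⟨s, hs⟩ ⟨t, ht⟩)
    exact (Commute.pow_right h1 _).eq
  let A : AddSubgroup M :=
    { carrier := {m | e m = m}
      add_mem' := by
        intro a b ha hb
        change e (a + b) = a + b
        rw [map_add, ha, hb]
      zero_mem' := map_zero e
      neg_mem' := by
        intro a ha
        change e (-a) = -a
        rw [map_neg, ha] }
  let B : AddSubgroup M :=
    { carrier := {m | e m = 0}
      add_mem' := by
        intro a b ha hb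
        change e (a + b) = 0
        rw [map_add, ha, hb, add_zero]
      zero_mem' := map_zero e
      neg_mem' := by
        intro a ha
        change e (-a) = 0
        rw [map_neg, ha, neg_zero] }
  have hA : ∀ m, m ∈ A ↔ e m = m := fun m => Iff.rfl
  have hB : ∀ m, m ∈ B ↔ e m = 0 := fun m => Iff.rfl
  have happ : ∀ (s s' : AddMonoid.End M) (m : M), (s * s') m = s (s' m) := fun _ _ _ => rfl
  have hAB := hFS A B
    (by
      intro s hs m hm
      rw [hA] at hm ⊢
      rw [← happ, ← hcl s (Subring.subset_closure hs), happ, hm])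
    (by
      intro s hs m hm
      rw [hB] at hm ⊢
      rw [← happ, ← hcl s (Subring.subset_closure hs), happ, hm, map_zero])
    (by
      rw [eq_bot_iff]
      rintro m ⟨h1, h2⟩
      rw [AddSubgroup.mem_bot]
      have h1' : e m = m := h1
      have h2' : e m = 0 := h2
      rw [← h1', h2'])
  have hA0 : A ≠ ⊥ := by
    intro hbot
    apply ht0
    apply AddMonoidHom.ext
    intro m
    have h1 : t m ∈ A := by
      rw [hA, ← happ, het]
    rw [hbot, AddSubgroup.mem_bot] at h1
    exact h1
  have hB0 := hAB.resolve_left hA0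
  apply AddMonoidHom.ext
  intro m
  have h1 : m - e m ∈ B := by
    rw [hB, map_sub, ← happ, hee, sub_self]
  rw [hB0, AddSubgroup.mem_bot, sub_eq_zero] at h1
  exact h1.symm

theorem card_closure_le [Nontrivial M] :
    Finite (Subring.closure G) ∧ Nat.card (Subring.closure G) ≤ p ^ f := by
  have hq2 : 2 ≤ p ^ f := le_trans hp.out.two_le (Nat.le_self_pow hf.ne' p)
  have hcl := Subring.isMulCommutative_closure hcomm
  letI : CommRing (Subring.closure G) :=
    { (inferInstance : Ring (Subring.closure G)) with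
      mul_comm := hcl.is_comm.comm }
  haveI : Nontrivial (Subring.closure G) := by
    obtain ⟨a, ha⟩ := exists_ne (0 : M)
    refine ⟨⟨0, 1, fun h => ha ?_⟩⟩
    have h1 : (0 : AddMonoid.End M) = 1 := congrArg Subtype.val h
    have h2 : (0 : AddMonoid.End M) a = (1 : AddMonoid.End M) a := by rw [h1]
    exact h2.symm
  have h1 : ∀ s : Subring.closure G, s ≠ 0 → s ^ (p ^ f - 1) = 1 := by
    rintro ⟨s, hs⟩ hs0
    apply Subtype.ext
    exact pow_eq_one G p f hf hcomm hq hpM hFS s hs (fun h => hs0 (Subtype.ext h))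
  exact card_le_of_pow (Subring.closure G) (p ^ f) hq2 h1

theorem card_module_le [Nontrivial M] : Finite M ∧ Nat.card M ≤ p ^ f := by
  have hq2 : 2 ≤ p ^ f := le_trans hp.out.two_le (Nat.le_self_pow hf.ne' p)
  obtain ⟨hfin, hcard⟩ := card_closure_le G p f hf hcomm hq hpM hFS
  obtain ⟨v, hv⟩ := exists_ne (0 : M)
  have happ : ∀ (s s' : AddMonoid.End M) (m : M), (s * s') m = s (s' m) := fun _ _ _ => rfl
  let orb : M → AddSubgroup M := fun v =>
    { carrier := {m | ∃ t ∈ Subring.closure G, t v = m}
      add_mem' := by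
        rintro _ _ ⟨t, ht, rfl⟩ ⟨s, hs, rfl⟩
        exact ⟨t + s, (Subring.closure G).add_mem ht hs, rfl⟩
      zero_mem' := ⟨0, (Subring.closure G).zero_mem, rfl⟩
      neg_mem' := by
        rintro _ ⟨t, ht, rfl⟩
        exact ⟨-t, (Subring.closure G).neg_mem ht, rfl⟩ }
  have horb : ∀ v m, m ∈ orb v ↔ ∃ t ∈ Subring.closure G, t v = m := fun v m => Iff.rfl
  have hst : ∀ v, ∀ t ∈ G, ∀ m ∈ orb v, t m ∈ orb v := by
    rintro v t ht _ ⟨s, hs, rfl⟩
    exact ⟨t * s, (Subring.closure G).mul_mem (Subring.subset_closure ht) hs, rfl⟩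
  have hself : ∀ v, v ∈ orb v := fun v => ⟨1, (Subring.closure G).one_mem, rfl⟩
  have hne : ∀ v, v ≠ 0 → orb v ≠ ⊥ := by
    intro v hv h
    have := hself v
    rw [h, AddSubgroup.mem_bot] at this
    exact hv this
  have hsurj : ∀ w : M, ∃ t ∈ Subring.closure G, t v = w := by
    intro w
    by_cases hw : w = 0
    · subst hw; exact ⟨0, (Subring.closure G).zero_mem, rfl⟩
    · have h1 : orb v ⊓ orb w ≠ ⊥ := by
        intro h
        rcases hFS (orb v) (orb w) (hst v) (hst w) h with h | h
        · exact hne v hv h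
        · exact hne w hw h
      obtain ⟨⟨m, ⟨t, ht, htm⟩, ⟨s, hs, hsm⟩⟩, hm0'⟩ :=
        AddSubgroup.ne_bot_iff_exists_ne_zero.mp h1
      have hm0 : m ≠ 0 := fun h => hm0' (Subtype.ext h)
      have hs0 : s ≠ 0 := by
        rintro rfl
        apply hm0
        rw [← hsm]
        rfl
      have h2 := pow_eq_one G p f hf hcomm hq hpM hFS s hs hs0
      obtain ⟨k, hk⟩ : ∃ k, p ^ f - 1 = k + 1 := ⟨p ^ f - 2, by omega⟩
      rw [hk, pow_succ] at h2
      refine ⟨s ^ k * t, (Subring.closure G).mul_mem ((Subring.closure G).pow_mem hs k) ht, ?_⟩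
      rw [happ, htm, ← hsm, ← happ, h2]
      rfl
  let F : Subring.closure G → M := fun t => (t : AddMonoid.End M) v
  have hF : Function.Surjective F := by
    intro w
    obtain ⟨t, ht, htw⟩ := hsurj w
    exact ⟨⟨t, ht⟩, htw⟩
  exact ⟨Finite.of_surjective F hF, (Nat.card_le_card_of_surjective F hF).trans hcard⟩

end

end Pool.Agent.helper9.MNE
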