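import Mathlib
import Pool.Agent.helper9.MNE.Simple

/-!
# Subdirectly irreducible rings in certain finitely based varieties have bounded order
-/

universe u

namespace Pool.Agent.helper9.MNE

/-- `pw a k` is the power `a ^ (k + 1)`. -/
def pw {R : Type u} [NonUnitalRing R] (a : R) : ℕ → R
  | 0 => a
  | k + 1 => pw a k * a

section
variable {R : Type u} [NonUnitalRing R]

theorem pw_mul (a : R) (i j : ℕ) : pw a i * pw a j = pw a (i + j + 1) := by
  induction j with
  | zero => rfl
  | succ j ih =>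
    change pw a i * (pw a j * a) = pw a (i + j + 1) * a
    rw [← mul_assoc, ih]

theorem pw_mem (I : TwoSidedIdeal R) {a : R} (ha : a ∈ I) (k : ℕ) : pw a k ∈ I := by
  cases k with
  | zero => exact ha
  | succ k => exact I.mul_mem_left _ _ ha

/-- The generators of the verbal ideal: all `a^q - a` and all commutators. -/
def SS (q : ℕ) (R : Type u) [NonUnitalRing R] : Set R :=
  {s | (∃ a : R, s = pw a (q - 1) - a) ∨ ∃ a b : R, s = a * b - b * a}

/-- `p R = 0` and the ideal generated by all `a^q - a`, `ab - ba` has square zero. -/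
structure Good (p q : ℕ) (R : Type u) [NonUnitalRing R] : Prop where
  nsm : ∀ a : R, p • a = 0
  mul0 : ∀ s ∈ SS q R, ∀ s' ∈ SS q R, s * s' = 0
  mul1 : ∀ s ∈ SS q R, ∀ s' ∈ SS q R, ∀ r : R, s * (r * s') = 0

/-- Any two nonzero ideals have nonzero intersection. -/
def FSI (R : Type u) [NonUnitalRing R] : Prop :=
  ∀ I J : TwoSidedIdeal R, I ⊓ J = ⊥ → I = ⊥ ∨ J = ⊥

theorem span_sq_zero {p q : ℕ} (hG : Good p q R) :
    ∀ u ∈ TwoSidedIdeal.span (SS q R), ∀ v ∈ TwoSidedIdeal.span (SS q R), u * v = 0 := by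
  let J1 : TwoSidedIdeal R := TwoSidedIdeal.mk'
    {u | ∀ s ∈ SS q R, s * u = 0 ∧ ∀ r, s * (r * u) = 0}
    (by intro s _; simp)
    (by
      intro u v hu hv s hs
      refine ⟨by rw [mul_add, (hu s hs).1, (hv s hs).1, add_zero], fun r => ?_⟩
      rw [mul_add, mul_add, (hu s hs).2, (hv s hs).2, add_zero])
    (by
      intro u hu s hs
      refine ⟨by rw [mul_neg, (hu s hs).1, neg_zero], fun r => ?_⟩
      rw [mul_neg, mul_neg, (hu s hs).2, neg_zero])
    (by
      intro r u hu s hs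
      refine ⟨(hu s hs).2 r, fun r' => ?_⟩
      rw [← mul_assoc r', (hu s hs).2])
    (by
      intro u r hu s hs
      refine ⟨by rw [← mul_assoc, (hu s hs).1, zero_mul], fun r' => ?_⟩
      rw [← mul_assoc r', ← mul_assoc, (hu s hs).2, zero_mul])
  have h1 : TwoSidedIdeal.span (SS q R) ≤ J1 := by
    rw [TwoSidedIdeal.span_le]
    intro s' hs'
    rw [SetLike.mem_coe, TwoSidedIdeal.mem_mk']
    intro s hs
    exact ⟨hG.mul0 s hs s' hs', fun r => hG.mul1 s hs s' hs' r⟩
  have h2 : ∀ s ∈ SS q R, ∀ u ∈ TwoSidedIdeal.span (SS q R), s * u = 0 := by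
    intro s hs u hu
    have := h1 hu
    rw [TwoSidedIdeal.mem_mk'] at this
    exact (this s hs).1
  let J2 : TwoSidedIdeal R := TwoSidedIdeal.mk'
    {u | ∀ v ∈ TwoSidedIdeal.span (SS q R), u * v = 0}
    (by intro s _; simp)
    (by
      intro u v hu hv s hs
      rw [add_mul, hu s hs, hv s hs, add_zero])
    (by
      intro u hu s hs
      rw [neg_mul, hu s hs, neg_zero])
    (by
      intro r u hu s hs
      rw [mul_assoc, hu s hs, mul_zero])
    (by
      intro u r hu s hs
      rw [mul_assoc, hu _ (TwoSidedIdeal.mul_mem_left _ _ _ hs)])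
  have h3 : TwoSidedIdeal.span (SS q R) ≤ J2 := by
    rw [TwoSidedIdeal.span_le]
    intro s hs
    rw [SetLike.mem_coe, TwoSidedIdeal.mem_mk']
    exact h2 s hs
  intro u hu v hv
  have := h3 hu
  rw [TwoSidedIdeal.mem_mk'] at this
  exact this v hv

/-- left multiplication on an ideal -/
def lmul (I : TwoSidedIdeal R) (a : R) : AddMonoid.End I where
  toFun u := ⟨a * u.1, I.mul_mem_left _ _ u.2⟩
  map_zero' := Subtype.ext (mul_zero a)
  map_add' u v := Subtype.ext (mul_add a u.1 v.1)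

/-- right multiplication on an ideal -/
def rmul (I : TwoSidedIdeal R) (a : R) : AddMonoid.End I where
  toFun u := ⟨u.1 * a, I.mul_mem_right _ _ u.2⟩
  map_zero' := Subtype.ext (zero_mul a)
  map_add' u v := Subtype.ext (add_mul u.1 v.1 a)

theorem lmul_pow (I : TwoSidedIdeal R) (a : R) (k : ℕ) (u : I) :
    ((lmul I a ^ (k + 1)) u).1 = pw a k * u.1 := by
  induction k generalizing u with
  | zero => rw [zero_add, pow_one]; rfl
  | succ k ih =>
    rw [pow_succ]
    change ((lmul I a ^ (k + 1)) (lmul I a u)).1 = pw a k * a * u.1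
    rw [ih]
    change pw a k * (a * u.1) = _
    rw [mul_assoc]

theorem rmul_pow (I : TwoSidedIdeal R) (a : R) (k : ℕ) (u : I) :
    ((rmul I a ^ (k + 1)) u).1 = u.1 * pw a k := by
  induction k with
  | zero => rw [zero_add, pow_one]; rfl
  | succ k ih =>
    rw [pow_succ']
    change ((rmul I a ^ (k + 1)) u).1 * a = u.1 * (pw a k * a)
    rw [ih, mul_assoc]

end

section bound

variable {R : Type u} [NonUnitalRing R] (p f : ℕ) [hp : Fact p.Prime] (hf : 0 < f)
  (hG : Good p (p ^ f) R) (hF : FSI R)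

include hf hG hF

/-- The ideal `I` has at most `q` elements and the pairs of multiplications number at most `q^2`. -/
theorem bound_ideal (I : TwoSidedIdeal R) (hI : I ≠ ⊥)
    (hcomm : ∀ a b : R, ∀ u ∈ I, (a * b - b * a) * u = 0 ∧ u * (a * b - b * a) = 0)
    (hpow : ∀ a : R, ∀ u ∈ I, (pw a (p ^ f - 1) - a) * u = 0 ∧ u * (pw a (p ^ f - 1) - a) = 0) :
    (Finite I ∧ Nat.card I ≤ p ^ f) ∧
      ∃ E : Subring (AddMonoid.End I), (∀ a, lmul I a ∈ E) ∧ (∀ a, rmul I a ∈ E) ∧
        Finite E ∧ Nat.card E ≤ p ^ f := by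
  have hq2 : 2 ≤ p ^ f := le_trans hp.out.two_le (Nat.le_self_pow hf.ne' p)
  obtain ⟨k, hk⟩ : ∃ k, p ^ f = k + 1 := ⟨p ^ f - 1, by omega⟩
  have hk' : p ^ f - 1 = k := by omega
  haveI : Nontrivial I := by
    by_contra hcon
    rw [not_nontrivial_iff_subsingleton] at hcon
    apply hI
    rw [eq_bot_iff]
    intro u hu
    rw [TwoSidedIdeal.mem_bot]
    have := hcon.elim ⟨u, hu⟩ ⟨0, I.zero_mem⟩
    exact congrArg Subtype.val this
  set G : Set (AddMonoid.End I) := Set.range (lmul I) ∪ Set.range (rmul I) with hGdef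
  have hc : ∀ a ∈ G, ∀ b ∈ G, a * b = b * a := by
    rintro _ (⟨a, rfl⟩ | ⟨a, rfl⟩) _ (⟨b, rfl⟩ | ⟨b, rfl⟩)
    · apply AddMonoidHom.ext
      intro u
      apply Subtype.ext
      change a * (b * u.1) = b * (a * u.1)
      rw [← mul_assoc, ← mul_assoc, ← sub_eq_zero, ← sub_mul]
      exact (hcomm a b u.1 u.2).1
    · apply AddMonoidHom.ext
      intro u
      apply Subtype.ext
      change a * (u.1 * b) = (a * u.1) * b
      rw [mul_assoc]
    · apply AddMonoidHom.ext
      intro u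
      apply Subtype.ext
      change (b * u.1) * a = b * (u.1 * a)
      rw [mul_assoc]
    · apply AddMonoidHom.ext
      intro u
      apply Subtype.ext
      change (u.1 * b) * a = (u.1 * a) * b
      rw [mul_assoc, mul_assoc, ← sub_eq_zero, ← mul_sub]
      exact (hcomm b a u.1 u.2).2
  have hq : ∀ t ∈ G, t ^ (p ^ f) = t := by
    rintro _ (⟨a, rfl⟩ | ⟨a, rfl⟩)
    · apply AddMonoidHom.ext
      intro u
      apply Subtype.ext
      have h1 := lmul_pow I a k u
      have h2 := (hpow a u.1 u.2).1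
      rw [hk', sub_mul, sub_eq_zero] at h2
      rw [hk]
      exact h1.trans h2
    · apply AddMonoidHom.ext
      intro u
      apply Subtype.ext
      have h1 := rmul_pow I a k u
      have h2 := (hpow a u.1 u.2).2
      rw [hk', mul_sub, sub_eq_zero] at h2
      rw [hk]
      exact h1.trans h2
  have hpM : ∀ m : I, p • m = 0 := by
    intro m
    apply Subtype.ext
    exact hG.nsm m.1
  -- stable subgroups are ideals
  have hid : ∀ A : AddSubgroup I, (∀ t ∈ G, ∀ m ∈ A, t m ∈ A) →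
      ∃ J : TwoSidedIdeal R, ∀ r, r ∈ J ↔ ∃ h : r ∈ I, (⟨r, h⟩ : I) ∈ A := by
    intro A hA
    refine ⟨TwoSidedIdeal.mk' {r | ∃ h : r ∈ I, (⟨r, h⟩ : I) ∈ A} ⟨I.zero_mem, A.zero_mem⟩
      ?_ ?_ ?_ ?_, ?_⟩
    · rintro a b ⟨ha, ha'⟩ ⟨hb, hb'⟩
      exact ⟨I.add_mem ha hb, A.add_mem ha' hb'⟩
    · rintro a ⟨ha, ha'⟩
      exact ⟨I.neg_mem ha, A.neg_mem ha'⟩
    · rintro r a ⟨ha, ha'⟩
      exact ⟨I.mul_mem_left _ _ ha, hA (lmul I r) (Or.inl ⟨r, rfl⟩) _ ha'⟩
    · rintro a r ⟨ha, ha'⟩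
      exact ⟨I.mul_mem_right _ _ ha, hA (rmul I r) (Or.inr ⟨r, rfl⟩) _ ha'⟩
    · intro r
      rw [TwoSidedIdeal.mem_mk']
      rfl
  have hFS : ∀ A B : AddSubgroup I, (∀ t ∈ G, ∀ m ∈ A, t m ∈ A) →
      (∀ t ∈ G, ∀ m ∈ B, t m ∈ B) → A ⊓ B = ⊥ → A = ⊥ ∨ B = ⊥ := by
    intro A B hA hB hAB
    obtain ⟨JA, hJA⟩ := hid A hA
    obtain ⟨JB, hJB⟩ := hid B hB
    have hJ : JA ⊓ JB = ⊥ := by
      rw [eq_bot_iff]
      intro r hr
      rw [TwoSidedIdeal.mem_inf, hJA, hJB] at hr
      obtain ⟨⟨h, h1⟩, ⟨_, h2⟩⟩ := hr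
      have h3 : (⟨r, h⟩ : I) ∈ A ⊓ B := ⟨h1, h2⟩
      rw [hAB, AddSubgroup.mem_bot] at h3
      rw [TwoSidedIdeal.mem_bot]
      exact congrArg Subtype.val h3
    have hbot : ∀ (A : AddSubgroup I) (J : TwoSidedIdeal R),
        (∀ r, r ∈ J ↔ ∃ h : r ∈ I, (⟨r, h⟩ : I) ∈ A) → J = ⊥ → A = ⊥ := by
      intro A J hJ hJ0
      rw [eq_bot_iff]
      rintro ⟨r, hr⟩ hrA
      have h1 : r ∈ J := (hJ r).mpr ⟨hr, hrA⟩
      rw [hJ0, TwoSidedIdeal.mem_bot] at h1
      rw [AddSubgroup.mem_bot]
      exact Subtype.ext h1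
    rcases hF JA JB hJ with h | h
    · exact Or.inl (hbot A JA hJA h)
    · exact Or.inr (hbot B JB hJB h)
  obtain ⟨h1, h2⟩ := card_closure_le G p f hf hc hq hpM hFS
  exact ⟨card_module_le G p f hf hc hq hpM hFS, Subring.closure G,
    fun a => Subring.subset_closure (Or.inl ⟨a, rfl⟩),
    fun a => Subring.subset_closure (Or.inr ⟨a, rfl⟩), h1, h2⟩

/-- The annihilator of `I` is contained in `I`. -/
theorem ann_le (I : TwoSidedIdeal R) (hI : I ≠ ⊥) (hsub : SS (p ^ f) R ⊆ I)
    (hI2 : ∀ u ∈ I, ∀ v ∈ I, u * v = 0) (z : R) (hz : ∀ u ∈ I, z * u = 0 ∧ u * z = 0) : z ∈ I := by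
  by_contra hzI
  have hq2 : 2 ≤ p ^ f := le_trans hp.out.two_le (Nat.le_self_pow hf.ne' p)
  obtain ⟨k, hk⟩ : ∃ k, p ^ f - 1 = k + 1 := ⟨p ^ f - 2, by omega⟩
  -- annihilator as an ideal
  let Z : TwoSidedIdeal R := TwoSidedIdeal.mk' {z | ∀ u ∈ I, z * u = 0 ∧ u * z = 0}
    (by intro u _; simp)
    (by
      intro a b ha hb u hu
      rw [add_mul, mul_add, (ha u hu).1, (ha u hu).2, (hb u hu).1, (hb u hu).2, add_zero]
      exact ⟨rfl, rfl⟩)
    (by
      intro a ha u hu
      rw [neg_mul, mul_neg, (ha u hu).1, (ha u hu).2, neg_zero]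
      exact ⟨rfl, rfl⟩)
    (by
      intro r a ha u hu
      refine ⟨by rw [mul_assoc, (ha u hu).1, mul_zero], ?_⟩
      rw [← mul_assoc]
      exact (ha _ (I.mul_mem_right _ _ hu)).2)
    (by
      intro a r ha u hu
      refine ⟨?_, by rw [← mul_assoc, (ha u hu).2, zero_mul]⟩
      rw [mul_assoc]
      exact (ha _ (I.mul_mem_left _ _ hu)).1)
  have hZ : ∀ a, a ∈ Z ↔ ∀ u ∈ I, a * u = 0 ∧ u * a = 0 := by
    intro a
    rw [TwoSidedIdeal.mem_mk']
    rfl
  have hzZ : z ∈ Z := (hZ z).mpr hz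
  set w := pw z (k + 1) with hw
  have hwz : w - z ∈ I := by
    rw [hw, ← hk]
    exact hsub (Or.inl ⟨z, rfl⟩)
  have hwI : w ∉ I := by
    intro h
    apply hzI
    have := I.sub_mem h hwz
    rwa [sub_sub_cancel] at this
  have hwZ : w ∈ Z := pw_mem Z hzZ _
  have hwu : ∀ u ∈ I, w * u = 0 ∧ u * w = 0 := (hZ w).mp hwZ
  -- w^q = w
  have hww : pw w (k + 1) = w := by
    have h1 : ∀ j : ℕ, pw w (j + 1) = pw z (j + 1) := by
      intro j
      have h2 : w = z + (w - z) := by abel
      induction j with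
      | zero =>
        change w * w = z * z
        have h3 : w * w - z * z = w * (w - z) + (w - z) * z := by noncomm_ring
        rw [← sub_eq_zero, h3, (hwu _ hwz).1, ((hZ z).mp hzZ _ hwz).2, add_zero]
      | succ j ih =>
        change pw w (j + 1) * w = pw z (j + 1) * z
        rw [ih, ← sub_eq_zero, ← mul_sub]
        exact ((hZ _).mp (pw_mem Z hzZ _) _ hwz).1
    rw [h1 k]
  set e := pw w k with he
  have hew : e * w = w := by
    change pw w k * w = w
    exact hww
  have hej : ∀ j, e * pw w j = pw w j := by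
    intro j
    induction j with
    | zero => exact hew
    | succ j ih =>
      change e * (pw w j * w) = pw w j * w
      rw [← mul_assoc, ih]
  have hee : e * e = e := hej k
  have heZ : e ∈ Z := pw_mem Z hwZ _
  have heu : ∀ u ∈ I, e * u = 0 ∧ u * e = 0 := (hZ e).mp heZ
  have he0 : e ≠ 0 := by
    intro h0
    apply hwI
    rw [← hew, h0, zero_mul]
    exact I.zero_mem
  have hcen : ∀ r, e * r = r * e := by
    intro r
    have h1 : e * r - r * e ∈ I := hsub (Or.inr ⟨e, r, rfl⟩)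
    have h2 := (heu _ h1).1
    have h3 := (heu _ h1).2
    rw [mul_sub, ← mul_assoc, hee, sub_eq_zero] at h2
    rw [sub_mul, mul_assoc r, hee, sub_eq_zero] at h3
    rw [h2, ← mul_assoc, h3]
  let A : TwoSidedIdeal R := TwoSidedIdeal.mk' {r | e * r = r}
    (mul_zero e)
    (by
      intro a b ha hb
      change e * (a + b) = a + b
      rw [mul_add, ha, hb])
    (by
      intro a ha
      change e * (-a) = -a
      rw [mul_neg, ha])
    (by
      intro r a ha
      change e * (r * a) = r * a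
      rw [← mul_assoc, hcen, mul_assoc, ha])
    (by
      intro a r ha
      change e * (a * r) = a * r
      rw [← mul_assoc, ha])
  let C : TwoSidedIdeal R := TwoSidedIdeal.mk' {r | e * r = 0}
    (mul_zero e)
    (by
      intro a b ha hb
      change e * (a + b) = 0
      rw [mul_add, ha, hb, add_zero])
    (by
      intro a ha
      change e * (-a) = 0
      rw [mul_neg, ha, neg_zero])
    (by
      intro r a ha
      change e * (r * a) = 0
      rw [← mul_assoc, hcen, mul_assoc, ha, mul_zero])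
    (by
      intro a r ha
      change e * (a * r) = 0
      rw [← mul_assoc, ha, zero_mul])
  have hA : ∀ r, r ∈ A ↔ e * r = r := by
    intro r
    rw [TwoSidedIdeal.mem_mk']
    rfl
  have hC : ∀ r, r ∈ C ↔ e * r = 0 := by
    intro r
    rw [TwoSidedIdeal.mem_mk']
    rfl
  have hAC : A ⊓ C = ⊥ := by
    rw [eq_bot_iff]
    intro r hr
    rw [TwoSidedIdeal.mem_inf, hA, hC] at hr
    rw [TwoSidedIdeal.mem_bot, ← hr.1, hr.2]
  rcases hF A C hAC with h | h
  · apply he0
    have : e ∈ A := (hA e).mpr hee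
    rw [h, TwoSidedIdeal.mem_bot] at this
    exact this
  · apply hI
    rw [eq_bot_iff]
    intro u hu
    have : u ∈ C := (hC u).mpr (heu u hu).1
    rw [h] at this
    exact this

theorem card_good : Finite R ∧ Nat.card R ≤ (p ^ f) ^ 3 := by
  have hq2 : 2 ≤ p ^ f := le_trans hp.out.two_le (Nat.le_self_pow hf.ne' p)
  have hq3 : p ^ f ≤ (p ^ f) ^ 3 := Nat.le_self_pow (by norm_num) _
  rcases subsingleton_or_nontrivial R with hR | hR
  · refine ⟨inferInstance, ?_⟩
    have := Nat.card_unique (α := R)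
    have h1 : Nat.card R ≤ 1 := Finite.card_le_one_iff_subsingleton.mpr hR
    omega
  by_cases hI : TwoSidedIdeal.span (SS (p ^ f) R) = ⊥
  · have h0 : ∀ s ∈ SS (p ^ f) R, s = 0 := by
      intro s hs
      have : s ∈ TwoSidedIdeal.span (SS (p ^ f) R) := TwoSidedIdeal.subset_span hs
      rw [hI, TwoSidedIdeal.mem_bot] at this
      exact this
    have htop : (⊤ : TwoSidedIdeal R) ≠ ⊥ := by
      intro h
      obtain ⟨a, ha⟩ := exists_ne (0 : R)
      have : a ∈ (⊤ : TwoSidedIdeal R) := trivial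
      rw [h, TwoSidedIdeal.mem_bot] at this
      exact ha this
    obtain ⟨⟨h1, h2⟩, _⟩ := bound_ideal p f hf hG hF ⊤ htop
      (by
        intro a b u _
        rw [h0 _ (Or.inr ⟨a, b, rfl⟩), zero_mul, mul_zero]
        exact ⟨rfl, rfl⟩)
      (by
        intro a u _
        rw [h0 _ (Or.inl ⟨a, rfl⟩), zero_mul, mul_zero]
        exact ⟨rfl, rfl⟩)
    let F : (⊤ : TwoSidedIdeal R) → R := fun a => a.1
    have hFs : Function.Surjective F := fun a => ⟨⟨a, trivial⟩, rfl⟩
    exact ⟨Finite.of_surjective F hFs, (Nat.card_le_card_of_surjective F hFs).trans (h2.trans hq3)⟩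
  · set I := TwoSidedIdeal.span (SS (p ^ f) R) with hIdef
    have hsub : SS (p ^ f) R ⊆ I := TwoSidedIdeal.subset_span
    have hI2 := span_sq_zero hG
    obtain ⟨⟨hfinI, hcardI⟩, E, hEl, hEr, hfinE, hcardE⟩ := bound_ideal p f hf hG hF I hI
      (by
        intro a b u hu
        have := hsub (Or.inr ⟨a, b, rfl⟩ : a * b - b * a ∈ SS (p ^ f) R)
        exact ⟨hI2 _ this u hu, hI2 u hu _ this⟩)
      (by
        intro a u hu
        have := hsub (Or.inl ⟨a, rfl⟩ : pw a (p ^ f - 1) - a ∈ SS (p ^ f) R)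
        exact ⟨hI2 _ this u hu, hI2 u hu _ this⟩)
    let φ : R →+ E × E :=
      { toFun := fun a => (⟨lmul I a, hEl a⟩, ⟨rmul I a, hEr a⟩)
        map_zero' := by
          refine Prod.ext (Subtype.ext ?_) (Subtype.ext ?_)
          · apply AddMonoidHom.ext
            intro u
            exact Subtype.ext (zero_mul u.1)
          · apply AddMonoidHom.ext
            intro u
            exact Subtype.ext (mul_zero u.1)
        map_add' := by
          intro a b
          refine Prod.ext (Subtype.ext ?_) (Subtype.ext ?_)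
          · apply AddMonoidHom.ext
            intro u
            exact Subtype.ext (add_mul a b u.1)
          · apply AddMonoidHom.ext
            intro u
            exact Subtype.ext (mul_add u.1 a b) }
    have hker : ∀ a, a ∈ φ.ker → a ∈ I := by
      intro a ha
      rw [AddMonoidHom.mem_ker] at ha
      have h1 : lmul I a = 0 := congrArg (fun x : E × E => (x.1 : AddMonoid.End I)) ha
      have h2 : rmul I a = 0 := congrArg (fun x : E × E => (x.2 : AddMonoid.End I)) ha
      apply ann_le p f hf hG hF I hI hsub hI2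
      intro u hu
      have h3 := DFunLike.congr_fun h1 ⟨u, hu⟩
      have h4 := DFunLike.congr_fun h2 ⟨u, hu⟩
      exact ⟨congrArg Subtype.val h3, congrArg Subtype.val h4⟩
    let ψ : φ.ker → I := fun a => ⟨a.1, hker a.1 a.2⟩
    have hψ : Function.Injective ψ := by
      intro a b h
      exact Subtype.ext (congrArg (fun x : I => x.1) h)
    have hfk : Finite φ.ker := Finite.of_injective ψ hψ
    have hck : Nat.card φ.ker ≤ p ^ f := (Nat.card_le_card_of_injective ψ hψ).trans hcardI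
    have hidx : φ.ker.index ≤ p ^ f * p ^ f := by
      rw [AddSubgroup.index_ker]
      calc Nat.card φ.range ≤ Nat.card (E × E) :=
            Nat.card_le_card_of_injective (Subtype.val) Subtype.val_injective
        _ = Nat.card E * Nat.card E := Nat.card_prod _ _
        _ ≤ p ^ f * p ^ f := Nat.mul_le_mul hcardE hcardE
    have hidx0 : φ.ker.index ≠ 0 := by
      rw [AddSubgroup.index_ker]
      exact Nat.card_pos.ne'
    have hmul := AddSubgroup.card_mul_index φ.ker
    have hcard : Nat.card R ≤ (p ^ f) ^ 3 := by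
      rw [← hmul]
      calc Nat.card φ.ker * φ.ker.index ≤ p ^ f * (p ^ f * p ^ f) := Nat.mul_le_mul hck hidx
        _ = (p ^ f) ^ 3 := by ring
    refine ⟨?_, hcard⟩
    apply Nat.finite_of_card_ne_zero
    rw [← hmul]
    exact mul_ne_zero Nat.card_pos.ne' hidx0

end bound

end Pool.Agent.helper9.MNE
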