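import Mathlib

/-!
# Division rings with a multilinear identity
-/

universe u

namespace Pool.Agent.helper9.MNE

open Finset

section ext

variable {D : Type u} [DivisionRing D] (M : Set D) (hmul : ∀ r ∈ M, ∀ x ∈ M, r * x ∈ M)
  (hden : ∀ x : D, ∃ s ∈ M, s ≠ 0 ∧ s * x ∈ M)

include hmul hden

/-- A generalised linear identity on `M` extends to `D`. -/
theorem gpi_ext (m : ℕ) : ∀ (a b : Fin m → D), (∀ r ∈ M, ∑ j, a j * r * b j = 0) →
    ∀ x : D, ∑ j, a j * x * b j = 0 := by
  induction m with
  | zero => intro a b _ x; simp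
  | succ m ih =>
    intro a b h x
    by_cases h0 : a 0 = 0
    · rw [Fin.sum_univ_succ, h0, zero_mul, zero_mul, zero_add]
      apply ih (fun j => a j.succ) (fun j => b j.succ)
      intro r hr
      have := h r hr
      rw [Fin.sum_univ_succ, h0, zero_mul, zero_mul, zero_add] at this
      exact this
    · set a' : Fin m → D := fun j => (a 0)⁻¹ * a j.succ with ha'
      set b' : Fin m → D := fun j => b j.succ with hb'
      have hφ : ∀ x : D, ∑ j, a j * x * b j = a 0 * (x * b 0 + ∑ j, a' j * x * b' j) := by
        intro x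
        rw [Fin.sum_univ_succ, mul_add, Finset.mul_sum, mul_assoc]
        congr 1
        apply Finset.sum_congr rfl
        intro j _
        simp only [ha', hb']
        rw [← mul_assoc, ← mul_assoc, ← mul_assoc, mul_inv_cancel₀ h0, one_mul]
      have hM : ∀ r ∈ M, r * b 0 + ∑ j, a' j * r * b' j = 0 := by
        intro r hr
        have := h r hr
        rw [hφ] at this
        exact (mul_eq_zero.mp this).resolve_left h0
      have hdiff : ∀ r x : D, (r * x) * b 0 + ∑ j, a' j * (r * x) * b' j -
          r * (x * b 0 + ∑ j, a' j * x * b' j) = ∑ j, (a' j * r - r * a' j) * x * b' j := by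
        intro r x
        rw [mul_add, mul_assoc r x, add_sub_add_left_eq_sub, Finset.mul_sum,
          ← Finset.sum_sub_distrib]
        apply Finset.sum_congr rfl
        intro j _
        noncomm_ring
      have hlin : ∀ r ∈ M, ∀ x : D, (r * x) * b 0 + ∑ j, a' j * (r * x) * b' j =
          r * (x * b 0 + ∑ j, a' j * x * b' j) := by
        intro r hr x
        rw [← sub_eq_zero, hdiff]
        apply ih (fun j => a' j * r - r * a' j) b'
        intro x hx
        rw [← hdiff, hM _ (hmul r hr x hx), hM x hx, mul_zero, sub_zero]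
      rw [hφ]
      obtain ⟨s, hs, hs0, hsx⟩ := hden x
      have h1 := hlin s hs x
      rw [hM _ hsx] at h1
      rw [(mul_eq_zero.mp h1.symm).resolve_left hs0, mul_zero]

theorem gpi_ext' {ι : Type*} [Fintype ι] (a b : ι → D) (h : ∀ r ∈ M, ∑ j, a j * r * b j = 0)
    (x : D) : ∑ j, a j * x * b j = 0 := by
  have e := (Fintype.equivFin ι).symm
  have := gpi_ext M hmul hden (Fintype.card ι) (fun j => a (e j)) (fun j => b (e j))
    (by
      intro r hr
      rw [← h r hr]
      exact e.sum_comp (fun j => a j * r * b j)) x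
  rw [← this]
  exact (e.sum_comp (fun j => a j * x * b j)).symm

end ext

section multi

variable {A : Type u} [Ring A] {d : ℕ}

/-- A multilinear polynomial with integer coefficients. -/
def mlin (c : Equiv.Perm (Fin d) → ℤ) (z : Fin d → A) : A :=
  ∑ σ : Equiv.Perm (Fin d), c σ • (List.ofFn (fun i => z (σ i))).prod

theorem slot (σ : Equiv.Perm (Fin d)) (k : Fin d) (z : Fin d → A) :
    ∃ P Q : A, ∀ x : A, (List.ofFn (fun i => Function.update z k x (σ i))).prod = P * x * Q := by
  have hmem : k ∈ List.ofFn (σ : Fin d → Fin d) := by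
    rw [List.mem_ofFn]
    exact ⟨σ.symm k, by simp⟩
  have hnodup : (List.ofFn (σ : Fin d → Fin d)).Nodup := List.nodup_ofFn.mpr σ.injective
  obtain ⟨l1, l2, hl⟩ := List.append_of_mem hmem
  rw [hl] at hnodup
  have hk1 : k ∉ l1 := by
    intro h
    have := List.nodup_append.mp hnodup
    exact (this.2.2 k h k (by simp)) rfl
  have hk2 : k ∉ l2 := by
    intro h
    have := (List.nodup_append.mp hnodup).2.1
    rw [List.nodup_cons] at this
    exact this.1 h
  refine ⟨(l1.map z).prod, (l2.map z).prod, fun x => ?_⟩
  have h1 : List.ofFn (fun i => Function.update z k x (σ i)) =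
      (List.ofFn (σ : Fin d → Fin d)).map (Function.update z k x) := by
    rw [List.map_ofFn]; rfl
  have h2 : ∀ l : List (Fin d), k ∉ l → l.map (Function.update z k x) = l.map z := by
    intro l hkl
    apply List.map_congr_left
    intro i hi
    rw [Function.update_of_ne]
    rintro rfl
    exact hkl hi
  rw [h1, hl, List.map_append, List.map_cons, h2 l1 hk1, h2 l2 hk2, Function.update_self,
    List.prod_append, List.prod_cons, mul_assoc]

theorem mlin_slot (c : Equiv.Perm (Fin d) → ℤ) (k : Fin d) (z : Fin d → A) :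
    ∃ P Q : Equiv.Perm (Fin d) → A, ∀ x : A,
      mlin c (Function.update z k x) = ∑ σ, P σ * x * Q σ := by
  choose P Q hPQ using fun σ => slot σ k z
  refine ⟨fun σ => c σ • P σ, Q, fun x => ?_⟩
  unfold mlin
  apply Finset.sum_congr rfl
  intro σ _
  rw [hPQ, smul_mul_assoc, smul_mul_assoc]

end multi

section extD

variable {D : Type u} [DivisionRing D] (M : Set D) (hmul : ∀ r ∈ M, ∀ x ∈ M, r * x ∈ M)
  (hden : ∀ x : D, ∃ s ∈ M, s ≠ 0 ∧ s * x ∈ M) {d : ℕ}

include hmul hden

theorem mlin_ext (c : Equiv.Perm (Fin d) → ℤ)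
    (h : ∀ z : Fin d → D, (∀ i, z i ∈ M) → mlin c z = 0) (z : Fin d → D) : mlin c z = 0 := by
  have key : ∀ T : Finset (Fin d), ∀ z : Fin d → D, (∀ i, i ∉ T → z i ∈ M) → mlin c z = 0 := by
    intro T
    induction T using Finset.induction_on with
    | empty => intro z hz; exact h z (fun i => hz i (by simp))
    | insert k T hk ih =>
      intro z hz
      obtain ⟨P, Q, hPQ⟩ := mlin_slot c k z
      have h1 : ∀ r ∈ M, ∑ σ, P σ * r * Q σ = 0 := by
        intro r hr
        rw [← hPQ]
        apply ih
        intro i hi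
        by_cases hik : i = k
        · subst hik; rw [Function.update_self]; exact hr
        · rw [Function.update_of_ne hik]
          apply hz
          simp [hik, hi]
      have h2 := gpi_ext' M hmul hden P Q h1 (z k)
      rw [← hPQ, Function.update_eq_self] at h2
      exact h2
  exact key Finset.univ z (fun i hi => absurd (Finset.mem_univ i) hi)

end extD

end Pool.Agent.helper9.MNE
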