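import Mathlib
import Pool.Agent.helper9.MNE.DivRing

/-!
# Division rings with a multilinear identity are finite-dimensional over their centre
-/

universe u

namespace Pool.Agent.helper9.MNE

open Finset MulOpposite

section

variable {D : Type u} [DivisionRing D]

/-- A maximal commutative subring of the opposite ring. -/
theorem exists_max_comm (A : Type u) [Ring A] :
    ∃ K : Subring A, Subring.centralizer (K : Set A) = K := by
  obtain ⟨S, hS⟩ := zorn_subset {S : Set A | ∀ a ∈ S, ∀ b ∈ S, a * b = b * a} (by
    intro c hc hchain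
    refine ⟨⋃₀ c, ?_, fun s hs => Set.subset_sUnion_of_mem hs⟩
    rintro a ⟨s, hs, has⟩ b ⟨t, ht, hbt⟩
    rcases hchain.total hs ht with h | h
    · exact hc ht a (h has) b hbt
    · exact hc hs a has b (h hbt))
  have hSc : (Subring.centralizer S : Set A) = S := by
    apply Set.Subset.antisymm
    · intro x hx
      have hx' : ∀ g ∈ S, g * x = x * g := fun g hg => (Subring.mem_centralizer_iff.mp hx) g hg
      have h1 : insert x S ∈ {S : Set A | ∀ a ∈ S, ∀ b ∈ S, a * b = b * a} := by
        rintro a (rfl | ha) b (rfl | hb)
        · rfl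
        · exact (hx' b hb).symm
        · exact hx' a ha
        · exact hS.prop a ha b hb
      exact hS.le_of_ge h1 (Set.subset_insert x S) (Set.mem_insert x S)
    · intro x hx
      exact Subring.mem_centralizer_iff.mpr (fun g hg => hS.prop g hg x hx)
  exact ⟨Subring.centralizer S, by rw [hSc]⟩

theorem inv_mem_selfCent (A : Type u) [DivisionRing A] (K : Subring A)
    (hK : Subring.centralizer (K : Set A) = K) (a : A) (ha : a ∈ K) : a⁻¹ ∈ K := by
  have ha' : a ∈ Subring.centralizer (K : Set A) := by rw [hK]; exact ha
  have : a⁻¹ ∈ Subring.centralizer (K : Set A) := by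
    rw [Subring.mem_centralizer_iff]
    intro g hg
    have h1 : Commute g a := Subring.mem_centralizer_iff.mp ha' g hg
    exact h1.inv_right₀.eq
  rw [hK] at this
  exact this

/-- Field structure on a subring which equals its own centralizer. -/
@[reducible] noncomputable def fieldOfSelfCent (A : Type u) [DivisionRing A] (K : Subring A)
    (hK : Subring.centralizer (K : Set A) = K) : Field K :=
  { (inferInstance : Ring K) with
    mul_comm := by
      rintro ⟨a, ha⟩ ⟨b, hb⟩
      apply Subtype.ext
      change a * b = b * a
      have hb' : b ∈ Subring.centralizer (K : Set A) := by rw [hK]; exact hb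
      exact Subring.mem_centralizer_iff.mp hb' a ha
    inv := fun a => ⟨(a : A)⁻¹, inv_mem_selfCent A K hK a a.2⟩
    exists_pair_ne := ⟨0, 1, fun h => zero_ne_one (congrArg Subtype.val h)⟩
    mul_inv_cancel := by
      intro a ha
      apply Subtype.ext
      exact mul_inv_cancel₀ (fun h => ha (Subtype.ext h))
    inv_zero := by
      apply Subtype.ext
      exact inv_zero
    nnqsmul := _
    nnqsmul_def := fun _ _ => rfl
    qsmul := _
    qsmul_def := fun _ _ => rfl }

end

section density

variable {D : Type u} [DivisionRing D] {K : Type u} [Field K] [Module K D]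
  (ρ : K →+* Dᵐᵒᵖ) (hρ : ∀ (k : K) (x : D), k • x = x * unop (ρ k))

/-- left multiplications -/
def lm : D →+* Module.End K D where
  toFun a :=
    { toFun := fun x => a * x
      map_add' := fun x y => mul_add a x y
      map_smul' := fun k x => by
        simp only [hρ, RingHom.id_apply, mul_assoc] }
  map_one' := by
    ext x
    exact one_mul x
  map_mul' a b := by
    ext x
    exact mul_assoc a b x
  map_zero' := by
    ext x
    exact zero_mul x
  map_add' a b := by
    ext x
    exact add_mul a b x

theorem lm_apply (a x : D) : lm ρ hρ a x = a * x := rfl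

/-- the span of left multiplications -/
def AA : Submodule K (Module.End K D) := Submodule.span K (Set.range (lm ρ hρ))

theorem lm_mul_mem (a : D) (f : Module.End K D) (hf : f ∈ AA ρ hρ) :
    lm ρ hρ a * f ∈ AA ρ hρ := by
  unfold AA at hf ⊢
  induction hf using Submodule.span_induction with
  | mem x hx =>
    obtain ⟨b, rfl⟩ := hx
    exact Submodule.subset_span ⟨a * b, map_mul _ a b⟩
  | zero => rw [mul_zero]; exact Submodule.zero_mem _
  | add x y _ _ hx hy => rw [mul_add]; exact Submodule.add_mem _ hx hy
  | smul c x _ hx => rw [mul_smul_comm]; exact Submodule.smul_mem _ _ hx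

theorem lm_mem (a : D) : lm ρ hρ a ∈ AA ρ hρ := Submodule.subset_span ⟨a, rfl⟩

/-- density -/
theorem density (hcent : ∀ d : Dᵐᵒᵖ, (∀ k, ρ k * d = d * ρ k) → ∃ k, ρ k = d) (m : ℕ) :
    ∀ v : Fin m → D, LinearIndependent K v →
      ∃ α : Fin m → Module.End K D, (∀ i, α i ∈ AA ρ hρ) ∧
        ∀ i j, α i (v j) = if i = j then 1 else 0 := by
  induction m with
  | zero => intro v _; exact ⟨Fin.elim0, fun i => i.elim0, fun i => i.elim0⟩
  | succ m ih =>
    intro v hv
    rw [linearIndependent_finSucc] at hv
    obtain ⟨hv1, hv0⟩ := hv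
    obtain ⟨α, hα, hαv⟩ := ih (Fin.tail v) hv1
    have hex : ∃ γ ∈ AA ρ hρ, (∀ j, γ (Fin.tail v j) = 0) ∧ γ (v 0) ≠ 0 := by
      by_contra hcon
      push Not at hcon
      have h1 : ∀ i, ∃ k, ρ k = op (α i (v 0)) := by
        intro i
        apply hcent
        intro k
        have h2 := hcon (k • α i - lm ρ hρ (unop (ρ k)) * α i)
          ((AA ρ hρ).sub_mem ((AA ρ hρ).smul_mem k (hα i)) (lm_mul_mem ρ hρ _ _ (hα i)))
          (by
            intro j
            rw [LinearMap.sub_apply, LinearMap.smul_apply, Module.End.mul_apply, hαv, lm_apply, hρ]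
            split_ifs <;> simp)
        rw [LinearMap.sub_apply, LinearMap.smul_apply, Module.End.mul_apply, lm_apply, hρ,
          sub_eq_zero] at h2
        apply unop_injective
        simp only [unop_mul, unop_op]
        exact h2
      choose μ hμ using h1
      have h3 := hcon (1 - ∑ i, lm ρ hρ (Fin.tail v i) * α i)
        ((AA ρ hρ).sub_mem (by rw [← map_one (lm ρ hρ)]; exact lm_mem ρ hρ 1)
          (Submodule.sum_mem _ (fun i _ => lm_mul_mem ρ hρ _ _ (hα i))))
        (by
          intro j
          rw [LinearMap.sub_apply, LinearMap.sum_apply, Finset.sum_eq_single j]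
          · rw [Module.End.mul_apply, hαv, lm_apply]; simp
          · intro i _ hij
            rw [Module.End.mul_apply, hαv, lm_apply, if_neg hij, mul_zero]
          · intro h; exact absurd (Finset.mem_univ j) h)
      apply hv0
      rw [LinearMap.sub_apply, LinearMap.sum_apply, sub_eq_zero] at h3
      change v 0 = _ at h3
      rw [h3]
      apply Submodule.sum_mem
      intro i _
      rw [Module.End.mul_apply, lm_apply]
      have h4 : Fin.tail v i * α i (v 0) = μ i • Fin.tail v i := by
        rw [hρ, hμ]; rfl
      rw [h4]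
      exact Submodule.smul_mem _ _ (Submodule.subset_span ⟨i, rfl⟩)
    obtain ⟨γ, hγ, hγv, hγ0⟩ := hex
    set γ' := lm ρ hρ (γ (v 0))⁻¹ * γ with hγ'
    have hγ'mem : γ' ∈ AA ρ hρ := lm_mul_mem ρ hρ _ _ hγ
    have hγ'0 : γ' (v 0) = 1 := by
      rw [hγ', Module.End.mul_apply, lm_apply, inv_mul_cancel₀ hγ0]
    have hγ't : ∀ j, γ' (Fin.tail v j) = 0 := by
      intro j
      rw [hγ', Module.End.mul_apply, lm_apply, hγv, mul_zero]
    refine ⟨Fin.cons γ' (fun i => α i - lm ρ hρ (α i (v 0)) * γ'), ?_, ?_⟩
    · intro i
      refine Fin.cases ?_ (fun i => ?_) i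
      · exact hγ'mem
      · exact (AA ρ hρ).sub_mem (hα i) (lm_mul_mem ρ hρ _ _ hγ'mem)
    · intro i j
      refine Fin.cases ?_ (fun i => ?_) i
      · refine Fin.cases ?_ (fun j => ?_) j
        · simpa using hγ'0
        · have : (0 : Fin (m + 1)) ≠ j.succ := (Fin.succ_ne_zero j).symm
          rw [if_neg this]
          exact hγ't j
      · refine Fin.cases ?_ (fun j => ?_) j
        · rw [if_neg (Fin.succ_ne_zero i)]
          simp only [Fin.cons_succ, LinearMap.sub_apply, Module.End.mul_apply, lm_apply, hγ'0]
          simp
        · simp only [Fin.cons_succ, LinearMap.sub_apply, Module.End.mul_apply, lm_apply]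
          have h5 : v j.succ = Fin.tail v j := rfl
          rw [h5, hγ't, hαv, mul_zero, sub_zero]
          simp

/-- the multilinear identity on operators -/
theorem mlin_AA {d : ℕ} (c : Equiv.Perm (Fin d) → ℤ) (h : ∀ z : Fin d → D, mlin c z = 0)
    (E : Fin d → Module.End K D) (hE : ∀ i, E i ∈ AA ρ hρ) : mlin c E = 0 := by
  have key : ∀ T : Finset (Fin d), ∀ E : Fin d → Module.End K D, (∀ i ∈ T, E i ∈ AA ρ hρ) →
      (∀ i, i ∉ T → ∃ a, E i = lm ρ hρ a) → mlin c E = 0 := by
    intro T
    induction T using Finset.induction_on with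
    | empty =>
      intro E _ hE
      choose a ha using fun i => hE i (by simp)
      have h1 : mlin c E = lm ρ hρ (mlin c a) := by
        unfold mlin
        rw [map_sum]
        apply Finset.sum_congr rfl
        intro σ _
        rw [map_zsmul, map_list_prod, List.map_ofFn]
        congr 3
        funext i
        exact ha (σ i)
      rw [h1, h, map_zero]
    | insert k T hk ih =>
      intro E hET hE
      obtain ⟨P, Q, hPQ⟩ := mlin_slot c k E
      have hkE : E k ∈ Submodule.span K (Set.range (lm ρ hρ)) := hET k (Finset.mem_insert_self k T)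
      have h2 : ∀ e ∈ Submodule.span K (Set.range (lm ρ hρ)), ∑ σ, P σ * e * Q σ = 0 := by
        intro e he
        induction he using Submodule.span_induction with
        | mem x hx =>
          obtain ⟨b, rfl⟩ := hx
          rw [← hPQ]
          apply ih
          · intro i hi
            have hik : i ≠ k := fun h => hk (h ▸ hi)
            rw [Function.update_of_ne hik]
            exact hET i (Finset.mem_insert_of_mem hi)
          · intro i hi
            by_cases hik : i = k
            · subst hik; exact ⟨b, Function.update_self _ _ _⟩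
            · rw [Function.update_of_ne hik]
              exact hE i (by simp [hik, hi])
        | zero => simp
        | add x y _ _ hx hy =>
          have : ∀ σ, P σ * (x + y) * Q σ = P σ * x * Q σ + P σ * y * Q σ := by
            intro σ; noncomm_ring
          simp only [this]
          rw [Finset.sum_add_distrib, hx, hy, add_zero]
        | smul c x _ hx =>
          have : ∀ σ, P σ * (c • x) * Q σ = c • (P σ * x * Q σ) := by
            intro σ; rw [mul_smul_comm, smul_mul_assoc]
          simp only [this]
          rw [← Finset.smul_sum, hx, smul_zero]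
      have h3 := h2 _ hkE
      rw [← hPQ, Function.update_eq_self] at h3
      exact h3
  exact key Finset.univ E (fun i _ => hE i) (fun i hi => absurd (Finset.mem_univ i) hi)

/-- staircase operators -/
theorem stair {d : ℕ} (E : Fin d → Module.End K D) (v : ℕ → D)
    (hE : ∀ (i : Fin d) (k : ℕ), k ≤ d → E i (v k) = if k = (i : ℕ) + 1 then v i else 0)
    (l : List (Fin d)) (k : ℕ) (hk : k ≤ d) :
    (l.map E).prod (v k) =
      if l.map Fin.val = List.range' (k - l.length) l.length ∧ l.length ≤ k then v (k - l.length)
      else 0 := by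
  induction l with
  | nil => simp
  | cons i l ih =>
    rw [List.map_cons, List.prod_cons, Module.End.mul_apply, ih]
    by_cases h : l.map Fin.val = List.range' (k - l.length) l.length ∧ l.length ≤ k
    · rw [if_pos h, hE _ _ (by omega)]
      by_cases h2 : k - l.length = (i : ℕ) + 1
      · rw [if_pos h2, if_pos]
        · congr 1
          simp only [List.length_cons]
          omega
        · simp only [List.map_cons, List.length_cons]
          refine ⟨?_, by omega⟩
          rw [List.range'_succ, h.1]
          have h3 : k - (l.length + 1) = i := by omega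
          have h4 : k - (l.length + 1) + 1 = k - l.length := by omega
          rw [h4, h3]
      · rw [if_neg h2, if_neg]
        simp only [List.map_cons, List.length_cons]
        rintro ⟨h3, h4⟩
        rw [List.range'_succ] at h3
        have := (List.cons.inj h3).1
        omega
    · rw [if_neg h, map_zero, if_neg]
      simp only [List.map_cons, List.length_cons]
      rintro ⟨h3, h4⟩
      rw [List.range'_succ] at h3
      apply h
      refine ⟨?_, by omega⟩
      have h5 := (List.cons.inj h3).2
      have h6 : k - (l.length + 1) + 1 = k - l.length := by omega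
      rw [h6] at h5
      exact h5

include hρ in
theorem no_indep (hcent : ∀ d : Dᵐᵒᵖ, (∀ k, ρ k * d = d * ρ k) → ∃ k, ρ k = d) {d : ℕ}
    (c : Equiv.Perm (Fin d) → ℤ) (h : ∀ z : Fin d → D, mlin c z = 0)
    (hc : ((c 1 : ℤ) : D) ≠ 0) (v : Fin (d + 1) → D) : ¬ LinearIndependent K v := by
  intro hv
  obtain ⟨α, hα, hαv⟩ := density ρ hρ hcent (d + 1) v hv
  set E : Fin d → Module.End K D := fun i => lm ρ hρ (v i.castSucc) * α i.succ with hE
  have hEmem : ∀ i, E i ∈ AA ρ hρ := fun i => lm_mul_mem ρ hρ _ _ (hα _)
  set v' : ℕ → D := fun k => if hk : k < d + 1 then v ⟨k, hk⟩ else 0 with hv'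
  have hEv : ∀ (i : Fin d) (k : ℕ), k ≤ d → E i (v' k) = if k = (i : ℕ) + 1 then v' i else 0 := by
    intro i k hk
    have hk' : k < d + 1 := by omega
    have hi : (i : ℕ) < d + 1 := by omega
    simp only [hE, hv', dif_pos hk', dif_pos hi, Module.End.mul_apply, hαv, lm_apply]
    have h1 : (i.succ = (⟨k, hk'⟩ : Fin (d + 1))) ↔ k = (i : ℕ) + 1 := by
      rw [Fin.ext_iff]
      simp only [Fin.val_succ]
      exact eq_comm
    simp only [h1]
    split_ifs
    · rw [mul_one]; rfl
    · rw [mul_zero]
  have h0 := mlin_AA ρ hρ c h E hEmem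
  have h1 := congrArg (fun f : Module.End K D => f (v' d)) h0
  simp only [mlin, LinearMap.sum_apply, LinearMap.zero_apply] at h1
  rw [Finset.sum_eq_single 1] at h1
  · have h2 : List.ofFn (fun i => E ((1 : Equiv.Perm (Fin d)) i)) = (List.finRange d).map E := by
      rw [List.ofFn_eq_map]; rfl
    have h3 := stair E v' hEv (List.finRange d) d le_rfl
    rw [h2, LinearMap.smul_apply, h3, if_pos] at h1
    · rw [List.length_finRange, Nat.sub_self] at h1
      have h4 : v' 0 = v 0 := by simp [hv']
      rw [h4, zsmul_eq_mul] at h1
      rcases mul_eq_zero.mp h1 with h5 | h5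
      · exact hc h5
      · exact hv.ne_zero 0 h5
    · rw [List.length_finRange, Nat.sub_self, List.map_coe_finRange_eq_range, List.range_eq_range']
      exact ⟨rfl, le_rfl⟩
  · intro σ _ hσ
    have h2 : List.ofFn (fun i => E (σ i)) = (List.ofFn (σ : Fin d → Fin d)).map E := by
      rw [List.map_ofFn]; rfl
    have h3 := stair E v' hEv (List.ofFn (σ : Fin d → Fin d)) d le_rfl
    rw [h2, LinearMap.smul_apply, h3, if_neg, smul_zero]
    rintro ⟨h4, _⟩
    apply hσ
    rw [List.length_ofFn, Nat.sub_self, ← List.range_eq_range'] at h4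
    ext i
    have h5 : (List.ofFn (σ : Fin d → Fin d)).map Fin.val = List.ofFn (fun i => (σ i : ℕ)) := by
      rw [List.map_ofFn]; rfl
    have h6 : List.range d = List.ofFn (fun i : Fin d => (i : ℕ)) := by
      rw [← List.map_coe_finRange_eq_range, List.ofFn_eq_map]
    rw [h5, h6, List.ofFn_inj] at h4
    exact congrFun h4 i
  · intro h; exact absurd (Finset.mem_univ _) h

include hρ in
theorem finite_K (hcent : ∀ d : Dᵐᵒᵖ, (∀ k, ρ k * d = d * ρ k) → ∃ k, ρ k = d) {d : ℕ}
    (c : Equiv.Perm (Fin d) → ℤ) (h : ∀ z : Fin d → D, mlin c z = 0)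
    (hc : ((c 1 : ℤ) : D) ≠ 0) : Module.Finite K D := by
  by_contra hfin
  have hrank : Cardinal.aleph0 ≤ Module.rank K D := by
    rw [← not_lt, Module.rank_lt_aleph0_iff]
    exact hfin
  have hex : ∀ m : ℕ, ∃ v : Fin m → D, LinearIndependent K v := by
    intro m
    induction m with
    | zero => exact ⟨Fin.elim0, linearIndependent_empty_type⟩
    | succ m ih =>
      obtain ⟨v, hv⟩ := ih
      obtain ⟨x, hx⟩ := exists_linearIndependent_snoc_of_lt_rank hv
        (lt_of_lt_of_le (Cardinal.natCast_lt_aleph0) hrank)
      exact ⟨_, hx⟩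
  obtain ⟨v, hv⟩ := hex (d + 1)
  exact no_indep ρ hρ hcent c h hc v hv

end density

section center

variable {D : Type u} [DivisionRing D]

/-- If `d_i` are linearly independent over the centre and `Σ d_i x b_i = 0` for all `x`, then all
`b_i` vanish. -/
theorem indep_center {ι : Type u} (d : ι → D) (hd : LinearIndependent (Subring.center D) d)
    (s : Finset ι) (n : ℕ) : ∀ b : ι → D, (∀ i, i ∉ s → b i = 0) →
    (Set.ncard {i | b i ≠ 0} ≤ n) →
    (∀ x : D, ∑ i ∈ s, d i * x * b i = 0) → ∀ i, b i = 0 := by
  have hfin : ∀ b : ι → D, (∀ i, i ∉ s → b i = 0) → {i | b i ≠ 0}.Finite := by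
    intro b hb
    apply Set.Finite.subset s.finite_toSet
    intro i hi
    by_contra his
    exact hi (hb i his)
  induction n with
  | zero =>
    intro b hb hn _ i
    have h1 : {i | b i ≠ 0} = ∅ := by
      rw [← Set.ncard_eq_zero (hfin b hb)]
      omega
    by_contra hi
    have : i ∈ {i | b i ≠ 0} := hi
    rw [h1] at this
    exact this
  | succ n ih =>
    intro b hb hn hx
    by_contra hcon
    push Not at hcon
    obtain ⟨i0, hi0⟩ := hcon
    set b' : ι → D := fun i => b i * (b i0)⁻¹ with hb'
    have hb'0 : b' i0 = 1 := mul_inv_cancel₀ hi0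
    have hb's : ∀ i, i ∉ s → b' i = 0 := fun i hi => by simp only [hb', hb i hi, zero_mul]
    have hx' : ∀ x : D, ∑ i ∈ s, d i * x * b' i = 0 := by
      intro x
      have := congrArg (fun t => t * (b i0)⁻¹) (hx x)
      simp only [Finset.sum_mul, zero_mul] at this
      rw [← this]
      apply Finset.sum_congr rfl
      intro i _
      simp only [hb', mul_assoc]
    have hcen : ∀ i, ∀ c : D, c * b' i - b' i * c = 0 := by
      intro i c
      revert i
      apply ih (fun i => c * b' i - b' i * c)
      · intro i hi
        simp only [hb's i hi, mul_zero, zero_mul, sub_zero]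
      · have hsub : {i | c * b' i - b' i * c ≠ 0} ⊆ {i | b i ≠ 0} \ {i0} := by
          intro i hi
          refine ⟨?_, ?_⟩
          · intro h
            apply hi
            simp only [hb', h, zero_mul, mul_zero, sub_zero]
          · rintro rfl
            apply hi
            simp only [hb'0, mul_one, one_mul, sub_self]
        have h1 := Set.ncard_le_ncard hsub ((hfin b hb).subset Set.sdiff_subset)
        have h2 := Set.ncard_sdiff_singleton_add_one (s := {i | b i ≠ 0}) hi0 (hfin b hb)
        omega
      · intro x
        have h3 := hx' (x * c)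
        have h4 := congrArg (fun t => t * c) (hx' x)
        simp only [Finset.sum_mul, zero_mul] at h4
        have : ∀ i ∈ s, d i * x * (c * b' i - b' i * c) =
            d i * (x * c) * b' i - d i * x * b' i * c := by
          intro i _; noncomm_ring
        rw [Finset.sum_congr rfl this, Finset.sum_sub_distrib, h3, h4, sub_zero]
    have hz : ∀ i, b' i ∈ Subring.center D := by
      intro i
      rw [Subring.mem_center_iff]
      intro c
      exact sub_eq_zero.mp (hcen i c)
    have h5 := hx' 1
    have h6 : ∑ i ∈ s, (⟨b' i, hz i⟩ : Subring.center D) • d i = 0 := by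
      rw [← h5]
      apply Finset.sum_congr rfl
      intro i _
      rw [mul_one]
      change b' i * d i = d i * b' i
      exact ((Subring.mem_center_iff.mp (hz i)) (d i)).symm
    have h7 := linearIndependent_iff'.mp hd s _ h6
    have hi0s : i0 ∈ s := by
      by_contra h
      exact hi0 (hb i0 h)
    have h8 := congrArg Subtype.val (h7 i0 hi0s)
    simp only [hb'0] at h8
    exact one_ne_zero h8

/-- A division ring satisfying a multilinear identity is finite-dimensional over its centre. -/
theorem finite_over_center {d : ℕ} (c : Equiv.Perm (Fin d) → ℤ)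
    (h : ∀ z : Fin d → D, mlin c z = 0) (hc : ((c 1 : ℤ) : D) ≠ 0) :
    Module.Finite (Subring.center D) D := by
  classical
  obtain ⟨K, hK⟩ := exists_max_comm Dᵐᵒᵖ
  letI fK : Field K := fieldOfSelfCent Dᵐᵒᵖ K hK
  let ρ : K →+* Dᵐᵒᵖ :=
    { toFun := fun k => (k : Dᵐᵒᵖ)
      map_one' := rfl
      map_mul' := fun _ _ => rfl
      map_zero' := rfl
      map_add' := fun _ _ => rfl }
  letI mK : Module K D := Module.compHom D ρ
  have hρ : ∀ (k : K) (x : D), k • x = x * unop (ρ k) := fun k x => rfl
  have hcent : ∀ d : Dᵐᵒᵖ, (∀ k, ρ k * d = d * ρ k) → ∃ k, ρ k = d := by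
    intro d hd
    have h1 : d ∈ Subring.centralizer (K : Set Dᵐᵒᵖ) := by
      rw [Subring.mem_centralizer_iff]
      intro g hg
      exact hd ⟨g, hg⟩
    rw [hK] at h1
    exact ⟨⟨d, h1⟩, rfl⟩
  have hfinK : Module.Finite K D := finite_K ρ hρ hcent c h hc
  let b := Module.Basis.ofVectorSpace (Subring.center D) D
  have hindep : LinearIndependent K (fun i => lm ρ hρ (b i)) := by
    rw [linearIndependent_iff']
    intro s g hg
    have h1 : ∀ i, (if i ∈ s then unop (ρ (g i)) else 0) = 0 := by
      apply indep_center b b.linearIndependent s (s.card)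
      · intro i hi; rw [if_neg hi]
      · have hsub : {i | (if i ∈ s then unop (ρ (g i)) else 0) ≠ 0} ⊆ (s : Set _) := by
          intro i hi
          by_contra his
          exact hi (if_neg his)
        have h2 := Set.ncard_le_ncard hsub s.finite_toSet
        rw [Set.ncard_coe_finset] at h2
        exact h2
      · intro x
        have h2 := congrArg (fun f : Module.End K D => f x) hg
        simp only [LinearMap.sum_apply, LinearMap.smul_apply, LinearMap.zero_apply, lm_apply] at h2
        rw [← h2]
        apply Finset.sum_congr rfl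
        intro i hi
        rw [if_pos hi, hρ]
    intro i hi
    have h2 := h1 i
    rw [if_pos hi] at h2
    exact Subtype.ext (unop_injective h2)
  have : Finite _ := hindep.finite_of_isNoetherian
  exact Module.Finite.of_basis b

/-- A division ring with finite centre satisfying a multilinear identity is commutative. -/
theorem comm_of_finite_center (hfin : Finite (Subring.center D)) {d : ℕ}
    (c : Equiv.Perm (Fin d) → ℤ) (h : ∀ z : Fin d → D, mlin c z = 0)
    (hc : ((c 1 : ℤ) : D) ≠ 0) (x y : D) : x * y = y * x := by
  have h1 := finite_over_center c h hc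
  have h2 : Finite D := Module.finite_of_finite (Subring.center D)
  exact (Finite.isDomain_to_isField D).mul_comm x y

end center

end Pool.Agent.helper9.MNE
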