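import Mathlib

/-!
# Varieties of associative rings, Engel varieties, critical rings and Cross varieties

Rings are associative and not necessarily unital (`NonUnitalRing`).
-/

universe u v

namespace Pool.Agent.helper9.MNE

/-- Terms in the signature `(+, -, 0, *)` of (non-unital) rings, over the variables
`x_0, x_1, x_2, ...`. -/
inductive RTerm : Type
  | var : ℕ → RTerm
  | zero : RTerm
  | neg : RTerm → RTerm
  | add : RTerm → RTerm → RTerm
  | mul : RTerm → RTerm → RTerm

/-- The value of a term in the ring `R` under the assignment `ρ` of elements of `R` to the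
variables. -/
def RTerm.eval {R : Type u} [NonUnitalRing R] (ρ : ℕ → R) : RTerm → R
  | .var n => ρ n
  | .zero => 0
  | .neg t => - t.eval ρ
  | .add s t => s.eval ρ + t.eval ρ
  | .mul s t => s.eval ρ * t.eval ρ

/-- The ring `R` satisfies the identity `s = t`, where `e = (s, t)`. -/
def Sat (R : Type u) [NonUnitalRing R] (e : RTerm × RTerm) : Prop :=
  ∀ ρ : ℕ → R, e.1.eval ρ = e.2.eval ρ

/-- A class of (associative, not necessarily unital) rings. -/
abbrev RingClass : Type (u + 1) := (R : Type u) → [NonUnitalRing R] → Prop

/-- The class `V` is the class of all rings satisfying the identities in `E`. -/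
def DefinedBy (V : RingClass.{u}) (E : Set (RTerm × RTerm)) : Prop :=
  ∀ (R : Type u) [NonUnitalRing R], V R ↔ ∀ e ∈ E, Sat R e

/-- `V` is a variety: a class of rings defined by a set of identities. -/
def IsVariety (V : RingClass.{u}) : Prop := ∃ E : Set (RTerm × RTerm), DefinedBy V E

/-- The iterated commutator `[x, y, ..., y]` with `k` entries `y`:
`[x,_0 y] = x` and `[x,_{k+1} y] = [[x,_k y], y]` where `[a, b] = a b - b a`. -/
def icomm {R : Type u} [NonUnitalRing R] (x y : R) : ℕ → R
  | 0 => x
  | k + 1 => icomm x y k * y - y * icomm x y k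

/-- `V` is an Engel class of rings: for some `n ≥ 1` all its members satisfy `[x,_n y] = 0`. -/
def IsEngel (V : RingClass.{u}) : Prop :=
  ∃ n : ℕ, 1 ≤ n ∧ ∀ (R : Type u) [NonUnitalRing R], V R → ∀ x y : R, icomm x y n = 0

/-- `V` is a minimal non-Engel variety: `V` is a variety that is not Engel, and every variety
properly contained in `V` is Engel. -/
def IsMinimalNonEngel (V : RingClass.{u}) : Prop :=
  IsVariety V ∧ ¬ IsEngel V ∧
    ∀ W : RingClass.{u}, IsVariety W →
      (∀ (R : Type u) [NonUnitalRing R], W R → V R) →
      (∃ (R : Type u) (_ : NonUnitalRing R), V R ∧ ¬ W R) → IsEngel W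

/-- `Q` is a factor of `R`: a homomorphic image of a subring of `R`. -/
def IsFactor (Q R : Type u) [NonUnitalRing Q] [NonUnitalRing R] : Prop :=
  ∃ (S : NonUnitalSubring R) (f : S →ₙ+* Q), Function.Surjective f

/-- `R` lies in the variety generated by the class `K`: it satisfies every identity that holds in
all members of `K`. -/
def InVarietyGeneratedBy (K : RingClass.{u}) (R : Type u) [NonUnitalRing R] : Prop :=
  ∀ e : RTerm × RTerm, (∀ (Q : Type u) [NonUnitalRing Q], K Q → Sat Q e) → Sat R e

/-- The finite ring `R` is critical: it does not lie in the variety generated by its proper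
factors, i.e. by the factors of `R` not isomorphic to `R`. -/
def IsCritical (R : Type u) [NonUnitalRing R] : Prop :=
  Finite R ∧ ¬ InVarietyGeneratedBy (fun Q _ => IsFactor Q R ∧ ¬ Nonempty (Q ≃+* R)) R

/-- `V` is finitely based: it is defined by finitely many identities. -/
def IsFinitelyBased (V : RingClass.{u}) : Prop :=
  ∃ E : Set (RTerm × RTerm), E.Finite ∧ DefinedBy V E

/-- `V` is locally finite: every finitely generated member of `V` is finite. -/
def IsLocallyFinite (V : RingClass.{u}) : Prop :=
  ∀ (R : Type u) [NonUnitalRing R], V R →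
    (∃ s : Set R, s.Finite ∧ NonUnitalSubring.closure s = ⊤) → Finite R

/-- `V` contains only finitely many critical rings up to isomorphism. -/
def HasFinitelyManyCriticalRings (V : RingClass.{u}) : Prop :=
  ∃ (n : ℕ) (C : Fin n → Type u) (_ : ∀ i, NonUnitalRing (C i)),
    ∀ (R : Type u) [NonUnitalRing R], V R → IsCritical R → ∃ i, Nonempty (R ≃+* C i)

/-- `V` is a Cross variety: a variety that is finitely based, locally finite, and contains only
finitely many critical rings up to isomorphism. -/
def IsCross (V : RingClass.{u}) : Prop :=
  IsVariety V ∧ IsFinitelyBased V ∧ IsLocallyFinite V ∧ HasFinitelyManyCriticalRings V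

end Pool.Agent.helper9.MNE
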