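import Mathlib

/-!
# A Nullstellensatz over the integers, in two variables
-/

namespace Pool.Agent.helper9.MNE

open MvPolynomial

theorem isJacobsonRing_int : IsJacobsonRing ℤ := by
  rw [isJacobsonRing_iff_prime_eq]
  intro P hP
  by_cases hbot : P = ⊥
  · subst hbot
    rw [eq_bot_iff]
    intro x hx
    rw [Ideal.mem_jacobson_bot] at hx
    by_contra hx0
    have hx0' : x ≠ 0 := by simpa using hx0
    have h1 := hx (3 * x)
    have h2 := Int.isUnit_iff.mp h1
    have h3 : 0 < x ^ 2 := by positivity
    rcases h2 with h2 | h2 <;> nlinarith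
  · have : P.IsMaximal := hP.isMaximal hbot
    exact Ideal.jacobson_eq_self_of_isMaximal

theorem finite_of_field_finiteType (K : Type) [Field K] [Algebra.FiniteType ℤ K] : Finite K := by
  have := isJacobsonRing_int
  have hfin : Module.Finite ℤ K := finite_of_finite_type_of_isJacobsonRing ℤ K
  obtain ⟨p, hp⟩ := CharP.exists K
  have hp0 : p ≠ 0 := by
    rintro rfl
    have : CharZero K := CharP.charP_to_charZero K
    have hinj : Function.Injective (algebraMap ℤ K) := by
      intro a b hab
      simpa using hab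
    have := isField_of_isIntegral_of_isField hinj (Field.toIsField K)
    exact Int.not_isField this
  have : Fact p.Prime := ⟨(CharP.char_is_prime_or_zero K p).resolve_right hp0⟩
  let _ : Algebra (ZMod p) K := ZMod.algebra K p
  have : Module.Finite (ZMod p) K := Module.Finite.of_restrictScalars_finite ℤ (ZMod p) K
  exact Module.finite_of_finite (ZMod p)

theorem finite_of_surjective (K : Type) [Field K] (φ : MvPolynomial (Fin 2) ℤ →+* K)
    (hφ : Function.Surjective φ) : Finite K := by
  let ψ : MvPolynomial (Fin 2) ℤ →ₐ[ℤ] K := MvPolynomial.aeval (fun i => φ (X i))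
  have hψ : ∀ x, ψ x = φ x := by
    intro x
    have : (ψ : MvPolynomial (Fin 2) ℤ →+* K) = φ := by
      apply MvPolynomial.ringHom_ext
      · intro r
        simp
      · intro i
        simp [ψ]
    exact congrArg (fun f : MvPolynomial (Fin 2) ℤ →+* K => f x) this
  have hsurj : Function.Surjective ψ := by
    intro y
    obtain ⟨x, rfl⟩ := hφ y
    exact ⟨x, hψ x⟩
  have : Algebra.FiniteType ℤ K := Algebra.FiniteType.of_surjective ψ hsurj
  exact finite_of_field_finiteType K

/-- Nullstellensatz: if no power of `f` lies in the ideal `L` of `ℤ[X_0, X_1]`, there is a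
homomorphism to a finite field killing `L` but not `f`. -/
theorem exists_finite_field (L : Ideal (MvPolynomial (Fin 2) ℤ)) (f : MvPolynomial (Fin 2) ℤ)
    (h : ∀ n : ℕ, f ^ n ∉ L) :
    ∃ (K : Type) (_ : Field K) (_ : Finite K) (φ : MvPolynomial (Fin 2) ℤ →+* K),
      (∀ g ∈ L, φ g = 0) ∧ φ f ≠ 0 := by
  have := isJacobsonRing_int
  have hrad : f ∉ L.radical := by
    rintro ⟨n, hn⟩
    exact h n hn
  rw [Ideal.radical_eq_jacobson, Ideal.jacobson, Ideal.mem_sInf] at hrad
  push Not at hrad
  obtain ⟨m, ⟨hLm, hm⟩, hfm⟩ := hrad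
  let _ : Field (MvPolynomial (Fin 2) ℤ ⧸ m) := Ideal.Quotient.field m
  refine ⟨MvPolynomial (Fin 2) ℤ ⧸ m, inferInstance,
    finite_of_surjective _ (Ideal.Quotient.mk m) Ideal.Quotient.mk_surjective,
    Ideal.Quotient.mk m, ?_, ?_⟩
  · intro g hg
    exact Ideal.Quotient.eq_zero_iff_mem.mpr (hLm hg)
  · intro h0
    exact hfm (Ideal.Quotient.eq_zero_iff_mem.mp h0)

end Pool.Agent.helper9.MNE
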