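import Mathlib
import Pool.Agent.helper9.MNE.Defs
import Pool.Agent.helper9.MNE.Null

/-!
# The basic identity of a variety containing no finite non-Engel ring
-/

universe u v w

namespace Pool.Agent.helper9.MNE

open MvPolynomial

/-- The value of a word in two letters (`true` is `x`, `false` is `y`). -/
def wev {B : Type u} [Ring B] (x y : B) (w : List Bool) : B :=
  (w.map (fun b => cond b x y)).prod

/-- The value of a noncommutative polynomial in two variables, given by its coefficients. -/
def pev {B : Type u} [Ring B] (x y : B) (g : List Bool →₀ ℤ) : B :=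
  g.sum (fun w c => c • wev x y w)

theorem RTerm.eval_map {R : Type u} {S : Type v} [NonUnitalRing R] [NonUnitalRing S]
    (f : R →ₙ+* S) (ρ : ℕ → R) (t : RTerm) : f (t.eval ρ) = t.eval (fun i => f (ρ i)) := by
  induction t with
  | var n => rfl
  | zero => simp [RTerm.eval]
  | neg t ih => simp [RTerm.eval, ih]
  | add s t ihs iht => simp [RTerm.eval, ihs, iht]
  | mul s t ihs iht => simp [RTerm.eval, ihs, iht]

theorem icomm_map {R : Type u} {S : Type v} [NonUnitalRing R] [NonUnitalRing S]
    (f : R →ₙ+* S) (x y : R) (n : ℕ) : f (icomm x y n) = icomm (f x) (f y) n := by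
  induction n with
  | zero => rfl
  | succ n ih => simp [icomm, ih]

/-- The finite ring generated by `e_12` and `diag(α, β)`. -/
def D0 (K : Type u) [Field K] (α β : K) : NonUnitalSubring (Matrix (Fin 2) (Fin 2) K) :=
  NonUnitalSubring.closure {!![0, 1; 0, 0], !![α, 0; 0, β]}

/-- abbreviation for the free ring on two letters -/
abbrev FA : Type := FreeAlgebra ℤ Bool

/-- evaluation -/
noncomputable def fev {B : Type u} [Ring B] (x y : B) : FA →ₐ[ℤ] B :=
  FreeAlgebra.lift ℤ (fun b : Bool => cond b x y)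

theorem fev_X {B : Type u} [Ring B] (x y : B) : fev x y (FreeAlgebra.ι ℤ true) = x := by
  simp [fev]

theorem fev_Y {B : Type u} [Ring B] (x y : B) : fev x y (FreeAlgebra.ι ℤ false) = y := by
  simp [fev]

/-- The word as an element of the free ring. -/
noncomputable def wd (w : List Bool) : FA := (w.map (FreeAlgebra.ι ℤ)).prod

theorem fev_wd {B : Type u} [Ring B] (x y : B) (w : List Bool) : fev x y (wd w) = wev x y w := by
  unfold wd wev
  rw [map_list_prod, List.map_map]
  congr 1
  apply List.map_congr_left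
  intro b _
  cases b <;> simp [fev]

theorem exists_coeff (G : FA) : ∃ g : List Bool →₀ ℤ, G = g.sum (fun w c => c • wd w) := by
  induction G using FreeAlgebra.induction with
  | grade0 r =>
    refine ⟨Finsupp.single [] r, ?_⟩
    rw [Finsupp.sum_single_index (by simp)]
    simp [wd]
  | grade1 b =>
    refine ⟨Finsupp.single [b] 1, ?_⟩
    rw [Finsupp.sum_single_index (by simp)]
    simp [wd]
  | mul a b ha hb =>
    obtain ⟨g, rfl⟩ := ha
    obtain ⟨h, rfl⟩ := hb
    refine ⟨g.sum (fun w c => h.sum (fun w' c' => Finsupp.single (w ++ w') (c * c'))), ?_⟩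
    rw [Finsupp.sum_mul, Finsupp.sum_sum_index (by simp) (by intros; rw [add_smul])]
    apply Finsupp.sum_congr
    intro w _
    rw [Finsupp.mul_sum, Finsupp.sum_sum_index (by simp) (by intros; rw [add_smul])]
    apply Finsupp.sum_congr
    intro w' _
    rw [Finsupp.sum_single_index (by simp)]
    simp only [wd, List.map_append, List.prod_append, smul_mul_assoc, mul_smul_comm, smul_smul]
    rw [mul_comm]
  | add a b ha hb =>
    obtain ⟨g, rfl⟩ := ha
    obtain ⟨h, rfl⟩ := hb
    refine ⟨g + h, ?_⟩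
    rw [Finsupp.sum_add_index (by simp) (by intros; rw [add_smul])]

theorem fev_coeff {B : Type u} [Ring B] (x y : B) (g : List Bool →₀ ℤ) :
    fev x y (g.sum (fun w c => c • wd w)) = pev x y g := by
  unfold pev
  rw [map_finsuppSum]
  apply Finsupp.sum_congr
  intro w _
  rw [map_smul, fev_wd]

/-- polynomial ring in two commuting variables `s, t` -/
abbrev P2 : Type := MvPolynomial (Fin 2) ℤ

/-- The matrix `e_12` over `ℤ[s,t]`. -/
noncomputable def gX : Matrix (Fin 2) (Fin 2) P2 := !![0, 1; 0, 0]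

/-- The matrix `diag(s, t)` over `ℤ[s,t]`. -/
noncomputable def gY : Matrix (Fin 2) (Fin 2) P2 := !![X 0, 0; 0, X 1]

/-- exponent vector -/
noncomputable def ex (i j : ℕ) : Fin 2 →₀ ℕ := Finsupp.single 0 i + Finsupp.single 1 j

/-- The word `y^i x y^j`. -/
def wij (i j : ℕ) : List Bool := List.replicate i false ++ true :: List.replicate j false

theorem wev_cons {B : Type u} [Ring B] (x y : B) (b : Bool) (w : List Bool) :
    wev x y (b :: w) = (cond b x y) * wev x y w := by
  simp [wev]

theorem wev_nil {B : Type u} [Ring B] (x y : B) : wev x y [] = 1 := by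
  simp [wev]

theorem gX_mul (M : Matrix (Fin 2) (Fin 2) P2) : gX * M = !![M 1 0, M 1 1; 0, 0] := by
  ext i j
  fin_cases i <;> fin_cases j <;> simp [gX, Matrix.mul_apply]

theorem gY_mul (M : Matrix (Fin 2) (Fin 2) P2) :
    gY * M = !![X 0 * M 0 0, X 0 * M 0 1; X 1 * M 1 0, X 1 * M 1 1] := by
  ext i j
  fin_cases i <;> fin_cases j <;> simp [gY, Matrix.mul_apply]

theorem eq_replicate_iff (w : List Bool) (j : ℕ) :
    w = List.replicate j false ↔ w.count true = 0 ∧ w.length = j := by
  rw [List.eq_replicate_iff, List.count_eq_zero]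
  constructor
  · rintro ⟨h1, h2⟩
    exact ⟨fun h => by simpa using h2 true h, h1⟩
  · rintro ⟨h1, h2⟩
    refine ⟨h2, fun b hb => ?_⟩
    cases b with
    | false => rfl
    | true => exact absurd hb h1

theorem ex_eq_single (i j k : ℕ) : Finsupp.single (1 : Fin 2) k = ex i j ↔ i = 0 ∧ k = j := by
  constructor
  · intro h
    have h0 := DFunLike.congr_fun h 0
    have h1 := DFunLike.congr_fun h 1
    simp [ex] at h0 h1
    exact ⟨h0.symm, h1⟩
  · rintro ⟨rfl, rfl⟩
    simp [ex]

theorem ex_succ (i j : ℕ) : ex (i + 1) j = Finsupp.single 0 1 + ex i j := by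
  unfold ex
  rw [← add_assoc, ← Finsupp.single_add, add_comm 1 i]

/-- the entries of the value of a word at the generic matrices -/
theorem wev_gen (w : List Bool) :
    wev gX gY w 1 0 = 0 ∧
    wev gX gY w 0 0 = (if w.count true = 0 then X 0 ^ w.length else 0) ∧
    wev gX gY w 1 1 = (if w.count true = 0 then X 1 ^ w.length else 0) ∧
    ∀ i j : ℕ, coeff (ex i j) (wev gX gY w 0 1) = if w = wij i j then 1 else 0 := by
  induction w with
  | nil =>
    refine ⟨?_, ?_, ?_, ?_⟩
    · simp [wev_nil]
    · simp [wev_nil]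
    · simp [wev_nil]
    · intro i j
      simp [wev_nil, wij]
  | cons b w ih =>
    obtain ⟨h10, h00, h11, h01⟩ := ih
    cases b with
    | true =>
      rw [wev_cons, cond_true, gX_mul]
      refine ⟨?_, ?_, ?_, ?_⟩
      · simp
      · simp [h10]
      · simp
      · intro i j
        have h1 : (!![wev gX gY w 1 0, wev gX gY w 1 1; 0, 0] : Matrix (Fin 2) (Fin 2) P2) 0 1
          = wev gX gY w 1 1 := rfl
        rw [h1, h11]
        have h2 : (true :: w = wij i j) ↔ (i = 0 ∧ w = List.replicate j false) := by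
          cases i <;> simp [wij, List.replicate_succ]
        simp only [h2, eq_replicate_iff]
        by_cases hc : w.count true = 0
        · simp only [hc, if_true, true_and]
          rw [coeff_X_pow]
          simp only [ex_eq_single]
        · simp [hc]
    | false =>
      rw [wev_cons, cond_false, gY_mul]
      refine ⟨?_, ?_, ?_, ?_⟩
      · simp [h10]
      · simp [h00, pow_succ']
      · simp [h11, pow_succ']
      · intro i j
        have h1 : (!![X 0 * wev gX gY w 0 0, X 0 * wev gX gY w 0 1;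
          X 1 * wev gX gY w 1 0, X 1 * wev gX gY w 1 1] : Matrix (Fin 2) (Fin 2) P2) 0 1
          = X 0 * wev gX gY w 0 1 := rfl
        rw [h1]
        cases i with
        | zero =>
          rw [coeff_X_mul']
          simp [ex, wij]
        | succ i =>
          rw [ex_succ, coeff_X_mul, h01]
          simp [wij, List.replicate_succ]

theorem pev_apply (g : List Bool →₀ ℤ) (i j : Fin 2) :
    pev gX gY g i j = g.sum (fun w c => c • wev gX gY w i j) := by
  unfold pev Finsupp.sum
  rw [Matrix.sum_apply]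
  rfl

theorem coeff_pev (g : List Bool →₀ ℤ) (i j : Fin 2) (m : Fin 2 →₀ ℕ) :
    coeff m (pev gX gY g i j) = g.sum (fun w c => c * coeff m (wev gX gY w i j)) := by
  rw [pev_apply]
  unfold Finsupp.sum
  rw [coeff_sum]
  apply Finset.sum_congr rfl
  intro w _
  rw [coeff_smul, smul_eq_mul]

theorem sum_ite_word (g : List Bool →₀ ℤ) (w0 : List Bool) :
    g.sum (fun w c => c * (if w = w0 then (1 : ℤ) else 0)) = g w0 := by
  simp only [mul_ite, mul_one, mul_zero]
  rw [Finsupp.sum]
  simp only [eq_comm (b := w0)]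
  rw [Finset.sum_ite_eq]
  split_ifs with h
  · rfl
  · exact (Finsupp.notMem_support_iff.mp h).symm

theorem exists_wij (w : List Bool) (h : w.count true = 1) : ∃ i j, w = wij i j := by
  have hmem : true ∈ w := by
    rw [← List.count_pos_iff]
    omega
  obtain ⟨l1, l2, rfl⟩ := List.append_of_mem hmem
  rw [List.count_append, List.count_cons_self] at h
  refine ⟨l1.length, l2.length, ?_⟩
  have h1 : l1.count true = 0 := by omega
  have h2 : l2.count true = 0 := by omega
  unfold wij
  rw [← (eq_replicate_iff l1 _).mpr ⟨h1, rfl⟩, ← (eq_replicate_iff l2 _).mpr ⟨h2, rfl⟩]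

theorem coeff_eq_zero_of_pev (g : List Bool →₀ ℤ) (hg : pev gX gY g = 0) (w : List Bool)
    (hw : w.count true ≤ 1) : g w = 0 := by
  rcases Nat.lt_or_ge (w.count true) 1 with h | h
  · have h0 : w.count true = 0 := by omega
    have hw0 : w = List.replicate w.length false := (eq_replicate_iff w _).mpr ⟨h0, rfl⟩
    have key := coeff_pev g 0 0 (ex w.length 0)
    rw [hg] at key
    have h2 : ∀ v : List Bool, coeff (ex w.length 0) (wev gX gY v 0 0) =
        if v = List.replicate w.length false then 1 else 0 := by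
      intro v
      rw [(wev_gen v).2.1]
      simp only [eq_replicate_iff]
      by_cases hc : v.count true = 0
      · simp only [hc, if_true, true_and]
        rw [coeff_X_pow]
        have : (Finsupp.single (0 : Fin 2) v.length = ex w.length 0) ↔ v.length = w.length := by
          unfold ex
          rw [Finsupp.single_zero, add_zero]
          exact (Finsupp.single_injective 0).eq_iff
        simp only [this]
      · simp [hc]
    simp only [h2] at key
    rw [sum_ite_word] at key
    rw [hw0, ← key]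
    simp
  · obtain ⟨i, j, hij⟩ := exists_wij w (by omega)
    have key := coeff_pev g 0 1 (ex i j)
    rw [hg] at key
    simp only [(wev_gen _).2.2.2] at key
    rw [sum_ite_word] at key
    rw [hij, ← key]
    simp

/-- The two-variable polynomials vanishing on all members of `V`. -/
def TI (V : RingClass.{u}) : Set FA :=
  {G | ∀ (R : Type u) [NonUnitalRing R], V R → ∀ x y : R,
    fev (x : Unitization ℤ R) (y : Unitization ℤ R) G = 0}

theorem TI_mul_left {V : RingClass.{u}} {G : FA} (hG : G ∈ TI V) (F : FA) : F * G ∈ TI V := by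
  intro R _ hR x y
  rw [map_mul, hG R hR x y, mul_zero]

theorem TI_mul_right {V : RingClass.{u}} {G : FA} (hG : G ∈ TI V) (F : FA) : G * F ∈ TI V := by
  intro R _ hR x y
  rw [map_mul, hG R hR x y, zero_mul]

theorem TI_add {V : RingClass.{u}} {G H : FA} (hG : G ∈ TI V) (hH : H ∈ TI V) :
    G + H ∈ TI V := by
  intro R _ hR x y
  rw [map_add, hG R hR x y, hH R hR x y, add_zero]

theorem TI_sub {V : RingClass.{u}} {G H : FA} (hG : G ∈ TI V) (hH : H ∈ TI V) :
    G - H ∈ TI V := by
  intro R _ hR x y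
  rw [map_sub, hG R hR x y, hH R hR x y, sub_zero]

theorem TI_zero {V : RingClass.{u}} : (0 : FA) ∈ TI V := by
  intro R _ hR x y
  rw [map_zero]

/-- the substitution `x ↦ 0, y ↦ y` -/
noncomputable def θ : FA →ₐ[ℤ] FA := fev 0 (FreeAlgebra.ι ℤ false)

theorem fev_θ {B : Type u} [Ring B] (x y : B) (G : FA) : fev x y (θ G) = fev 0 y G := by
  have : (fev x y).comp θ = fev 0 y := by
    apply FreeAlgebra.hom_ext
    funext b
    cases b
    · exact (congrArg (fev x y) (fev_Y (0 : FA) (FreeAlgebra.ι ℤ false))).trans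
        ((fev_Y x y).trans (fev_Y 0 y).symm)
    · exact (congrArg (fev x y) (fev_X (0 : FA) (FreeAlgebra.ι ℤ false))).trans
        ((map_zero _).trans (fev_X 0 y).symm)
  exact congrArg (fun f : FA →ₐ[ℤ] B => f G) this

theorem TI_θ {V : RingClass.{u}} {G : FA} (hG : G ∈ TI V) : θ G ∈ TI V := by
  intro R _ hR x y
  rw [fev_θ]
  exact hG R hR 0 y

theorem fev_gen_lower (G : FA) : fev gX gY G 1 0 = 0 ∧
    fev gX gY (θ G) = !![fev gX gY G 0 0, 0; 0, fev gX gY G 1 1] := by
  rw [fev_θ]
  induction G using FreeAlgebra.induction with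
  | grade0 r =>
    rw [AlgHom.commutes, AlgHom.commutes, Algebra.algebraMap_eq_smul_one]
    constructor
    · simp only [Matrix.smul_apply, Matrix.one_apply_ne (one_ne_zero : (1 : Fin 2) ≠ 0), smul_zero]
    · refine Matrix.ext fun i j => ?_
      fin_cases i <;> fin_cases j <;> simp only [Matrix.smul_apply] <;> simp
  | grade1 b =>
    cases b with
    | true =>
      rw [fev_X, fev_X]
      constructor
      · simp [gX]
      · refine Matrix.ext fun i j => ?_
        fin_cases i <;> fin_cases j <;> simp [gX]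
    | false =>
      rw [fev_Y, fev_Y]
      constructor
      · simp [gY]
      · refine Matrix.ext fun i j => ?_
        fin_cases i <;> fin_cases j <;> simp [gY]
  | mul a b ha hb =>
    rw [map_mul, map_mul, ha.2, hb.2]
    constructor
    · rw [Matrix.mul_apply, Fin.sum_univ_two, ha.1, hb.1]
      simp
    · refine Matrix.ext fun i j => ?_
      fin_cases i <;> fin_cases j <;> simp [Matrix.mul_apply, Fin.sum_univ_two, ha.1, hb.1]
  | add a b ha hb =>
    rw [map_add, map_add, ha.2, hb.2]
    constructor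
    · rw [Matrix.add_apply, ha.1, hb.1, add_zero]
    · refine Matrix.ext fun i j => ?_
      fin_cases i <;> fin_cases j <;> simp

/-- The ideal of linear parts of the identities of `V`. -/
noncomputable def LI (V : RingClass.{u}) : Ideal P2 where
  carrier := {l | ∃ G ∈ TI V, fev gX gY G = !![0, l; 0, 0]}
  add_mem' := by
    rintro a b ⟨G, hG, hGa⟩ ⟨H, hH, hHb⟩
    refine ⟨G + H, TI_add hG hH, ?_⟩
    rw [map_add, hGa, hHb]
    refine Matrix.ext fun i j => ?_
    fin_cases i <;> fin_cases j <;> simp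
  zero_mem' := by
    refine ⟨0, TI_zero, ?_⟩
    rw [map_zero]
    refine Matrix.ext fun i j => ?_
    fin_cases i <;> fin_cases j <;> simp
  smul_mem' := by
    rintro c a ⟨G, hG, hGa⟩
    rw [smul_eq_mul]
    induction c using MvPolynomial.induction_on with
    | C r =>
      refine ⟨algebraMap ℤ FA r * G, TI_mul_left hG _, ?_⟩
      rw [map_mul, hGa, AlgHom.commutes, Algebra.algebraMap_eq_smul_one, smul_mul_assoc, one_mul]
      refine Matrix.ext fun i j => ?_
      fin_cases i <;> fin_cases j <;> simp only [Matrix.smul_apply] <;>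
        simp [MvPolynomial.smul_eq_C_mul]
    | add p q hp hq =>
      obtain ⟨G1, hG1, h1⟩ := hp
      obtain ⟨G2, hG2, h2⟩ := hq
      refine ⟨G1 + G2, TI_add hG1 hG2, ?_⟩
      rw [map_add, h1, h2]
      refine Matrix.ext fun i j => ?_
      fin_cases i <;> fin_cases j <;> simp [add_mul]
    | mul_X p i hp =>
      obtain ⟨G1, hG1, h1⟩ := hp
      fin_cases i
      · refine ⟨FreeAlgebra.ι ℤ false * G1, TI_mul_left hG1 _, ?_⟩
        rw [map_mul, h1, fev_Y, gY_mul]
        refine Matrix.ext fun i j => ?_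
        fin_cases i <;> fin_cases j <;> simp
        ring
      · refine ⟨G1 * FreeAlgebra.ι ℤ false, TI_mul_right hG1 _, ?_⟩
        rw [map_mul, h1, fev_Y]
        refine Matrix.ext fun i j => ?_
        fin_cases i <;> fin_cases j <;> simp [gY, Matrix.mul_apply, Fin.sum_univ_two]
        ring

theorem mem_LI {V : RingClass.{u}} {l : P2} :
    l ∈ LI V ↔ ∃ G ∈ TI V, fev gX gY G = !![0, l; 0, 0] := Iff.rfl

theorem entries_mem_LI {V : RingClass.{u}} {G : FA} (hG : G ∈ TI V) (i j : Fin 2) :
    fev gX gY G i j ∈ LI V := by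
  have hlow := fev_gen_lower G
  fin_cases i <;> fin_cases j
  · refine ⟨G * FreeAlgebra.ι ℤ true, TI_mul_right hG _, ?_⟩
    rw [map_mul, fev_X]
    generalize fev gX gY G = M at hlow ⊢
    refine Matrix.ext fun i j => ?_
    fin_cases i <;> fin_cases j <;> simp [gX, Matrix.mul_apply, Fin.sum_univ_two, hlow.1]
  · refine ⟨G - θ G, TI_sub hG (TI_θ hG), ?_⟩
    rw [map_sub, hlow.2]
    refine Matrix.ext fun i j => ?_
    fin_cases i <;> fin_cases j <;> simp [hlow.1]
  · simp only [Fin.mk_one, Fin.zero_eta, hlow.1]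
    exact (LI V).zero_mem
  · refine ⟨FreeAlgebra.ι ℤ true * G, TI_mul_left hG _, ?_⟩
    rw [map_mul, fev_X, gX_mul, hlow.1]
    rfl

/-- the non-unital subring of constant-free polynomials -/
noncomputable def FA0 : NonUnitalSubring FA :=
  NonUnitalSubring.closure {FreeAlgebra.ι ℤ true, FreeAlgebra.ι ℤ false}

theorem fev_mem_of_mem_FA0 {B : Type u} [Ring B] (x y : B) (S : NonUnitalSubring B)
    (hx : x ∈ S) (hy : y ∈ S) (F : FA) (hF : F ∈ FA0) : fev x y F ∈ S := by
  have h : FA0 ≤ S.comap ((fev x y : FA →+* B) : FA →ₙ+* B) := by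
    unfold FA0
    rw [NonUnitalSubring.closure_le]
    rintro z (rfl | rfl)
    · change fev x y (FreeAlgebra.ι ℤ true) ∈ S
      rw [fev_X]
      exact hx
    · change fev x y (FreeAlgebra.ι ℤ false) ∈ S
      rw [fev_Y]
      exact hy
  exact h hF

theorem exists_FA0 {B : Type u} [Ring B] (x y : B) (z : B)
    (hz : z ∈ NonUnitalSubring.closure {x, y}) : ∃ F ∈ FA0, fev x y F = z := by
  have h : NonUnitalSubring.closure {x, y} ≤ FA0.map ((fev x y : FA →+* B) : FA →ₙ+* B) := by
    rw [NonUnitalSubring.closure_le]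
    rintro z (rfl | rfl)
    · exact ⟨FreeAlgebra.ι ℤ true, NonUnitalSubring.subset_closure (by simp), fev_X _ _⟩
    · exact ⟨FreeAlgebra.ι ℤ false, NonUnitalSubring.subset_closure (by simp), fev_Y _ _⟩
  obtain ⟨F, hF, hFz⟩ := h hz
  exact ⟨F, hF, hFz⟩

theorem icomm_inr {R : Type u} [NonUnitalRing R] (x y : R) (n : ℕ) :
    ((icomm x y n : R) : Unitization ℤ R) = icomm (x : Unitization ℤ R) (y : Unitization ℤ R) n := by
  induction n with
  | zero => rfl
  | succ n ih =>
    rw [icomm, icomm, Unitization.inr_sub, Unitization.inr_mul, Unitization.inr_mul, ih]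

theorem eval_inr {R : Type u} [NonUnitalRing R] (r : ℕ → R) (t : RTerm) :
    ((t.eval r : R) : Unitization ℤ R) = t.eval (fun i => ((r i : R) : Unitization ℤ R)) := by
  induction t with
  | var n => rfl
  | zero => exact Unitization.inr_zero _
  | neg t ih => rw [RTerm.eval, RTerm.eval, Unitization.inr_neg, ih]
  | add s t ihs iht => rw [RTerm.eval, RTerm.eval, Unitization.inr_add, ihs, iht]
  | mul s t ihs iht => rw [RTerm.eval, RTerm.eval, Unitization.inr_mul, ihs, iht]

theorem fev_eval {B : Type u} [Ring B] (x y : B) (F : ℕ → FA) (t : RTerm) :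
    fev x y (t.eval F) = t.eval (fun i => fev x y (F i)) :=
  RTerm.eval_map ((fev x y : FA →+* B) : FA →ₙ+* B) F t

theorem exists_inr_of_mem_FA0 {R : Type u} [NonUnitalRing R] (x y : R) (F : FA) (hF : F ∈ FA0) :
    ∃ r : R, ((r : R) : Unitization ℤ R) = fev (x : Unitization ℤ R) (y : Unitization ℤ R) F := by
  let S : NonUnitalSubring (Unitization ℤ R) :=
    { carrier := Set.range (fun r : R => (r : Unitization ℤ R))
      add_mem' := by
        rintro _ _ ⟨a, rfl⟩ ⟨b, rfl⟩
        exact ⟨a + b, Unitization.inr_add ℤ a b⟩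
      zero_mem' := ⟨0, Unitization.inr_zero ℤ⟩
      neg_mem' := by
        rintro _ ⟨a, rfl⟩
        exact ⟨-a, Unitization.inr_neg ℤ a⟩
      mul_mem' := by
        rintro _ _ ⟨a, rfl⟩ ⟨b, rfl⟩
        exact ⟨a * b, Unitization.inr_mul ℤ a b⟩ }
  have hx : (x : Unitization ℤ R) ∈ S := ⟨x, rfl⟩
  have hy : (y : Unitization ℤ R) ∈ S := ⟨y, rfl⟩
  exact fev_mem_of_mem_FA0 (x : Unitization ℤ R) y S hx hy F hF

/-- If an identity defining `V` is evaluated at constant-free two-variable polynomials, one
obtains a two-variable polynomial vanishing on `V`. -/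
theorem eval_mem_TI {V : RingClass.{u}} {E : Set (RTerm × RTerm)} (hE : DefinedBy V E)
    (e : RTerm × RTerm) (he : e ∈ E) (F : ℕ → FA) (hF : ∀ i, F i ∈ FA0) :
    e.1.eval F - e.2.eval F ∈ TI V := by
  intro R _ hR x y
  have h1 := fun i => exists_inr_of_mem_FA0 x y (F i) (hF i)
  choose r hr using h1
  have h2 : ∀ t : RTerm, fev (x : Unitization ℤ R) (y : Unitization ℤ R) (t.eval F) =
      ((t.eval r : R) : Unitization ℤ R) := by
    intro t
    rw [fev_eval, eval_inr]
    congr 1
    funext i
    exact (hr i).symm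
  rw [map_sub, h2, h2, (hE R).mp hR e he r, sub_self]

theorem mem_of_LI {V : RingClass.{u}} (hV : IsVariety V) (K : Type u) [Field K]
    (φ : P2 →+* K) (hφ : ∀ l ∈ LI V, φ l = 0) : V (D0 K (φ (X 0)) (φ (X 1))) := by
  obtain ⟨E, hE⟩ := hV
  rw [hE]
  intro e he ρ
  have key : ∀ G ∈ TI V, fev (!![0, 1; 0, 0] : Matrix (Fin 2) (Fin 2) K)
      !![φ (X 0), 0; 0, φ (X 1)] G = 0 := by
    intro G hG
    have hcomp : fev (!![0, 1; 0, 0] : Matrix (Fin 2) (Fin 2) K) !![φ (X 0), 0; 0, φ (X 1)] =
        (φ.mapMatrix.toIntAlgHom).comp (fev gX gY) := by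
      apply FreeAlgebra.hom_ext
      funext b
      cases b
      · simp only [Function.comp_apply, AlgHom.comp_apply, fev_Y]
        refine Matrix.ext fun i j => ?_
        fin_cases i <;> fin_cases j <;> simp [gY]
      · simp only [Function.comp_apply, AlgHom.comp_apply, fev_X]
        refine Matrix.ext fun i j => ?_
        fin_cases i <;> fin_cases j <;> simp [gX]
    rw [hcomp]
    refine Matrix.ext fun i j => ?_
    exact hφ _ (entries_mem_LI hG i j)
  have h1 : ∀ i, ∃ F ∈ FA0, fev (!![0, 1; 0, 0] : Matrix (Fin 2) (Fin 2) K)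
      !![φ (X 0), 0; 0, φ (X 1)] F = (ρ i : Matrix (Fin 2) (Fin 2) K) :=
    fun i => exists_FA0 _ _ _ (ρ i).2
  choose F hF hFρ using h1
  have h2 := key _ (eval_mem_TI hE e he F hF)
  rw [map_sub, sub_eq_zero] at h2
  have h3 : ∀ t : RTerm, fev (!![0, 1; 0, 0] : Matrix (Fin 2) (Fin 2) K)
      !![φ (X 0), 0; 0, φ (X 1)] (t.eval F) = ((t.eval ρ : D0 K (φ (X 0)) (φ (X 1))) :
        Matrix (Fin 2) (Fin 2) K) := by
    intro t
    have h3 := RTerm.eval_map ((fev (!![0, 1; 0, 0] : Matrix (Fin 2) (Fin 2) K)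
      !![φ (X 0), 0; 0, φ (X 1)] : FA →+* Matrix (Fin 2) (Fin 2) K) :
        FA →ₙ+* Matrix (Fin 2) (Fin 2) K) F t
    have h4 := RTerm.eval_map (NonUnitalSubringClass.subtype (D0 K (φ (X 0)) (φ (X 1)))) ρ t
    refine h3.trans (Eq.trans ?_ h4.symm)
    congr 1
    funext i
    exact hFρ i
  rw [h3, h3] at h2
  exact Subtype.ext h2

/-- The basic identity `[x,_n y] = Σ_w g(w) w(x, y)`, all words `w` having at least two letters
`x`. -/
def StarId (V : RingClass.{u}) (n : ℕ) (g : List Bool →₀ ℤ) : Prop :=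
  (∀ w : List Bool, w.count true ≤ 1 → g w = 0) ∧
  ∀ (R : Type u) [NonUnitalRing R], V R → ∀ x y : R,
    ((icomm x y n : R) : Unitization ℤ R) = pev (x : Unitization ℤ R) (y : Unitization ℤ R) g

theorem icomm_gen (n : ℕ) : icomm gX gY n = !![0, (X 1 - X 0) ^ n; 0, 0] := by
  induction n with
  | zero => simp [icomm, gX]
  | succ n ih =>
    rw [icomm, ih]
    refine Matrix.ext fun i j => ?_
    fin_cases i <;> fin_cases j <;> simp [gY]
    ring

theorem star_of_mem_LI {V : RingClass.{u}} (n : ℕ)
    (h : ((X 0 : P2) - X 1) ^ n ∈ LI V) : ∃ g, StarId V n g := by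
  obtain ⟨G, hG, hGn⟩ := h
  obtain ⟨g, hg⟩ := exists_coeff
    (icomm (FreeAlgebra.ι ℤ true : FA) (FreeAlgebra.ι ℤ false) n - (-1) ^ n * G)
  have hic : ∀ {B : Type u} [Ring B] (x y : B),
      fev x y (icomm (FreeAlgebra.ι ℤ true : FA) (FreeAlgebra.ι ℤ false) n) = icomm x y n := by
    intro B _ x y
    have := icomm_map ((fev x y : FA →+* B) : FA →ₙ+* B) (FreeAlgebra.ι ℤ true)
      (FreeAlgebra.ι ℤ false) n
    refine this.trans ?_
    congr 1
    · exact fev_X x y
    · exact fev_Y x y
  have hic0 : ∀ {B : Type} [Ring B] (x y : B),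
      fev x y (icomm (FreeAlgebra.ι ℤ true : FA) (FreeAlgebra.ι ℤ false) n) = icomm x y n := by
    intro B _ x y
    have := icomm_map ((fev x y : FA →+* B) : FA →ₙ+* B) (FreeAlgebra.ι ℤ true)
      (FreeAlgebra.ι ℤ false) n
    refine this.trans ?_
    congr 1
    · exact fev_X x y
    · exact fev_Y x y
  refine ⟨g, ?_, ?_⟩
  · apply coeff_eq_zero_of_pev
    rw [← fev_coeff, ← hg, map_sub, map_mul, hGn, hic0, icomm_gen]
    rw [map_pow, map_neg, map_one]
    have hcen : ((-1 : Matrix (Fin 2) (Fin 2) P2)) ^ n * !![0, (X 0 - X 1) ^ n; 0, 0] =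
        (-1 : P2) ^ n • !![0, (X 0 - X 1) ^ n; 0, 0] := by
      rcases Nat.even_or_odd n with h | h
      · simp [h.neg_one_pow]
      · simp [h.neg_one_pow]
    rw [hcen]
    refine Matrix.ext fun i j => ?_
    fin_cases i <;> fin_cases j <;> simp
    rw [← mul_pow]
    ring
  · intro R _ hR x y
    rw [← fev_coeff, ← hg, map_sub, map_mul, hG R hR x y, mul_zero, sub_zero, hic]
    exact icomm_inr x y n

/-- **Dichotomy.** A variety of rings either satisfies a basic identity or contains one of the
finite rings `D0 K α β` with `K` a finite field and `α ≠ β`. -/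
theorem star_or_contains {V : RingClass.{u}} (hV : IsVariety V) :
    (∃ n g, StarId V n g) ∨
    ∃ (K : Type u) (_ : Field K) (_ : Finite K) (α β : K), α ≠ β ∧ V (D0 K α β) := by
  by_cases h : ∃ n : ℕ, ((X 0 : P2) - X 1) ^ n ∈ LI V
  · obtain ⟨n, hn⟩ := h
    obtain ⟨g, hg⟩ := star_of_mem_LI n hn
    exact Or.inl ⟨n, g, hg⟩
  · right
    push Not at h
    obtain ⟨K, _, _, φ, hφ, hne⟩ := exists_finite_field (LI V) _ h
    let ψ : P2 →+* ULift.{u} K := (ULift.ringEquiv.symm : K ≃+* ULift.{u} K).toRingHom.comp φ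
    refine ⟨ULift.{u} K, inferInstance, inferInstance, ψ (X 0), ψ (X 1), ?_, ?_⟩
    · intro heq
      apply hne
      rw [map_sub, sub_eq_zero]
      exact congrArg ULift.down heq
    · apply mem_of_LI hV
      intro l hl
      have := hφ l hl
      change (ULift.ringEquiv.symm : K ≃+* ULift.{u} K) (φ l) = 0
      rw [this, map_zero]

end Pool.Agent.helper9.MNE
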