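import Mathlib
import Pool.Agent.helper9.MNE.Star

/-!
# From the basic identity to a domain
-/

universe u

namespace Pool.Agent.helper9.MNE

section basics

variable {B : Type u} [Ring B]

theorem icomm_add (a b : B) (k m : ℕ) : icomm a b (k + m) = icomm (icomm a b k) b m := by
  induction m with
  | zero => rfl
  | succ m ih => rw [← add_assoc, icomm, icomm, ih]

theorem icomm_mem (I : TwoSidedIdeal B) {a : B} (ha : a ∈ I) (b : B) (k : ℕ) :
    icomm a b k ∈ I := by
  induction k with
  | zero => exact ha
  | succ k ih => exact I.sub_mem (I.mul_mem_right _ _ ih) (I.mul_mem_left _ _ ih)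

theorem pev_eq_zero (a b : B) (g : List Bool →₀ ℤ) (hg : ∀ w : List Bool, w.count true ≤ 1 → g w = 0)
    (h : ∀ w : List Bool, 2 ≤ w.count true → wev a b w = 0) : pev a b g = 0 := by
  unfold pev
  apply Finset.sum_eq_zero
  intro w hw
  have : ¬ w.count true ≤ 1 := fun hc => (Finsupp.mem_support_iff.mp hw) (hg w hc)
  change g w • wev a b w = 0
  rw [h w (by omega), smul_zero]

theorem wev_mem (I : TwoSidedIdeal B) {a : B} (ha : a ∈ I) (b : B) (w : List Bool)
    (hw : 1 ≤ w.count true) : wev a b w ∈ I := by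
  induction w with
  | nil => simp at hw
  | cons c w ih =>
    rw [wev_cons]
    cases c with
    | true => exact I.mul_mem_right _ _ ha
    | false =>
      rw [List.count_cons_of_ne (by decide)] at hw
      exact I.mul_mem_left _ _ (ih hw)

theorem wev_eq_zero_of_sq (I : TwoSidedIdeal B) (hI : ∀ a ∈ I, ∀ b ∈ I, a * b = 0) {a : B}
    (ha : a ∈ I) (b : B) (w : List Bool) (hw : 2 ≤ w.count true) : wev a b w = 0 := by
  induction w with
  | nil => simp at hw
  | cons c w ih =>
    rw [wev_cons]
    cases c with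
    | true =>
      rw [List.count_cons_self] at hw
      exact hI a ha _ (wev_mem I ha b w (by omega))
    | false =>
      rw [List.count_cons_of_ne (by decide)] at hw
      rw [ih hw, mul_zero]

/-- `a² = 0` and `b = r a`: all words with at least two `a`'s vanish. -/
theorem wev_eq_zero_of_sq_elt {a r : B} (ha : a * a = 0) (w : List Bool)
    (hw : 2 ≤ w.count true) : wev a (r * a) w = 0 := by
  have key : ∀ (w : List Bool) (c : Bool), 1 ≤ w.count true →
      (cond c a (r * a)) * wev a (r * a) w = 0 := by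
    intro w
    induction w with
    | nil => intro c hw; simp at hw
    | cons d w ih =>
      intro c hw
      rw [wev_cons]
      cases d with
      | true =>
        rw [cond_true, ← mul_assoc]
        cases c
        · rw [cond_false, mul_assoc r, ha, mul_zero, zero_mul]
        · rw [cond_true, ha, zero_mul]
      | false =>
        rw [List.count_cons_of_ne (by decide)] at hw
        have := ih false hw
        rw [cond_false] at this ⊢
        rw [this, mul_zero]
  cases w with
  | nil => simp at hw
  | cons c w =>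
    rw [wev_cons]
    apply key
    have := List.count_cons (a := true) (b := c) (l := w)
    rw [this] at hw
    split_ifs at hw <;> omega

theorem icomm_sq_elt {a r : B} (ha : a * a = 0) (k : ℕ) :
    icomm a (r * a) k = a * (r * a) ^ k := by
  induction k with
  | zero => simp [icomm]
  | succ k ih =>
    rw [icomm, ih, pow_succ]
    have : r * a * (a * (r * a) ^ k) = 0 := by
      rw [← mul_assoc, mul_assoc r, ha, mul_zero, zero_mul]
    rw [this, sub_zero, mul_assoc]

/-- Levitzki-type lemma. -/
theorem levitzki (hsp : ∀ a : B, (∀ b, a * b * a = 0) → a = 0) (m : ℕ) :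
    ∀ x : B, (∀ r, x * (r * x) ^ m = 0) → x = 0 := by
  induction m with
  | zero => intro x h; simpa using h 0
  | succ m ih =>
    intro x h
    rcases Nat.eq_zero_or_pos m with rfl | hm
    · apply hsp
      intro b
      have := h b
      simpa [mul_assoc] using this
    · by_contra hx
      have h1 : ∃ r, x * r * x ≠ 0 := by
        by_contra hcon
        push Not at hcon
        exact hx (hsp x hcon)
      obtain ⟨r1, hr1⟩ := h1
      classical
      have hex : ∃ k, x * (r1 * x) ^ k = 0 := ⟨m + 1, h r1⟩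
      obtain ⟨k, hk, hkmin⟩ : ∃ k, x * (r1 * x) ^ k = 0 ∧ ∀ j < k, x * (r1 * x) ^ j ≠ 0 :=
        ⟨Nat.find hex, Nat.find_spec hex, fun j hj => Nat.find_min hex hj⟩
      have hk2 : 2 ≤ k := by
        by_contra hlt
        have : k = 0 ∨ k = 1 := by omega
        rcases this with rfl | rfl
        · simp at hk; exact hx hk
        · rw [pow_one, ← mul_assoc] at hk; exact hr1 hk
      obtain ⟨j, rfl⟩ : ∃ j, k = j + 2 := ⟨k - 2, by omega⟩
      set r0 := (r1 * x) ^ j * r1 with hr0
      have hz : x * r0 * x = x * (r1 * x) ^ (j + 1) := by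
        rw [hr0, pow_succ]; simp only [mul_assoc]
      have hz0 : x * r0 * x ≠ 0 := by
        rw [hz]; exact hkmin _ (by omega)
      have hzz : x * (r0 * x) * (r0 * x) = 0 := by
        have : r0 * x = (r1 * x) ^ (j + 1) := by
          rw [hr0, pow_succ]; simp only [mul_assoc]
        rw [this, mul_assoc, ← pow_add]
        have : j + 1 + (j + 1) = (j + 2) + j := by omega
        rw [this, pow_add, ← mul_assoc, hk, zero_mul]
      apply hz0
      apply ih
      intro y
      -- P = r0 x y x, Q = r0 x
      have hexp : ∀ k : ℕ, x * (r0 * x * (y * x) + r0 * x) ^ (k + 1) =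
          x * (r0 * x * (y * x)) ^ (k + 1) + x * (r0 * x * (y * x)) ^ k * (r0 * x) := by
        intro k
        induction k with
        | zero => simp [mul_add]
        | succ k ihk =>
          rw [pow_succ, ← mul_assoc, ihk]
          have hA : ∃ A, x * (r0 * x * (y * x)) ^ k = A * x := by
            cases k with
            | zero => exact ⟨1, by simp⟩
            | succ k => exact ⟨x * (r0 * x * (y * x)) ^ k * (r0 * x * y), by
                rw [pow_succ]; simp only [mul_assoc]⟩
          obtain ⟨A, hA⟩ := hA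
          have h1 : x * (r0 * x * (y * x)) ^ k * (r0 * x) * (r0 * x * (y * x) + r0 * x) = 0 := by
            rw [hA]
            have : A * x * (r0 * x) * (r0 * x * (y * x) + r0 * x) =
                A * (x * (r0 * x) * (r0 * x)) * (y * x) + A * (x * (r0 * x) * (r0 * x)) := by
              rw [mul_add]; simp only [mul_assoc]
            rw [this, hzz]; simp
          rw [add_mul, h1, add_zero, mul_add]
          simp only [pow_succ, mul_assoc]
      have h2 := h (r0 * x * y + r0)
      have h3 : (r0 * x * y + r0) * x = r0 * x * (y * x) + r0 * x := by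
        rw [add_mul]; simp only [mul_assoc]
      rw [h3, hexp] at h2
      have h4 := h (r0 * x * y)
      have h5 : (r0 * x * y) * x = r0 * x * (y * x) := by simp only [mul_assoc]
      rw [h5] at h4
      rw [h4, zero_add] at h2
      have h6 : x * r0 * x * (y * (x * r0 * x)) ^ m =
          x * (r0 * x * (y * x)) ^ m * (r0 * x) := by
        have h7 : y * (x * r0 * x) = (y * x) * (r0 * x) := by simp only [mul_assoc]
        rw [h7, mul_assoc x r0 x, mul_assoc x, ← mul_pow_mul, ← mul_assoc x]
      rw [h6]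
      exact h2

end basics

section domain

variable {B : Type u} [Ring B] (N : TwoSidedIdeal B) (n : ℕ) (g : List Bool →₀ ℤ)
  (hg : ∀ w : List Bool, w.count true ≤ 1 → g w = 0)
  (hstar : ∀ a ∈ N, ∀ b ∈ N, icomm a b n = pev a b g)
  (x y : B) (hx : x ∈ N) (hy : y ∈ N)
  (hne : ∀ k, icomm x y k ≠ 0)
  (hmax : ∀ I : TwoSidedIdeal B, I ≠ ⊥ → ∃ k, icomm x y k ∈ I)

include hg hstar hx hy hne hmax

theorem sq_zero_ideal (I : TwoSidedIdeal B) (hI : ∀ a ∈ I, ∀ b ∈ I, a * b = 0) : I = ⊥ := by
  by_contra hbot
  obtain ⟨k, hk⟩ := hmax I hbot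
  apply hne (k + n)
  rw [icomm_add, hstar _ (icomm_mem N hx y k) _ hy]
  exact pev_eq_zero _ _ _ hg (fun w hw => wev_eq_zero_of_sq I hI hk y w hw)

theorem semiprime_elt (a : B) (ha : ∀ b, a * b * a = 0) : a = 0 := by
  -- J1 = {u | ∀ b, a * b * u = 0}
  let J1 : TwoSidedIdeal B := TwoSidedIdeal.mk' {u | ∀ b, a * b * u = 0}
    (by intro b; simp)
    (by intro u v hu hv b; rw [mul_add, hu b, hv b, add_zero])
    (by intro u hu b; rw [mul_neg, hu b, neg_zero])
    (by intro r u hu b; rw [← mul_assoc, mul_assoc a, hu])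
    (by intro u r hu b; rw [← mul_assoc, hu, zero_mul])
  have h1 : ∀ u ∈ TwoSidedIdeal.span {a}, ∀ b, a * b * u = 0 := by
    intro u hu
    have : TwoSidedIdeal.span {a} ≤ J1 := by
      rw [TwoSidedIdeal.span_le]
      rintro _ rfl
      rw [SetLike.mem_coe, TwoSidedIdeal.mem_mk']
      exact ha
    have := this hu
    rw [TwoSidedIdeal.mem_mk'] at this
    exact this
  let J2 : TwoSidedIdeal B := TwoSidedIdeal.mk' {u | ∀ b, ∀ v ∈ TwoSidedIdeal.span {a}, u * b * v = 0}
    (by intro b v _; simp)
    (by intro u v hu hv b w hw; rw [add_mul, add_mul, hu b w hw, hv b w hw, add_zero])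
    (by intro u hu b w hw; rw [neg_mul, neg_mul, hu b w hw, neg_zero])
    (by intro r u hu b w hw; rw [mul_assoc r, mul_assoc r, hu b w hw, mul_zero])
    (by intro u r hu b w hw; rw [mul_assoc u, hu _ w hw])
  have h2 : TwoSidedIdeal.span {a} ≤ J2 := by
    rw [TwoSidedIdeal.span_le]
    rintro _ rfl
    rw [SetLike.mem_coe, TwoSidedIdeal.mem_mk']
    intro b v hv
    exact h1 v hv b
  have h3 : TwoSidedIdeal.span {a} = ⊥ := by
    apply sq_zero_ideal N n g hg hstar x y hx hy hne hmax
    intro u hu v hv
    have := h2 hu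
    rw [TwoSidedIdeal.mem_mk'] at this
    have := this 1 v hv
    rwa [mul_one] at this
  have h4 : a ∈ TwoSidedIdeal.span {a} := TwoSidedIdeal.subset_span rfl
  rw [h3, TwoSidedIdeal.mem_bot] at h4
  exact h4

theorem reduced_N (a : B) (haN : a ∈ N) (ha : a * a = 0) : a = 0 := by
  apply levitzki (semiprime_elt N n g hg hstar x y hx hy hne hmax) n
  intro r
  rw [← icomm_sq_elt ha, hstar a haN _ (N.mul_mem_left _ _ haN)]
  exact pev_eq_zero _ _ _ hg (fun w hw => wev_eq_zero_of_sq_elt ha w hw)

theorem reduced_B (a : B) (ha : a * a = 0) : a = 0 := by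
  have hred := reduced_N N n g hg hstar x y hx hy hne hmax
  by_contra ha0
  -- a r a = 0 for r in N
  have h1 : ∀ r ∈ N, a * r * a = 0 := by
    intro r hr
    apply hred _ (N.mul_mem_right _ _ (N.mul_mem_left _ _ hr))
    calc a * r * a * (a * r * a) = a * r * (a * a) * r * a := by simp only [mul_assoc]
      _ = 0 := by rw [ha]; simp
  let J1 : TwoSidedIdeal B := TwoSidedIdeal.mk' {u | ∀ z ∈ N, a * z * u = 0}
    (by intro b _; simp)
    (by intro u v hu hv b hb; rw [mul_add, hu b hb, hv b hb, add_zero])
    (by intro u hu b hb; rw [mul_neg, hu b hb, neg_zero])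
    (by intro r u hu b hb; rw [← mul_assoc, mul_assoc a, hu _ (N.mul_mem_right _ _ hb)])
    (by intro u r hu b hb; rw [← mul_assoc, hu b hb, zero_mul])
  have h2 : ∀ u ∈ TwoSidedIdeal.span {a}, ∀ z ∈ N, a * z * u = 0 := by
    intro u hu
    have : TwoSidedIdeal.span {a} ≤ J1 := by
      rw [TwoSidedIdeal.span_le]
      rintro _ rfl
      rw [SetLike.mem_coe, TwoSidedIdeal.mem_mk']
      exact h1
    have := this hu
    rw [TwoSidedIdeal.mem_mk'] at this
    exact this
  let J2 : TwoSidedIdeal B := TwoSidedIdeal.mk'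
    {u | ∀ z ∈ N, ∀ v ∈ TwoSidedIdeal.span {a}, u * z * v = 0}
    (by intro b _ v _; simp)
    (by intro u v hu hv b hb w hw; rw [add_mul, add_mul, hu b hb w hw, hv b hb w hw, add_zero])
    (by intro u hu b hb w hw; rw [neg_mul, neg_mul, hu b hb w hw, neg_zero])
    (by intro r u hu b hb w hw; rw [mul_assoc r, mul_assoc r, hu b hb w hw, mul_zero])
    (by intro u r hu b hb w hw; rw [mul_assoc u, hu _ (N.mul_mem_left _ _ hb) w hw])
  have h3 : TwoSidedIdeal.span {a} ≤ J2 := by
    rw [TwoSidedIdeal.span_le]
    rintro _ rfl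
    rw [SetLike.mem_coe, TwoSidedIdeal.mem_mk']
    intro b hb v hv
    exact h2 v hv b hb
  have h4 : TwoSidedIdeal.span {a} ≠ ⊥ := by
    intro hbot
    have h4 : a ∈ TwoSidedIdeal.span {a} := TwoSidedIdeal.subset_span rfl
    rw [hbot, TwoSidedIdeal.mem_bot] at h4
    exact ha0 h4
  obtain ⟨k, hk⟩ := hmax _ h4
  set w := icomm x y k with hw
  have hwN : w ∈ N := icomm_mem N hx y k
  have h5 : w * w * w = 0 := by
    have := h3 hk
    rw [TwoSidedIdeal.mem_mk'] at this
    exact this w hwN w hk
  have h6 : w * w = 0 := by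
    apply hred _ (N.mul_mem_left _ _ hwN)
    calc w * w * (w * w) = w * w * w * w := by simp only [mul_assoc]
      _ = 0 := by rw [h5, zero_mul]
  exact hne k (hred w hwN h6)

theorem noZeroDivisors_B (a b : B) (hab : a * b = 0) : a = 0 ∨ b = 0 := by
  have hred := reduced_B N n g hg hstar x y hx hy hne hmax
  have hcomm : ∀ a b : B, a * b = 0 → b * a = 0 := by
    intro a b h
    apply hred
    calc b * a * (b * a) = b * (a * b) * a := by simp only [mul_assoc]
      _ = 0 := by rw [h]; simp
  have hmid : ∀ a b r : B, a * b = 0 → a * r * b = 0 := by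
    intro a b r h
    apply hred
    calc a * r * b * (a * r * b) = a * r * (b * a) * r * b := by simp only [mul_assoc]
      _ = 0 := by rw [hcomm a b h]; simp
  let Ann : B → TwoSidedIdeal B := fun a => TwoSidedIdeal.mk' {u | a * u = 0}
    (by simp)
    (by intro u v hu hv; change a * (u + v) = 0; rw [mul_add, hu, hv, add_zero])
    (by intro u hu; change a * (-u) = 0; rw [mul_neg, hu, neg_zero])
    (by intro r u hu; change a * (r * u) = 0; rw [← mul_assoc]; exact hmid a u r hu)
    (by intro u r hu; change a * (u * r) = 0; rw [← mul_assoc, hu, zero_mul])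
  have hAnn : ∀ a u, u ∈ Ann a ↔ a * u = 0 := by
    intro a u
    rw [TwoSidedIdeal.mem_mk']
    rfl
  by_contra hcon
  push Not at hcon
  obtain ⟨ha0, hb0⟩ := hcon
  have h1 : Ann a ≠ ⊥ := by
    intro hbot
    have : b ∈ Ann a := (hAnn a b).mpr hab
    rw [hbot, TwoSidedIdeal.mem_bot] at this
    exact hb0 this
  obtain ⟨k, hk⟩ := hmax _ h1
  rw [hAnn] at hk
  have h2 : Ann (icomm x y k) ≠ ⊥ := by
    intro hbot
    have : a ∈ Ann (icomm x y k) := (hAnn _ _).mpr (hcomm _ _ hk)
    rw [hbot, TwoSidedIdeal.mem_bot] at this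
    exact ha0 this
  obtain ⟨l, hl⟩ := hmax _ h2
  -- w_k w_m = 0 for m ≥ l
  have h3 : icomm x y k * icomm x y (l + k) = 0 := by
    rw [← hAnn, icomm_add]
    exact icomm_mem _ hl y k
  have h4 : icomm x y (l + k) ∈ Ann (icomm x y (l + k)) := by
    have h5 : icomm x y k ∈ Ann (icomm x y (l + k)) := (hAnn _ _).mpr (hcomm _ _ h3)
    have h6 := icomm_mem _ h5 y l
    rw [← icomm_add, add_comm k l] at h6
    exact h6
  rw [hAnn] at h4
  exact hne _ (hred _ h4)

end domain

end Pool.Agent.helper9.MNE
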