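import Mathlib
import Pool.Agent.helper9.MNE.Star

/-!
# Multilinearisation of a two-variable polynomial identity
-/

universe u

namespace Pool.Agent.helper9.MNE

open Finset

section

variable {B : Type u} [Ring B] {d : ℕ}

/-- alternating sum over all `S` containing the range of `f` -/
theorem alt_sum (T : Finset (Fin d)) (hT : T ≠ univ) :
    ∑ S : Finset (Fin d), (if T ⊆ S then ((-1 : ℤ)) ^ S.card else 0) = 0 := by
  obtain ⟨j, hj⟩ : ∃ j, j ∉ T := by
    by_contra hcon
    push Not at hcon
    exact hT (eq_univ_iff_forall.mpr hcon)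
  refine Finset.sum_involution (fun S _ => if j ∈ S then S.erase j else insert j S) ?_ ?_
    (fun _ _ => Finset.mem_univ _) ?_
  · intro S _
    by_cases hjS : j ∈ S
    · simp only [hjS, if_true]
      have h1 : T ⊆ S.erase j ↔ T ⊆ S := by
        constructor
        · exact fun h => h.trans (erase_subset _ _)
        · intro h t ht
          rw [mem_erase]
          exact ⟨fun h' => hj (h' ▸ ht), h ht⟩
      simp only [h1]
      by_cases hTS : T ⊆ S
      · simp only [hTS, if_true]
        rw [← card_erase_add_one hjS, pow_succ]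
        ring
      · simp [hTS]
    · simp only [hjS, if_false]
      have h1 : T ⊆ insert j S ↔ T ⊆ S := by
        constructor
        · intro h t ht
          rcases mem_insert.mp (h ht) with h' | h'
          · exact absurd (h' ▸ ht) hj
          · exact h'
        · exact fun h => h.trans (subset_insert _ _)
      simp only [h1]
      by_cases hTS : T ⊆ S
      · simp only [hTS, if_true]
        rw [card_insert_of_notMem hjS, pow_succ]
        ring
      · simp [hTS]
  · intro S _ hne heq
    by_cases hjS : j ∈ S
    · simp only [hjS, if_true] at heq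
      have : j ∈ S.erase j := by rw [heq]; exact hjS
      simp at this
    · simp only [hjS, if_false] at heq
      exact hjS (heq ▸ mem_insert_self j S)
  · intro S _
    by_cases hjS : j ∈ S
    · simp [hjS]
    · simp [hjS]

theorem alt_sum_univ :
    ∑ S : Finset (Fin d), (if (univ : Finset (Fin d)) ⊆ S then ((-1 : ℤ)) ^ S.card else 0) =
      (-1) ^ d := by
  rw [Finset.sum_eq_single (univ : Finset (Fin d))]
  · simp
  · intro S _ hS
    rw [if_neg]
    intro h
    exact hS (Finset.eq_univ_iff_forall.mpr (fun j => h (mem_univ j)))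
  · simp

/-- expansion of a word evaluated at partial sums -/
theorem wev_expand (ε : Fin d → Bool) (z : Fin d → B) (S : Finset (Fin d)) (l : ℕ)
    (w : Fin l → Bool) :
    wev (∑ j ∈ S, if ε j = true then z j else 0) (∑ j ∈ S, if ε j = false then z j else 0)
      (List.ofFn w) =
    ∑ f : Fin l → Fin d, if (∀ i, ε (f i) = w i) ∧ univ.image f ⊆ S then
      (List.ofFn (fun i => z (f i))).prod else 0 := by
  unfold wev
  rw [List.map_ofFn]
  have h1 : ((fun b => cond b (∑ j ∈ S, if ε j = true then z j else 0)
      (∑ j ∈ S, if ε j = false then z j else 0)) ∘ w) =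
      fun i => ∑ j : Fin d, if ε j = w i ∧ j ∈ S then z j else 0 := by
    funext i
    simp only [Function.comp_apply]
    have : ∀ b : Bool, (∑ j : Fin d, if ε j = b ∧ j ∈ S then z j else 0) =
        ∑ j ∈ S, if ε j = b then z j else 0 := by
      intro b
      rw [← Finset.sum_filter, ← Finset.sum_filter]
      apply Finset.sum_congr _ (fun _ _ => rfl)
      ext j
      simp [and_comm]
    rw [this]
    cases w i <;> rfl
  rw [h1]
  have h2 := (MultilinearMap.mkPiAlgebraFin ℤ l B).map_sum
    (fun (i : Fin l) (j : Fin d) => if ε j = w i ∧ j ∈ S then z j else 0)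
  simp only [MultilinearMap.mkPiAlgebraFin_apply] at h2
  rw [h2]
  apply Finset.sum_congr rfl
  intro f _
  by_cases hf : (∀ i, ε (f i) = w i) ∧ univ.image f ⊆ S
  · rw [if_pos hf]
    congr 2
    funext i
    rw [if_pos]
    exact ⟨hf.1 i, hf.2 (mem_image_of_mem f (mem_univ i))⟩
  · rw [if_neg hf]
    have : ∃ i, ¬ (ε (f i) = w i ∧ f i ∈ S) := by
      by_contra hcon
      push Not at hcon
      apply hf
      refine ⟨fun i => (hcon i).1, ?_⟩
      intro j hj
      obtain ⟨i, _, rfl⟩ := mem_image.mp hj
      exact (hcon i).2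
    obtain ⟨i, hi⟩ := this
    apply List.prod_eq_zero
    rw [List.mem_ofFn]
    exact ⟨i, if_neg hi⟩

/-- The alternating sum of the values of a word. -/
theorem wev_alt (ε : Fin d → Bool) (z : Fin d → B) (w : List Bool) (hw : w.length ≤ d) :
    ∑ S : Finset (Fin d), ((-1 : ℤ)) ^ S.card •
      wev (∑ j ∈ S, if ε j = true then z j else 0) (∑ j ∈ S, if ε j = false then z j else 0) w =
    ∑ σ : Equiv.Perm (Fin d), if w = List.ofFn (fun i => ε (σ i)) then
      ((-1 : ℤ)) ^ d • (List.ofFn (fun i => z (σ i))).prod else 0 := by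
  obtain ⟨l, w', rfl⟩ : ∃ l, ∃ w' : Fin l → Bool, w = List.ofFn w' :=
    ⟨w.length, w.get, (List.ofFn_get w).symm⟩
  rw [List.length_ofFn] at hw
  simp only [wev_expand]
  have h1 : ∀ S : Finset (Fin d), ((-1 : ℤ)) ^ S.card •
      (∑ f : Fin l → Fin d, if (∀ i, ε (f i) = w' i) ∧ univ.image f ⊆ S then
      (List.ofFn (fun i => z (f i))).prod else 0) =
      ∑ f : Fin l → Fin d, if (∀ i, ε (f i) = w' i) then
        (if univ.image f ⊆ S then ((-1 : ℤ)) ^ S.card else 0) •
          (List.ofFn (fun i => z (f i))).prod else 0 := by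
    intro S
    rw [Finset.smul_sum]
    apply Finset.sum_congr rfl
    intro f _
    by_cases ha : ∀ i, ε (f i) = w' i
    · by_cases hb : univ.image f ⊆ S
      · simp [ha, hb]
      · simp [hb]
    · simp [ha]
  simp only [h1]
  rw [Finset.sum_comm]
  have h2 : ∀ f : Fin l → Fin d, (∑ S : Finset (Fin d), if (∀ i, ε (f i) = w' i) then
        (if univ.image f ⊆ S then ((-1 : ℤ)) ^ S.card else 0) •
          (List.ofFn (fun i => z (f i))).prod else 0) =
      if (∀ i, ε (f i) = w' i) ∧ univ.image f = univ then
        ((-1 : ℤ)) ^ d • (List.ofFn (fun i => z (f i))).prod else 0 := by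
    intro f
    by_cases ha : ∀ i, ε (f i) = w' i
    · have h3 : ∀ S : Finset (Fin d), (if (∀ i, ε (f i) = w' i) then
        (if univ.image f ⊆ S then ((-1 : ℤ)) ^ S.card else 0) •
          (List.ofFn (fun i => z (f i))).prod else 0) =
          (if univ.image f ⊆ S then ((-1 : ℤ)) ^ S.card else 0) •
          (List.ofFn (fun i => z (f i))).prod := fun S => if_pos ha
      simp only [h3]
      rw [← Finset.sum_smul]
      by_cases hb : univ.image f = univ
      · rw [hb, alt_sum_univ, if_pos ⟨ha, rfl⟩]
      · rw [alt_sum _ hb, zero_smul, if_neg (fun h => hb h.2)]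
    · rw [if_neg (fun h => ha h.1)]
      apply Finset.sum_eq_zero
      intro S _
      rw [if_neg ha]
  simp only [h2]
  rcases Nat.lt_or_ge l d with hlt | hge
  · rw [Finset.sum_eq_zero, Finset.sum_eq_zero]
    · intro σ _
      rw [if_neg]
      intro heq
      have := congrArg List.length heq
      simp at this
      omega
    · intro f _
      rw [if_neg]
      rintro ⟨_, hf⟩
      have h4 := congrArg Finset.card hf
      have h5 : (univ.image f).card ≤ l := by
        refine le_trans Finset.card_image_le ?_
        simp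
      rw [h4] at h5
      simp at h5
      omega
  · have hld : l = d := le_antisymm hw hge
    subst hld
    symm
    apply Finset.sum_of_injOn (fun σ : Equiv.Perm (Fin l) => (σ : Fin l → Fin l))
    · intro σ _ τ _ h
      exact Equiv.coe_fn_injective h
    · intro σ _
      simp
    · intro f _ hf
      rw [if_neg]
      rintro ⟨_, h⟩
      apply hf
      have hsurj : Function.Surjective f := by
        intro j
        have : j ∈ univ.image f := by rw [h]; exact mem_univ j
        obtain ⟨i, _, hi⟩ := mem_image.mp this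
        exact ⟨i, hi⟩
      have hbij : Function.Bijective f := Finite.surjective_iff_bijective.mp hsurj
      exact ⟨Equiv.ofBijective f hbij, by simp, rfl⟩
    · intro σ _
      have h6 : univ.image (σ : Fin l → Fin l) = univ := Finset.image_univ_equiv σ
      have h7 : (List.ofFn w' = List.ofFn (fun i => ε (σ i))) ↔ ∀ i, ε (σ i) = w' i := by
        rw [List.ofFn_inj]
        constructor
        · intro h i; rw [h]
        · intro h; funext i; exact (h i).symm
      by_cases ha : ∀ i, ε (σ i) = w' i
      · rw [if_pos (h7.mpr ha), if_pos ⟨ha, h6⟩]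
      · rw [if_neg (fun h => ha (h7.mp h)), if_neg (fun h => ha h.1)]

/-- **Multilinearisation.** -/
theorem multilin (N : TwoSidedIdeal B) (φ : List Bool →₀ ℤ)
    (hφ : ∀ a ∈ N, ∀ b ∈ N, pev a b φ = 0)
    (hd : ∀ w : List Bool, d < w.length → ((φ w : ℤ) : B) = 0)
    (ε : Fin d → Bool) (z : Fin d → B) (hz : ∀ i, z i ∈ N) :
    ∑ σ : Equiv.Perm (Fin d), (φ (List.ofFn (fun i => ε (σ i)))) •
      (List.ofFn (fun i => z (σ i))).prod = 0 := by
  have hsumN : ∀ (S : Finset (Fin d)) (b : Bool), (∑ j ∈ S, if ε j = b then z j else 0) ∈ N := by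
    intro S b
    apply sum_mem
    intro j _
    split_ifs
    · exact hz j
    · exact N.zero_mem
  have h1 : ∑ S : Finset (Fin d), ((-1 : ℤ)) ^ S.card •
      pev (∑ j ∈ S, if ε j = true then z j else 0) (∑ j ∈ S, if ε j = false then z j else 0) φ
      = 0 := by
    apply Finset.sum_eq_zero
    intro S _
    rw [hφ _ (hsumN S true) _ (hsumN S false), smul_zero]
  unfold pev Finsupp.sum at h1
  simp only [Finset.smul_sum] at h1
  rw [Finset.sum_comm] at h1
  have h2 : ∀ w ∈ φ.support, (∑ S : Finset (Fin d), ((-1 : ℤ)) ^ S.card • (φ w •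
      wev (∑ j ∈ S, if ε j = true then z j else 0)
        (∑ j ∈ S, if ε j = false then z j else 0) w)) =
      φ w • ∑ σ : Equiv.Perm (Fin d), if w = List.ofFn (fun i => ε (σ i)) then
      ((-1 : ℤ)) ^ d • (List.ofFn (fun i => z (σ i))).prod else 0 := by
    intro w _
    rcases Nat.lt_or_ge d w.length with hlt | hge
    · have hzero : ∀ b : B, φ w • b = 0 := by
        intro b
        rw [zsmul_eq_mul, hd w hlt, zero_mul]
      simp only [hzero, smul_zero, Finset.sum_const_zero]
    · rw [← wev_alt ε z w hge, Finset.smul_sum]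
      apply Finset.sum_congr rfl
      intro S _
      rw [smul_comm]
  rw [Finset.sum_congr rfl h2] at h1
  simp only [Finset.smul_sum] at h1
  rw [Finset.sum_comm] at h1
  have h3 : ∀ σ : Equiv.Perm (Fin d), (∑ w ∈ φ.support, φ w •
      if w = List.ofFn (fun i => ε (σ i)) then
      ((-1 : ℤ)) ^ d • (List.ofFn (fun i => z (σ i))).prod else 0) =
      ((-1 : ℤ)) ^ d • ((φ (List.ofFn (fun i => ε (σ i)))) •
        (List.ofFn (fun i => z (σ i))).prod) := by
    intro σ
    rw [Finset.sum_eq_single (List.ofFn (fun i => ε (σ i)))]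
    · rw [if_pos rfl, smul_comm]
    · intro w _ hw
      rw [if_neg hw, smul_zero]
    · intro hw
      rw [Finsupp.notMem_support_iff.mp hw, zero_smul]
  simp only [h3] at h1
  rw [← Finset.smul_sum] at h1
  have h4 := congrArg (fun b : B => ((-1 : ℤ)) ^ d • b) h1
  simp only [smul_zero, smul_smul, ← mul_pow] at h4
  simpa using h4

end

end Pool.Agent.helper9.MNE
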