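import Mathlib
import Pool.Agent.helper9.MNE.Star

/-!
# Polynomial identities in a domain: the Ore condition
-/

universe u

namespace Pool.Agent.helper9.MNE

/-- coefficients of `[x,_n y]` -/
noncomputable def icoef : ℕ → (List Bool →₀ ℤ)
  | 0 => Finsupp.single [true] 1
  | n + 1 => (icoef n).mapDomain (fun w => w ++ [false]) - (icoef n).mapDomain (List.cons false)

section
variable {B : Type u} [Ring B]

theorem wev_append (x y : B) (w w' : List Bool) : wev x y (w ++ w') = wev x y w * wev x y w' := by
  simp [wev]

theorem pev_sub (x y : B) (g h : List Bool →₀ ℤ) : pev x y (g - h) = pev x y g - pev x y h := by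
  unfold pev
  rw [Finsupp.sum_sub_index]
  intro w a b
  rw [sub_smul]

theorem pev_add (x y : B) (g h : List Bool →₀ ℤ) : pev x y (g + h) = pev x y g + pev x y h := by
  unfold pev
  rw [Finsupp.sum_add_index']
  · intro w; rw [zero_smul]
  · intro w a b; rw [add_smul]

theorem pev_single (x y : B) (w : List Bool) (c : ℤ) :
    pev x y (Finsupp.single w c) = c • wev x y w := by
  unfold pev
  rw [Finsupp.sum_single_index]
  rw [zero_smul]

theorem pev_snoc (x y : B) (g : List Bool →₀ ℤ) (b : Bool) :
    pev x y (g.mapDomain (fun w => w ++ [b])) = pev x y g * (cond b x y) := by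
  unfold pev
  rw [Finsupp.sum_mapDomain_index (by intro; rw [zero_smul]) (by intros; rw [add_smul]),
    Finsupp.sum_mul]
  apply Finsupp.sum_congr
  intro w _
  rw [wev_append, smul_mul_assoc, wev_cons, wev_nil, mul_one]

theorem pev_cons (x y : B) (g : List Bool →₀ ℤ) (b : Bool) :
    pev x y (g.mapDomain (List.cons b)) = (cond b x y) * pev x y g := by
  unfold pev
  rw [Finsupp.sum_mapDomain_index (by intro; rw [zero_smul]) (by intros; rw [add_smul]),
    Finsupp.mul_sum]
  apply Finsupp.sum_congr
  intro w _
  rw [wev_cons, mul_smul_comm]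

theorem icomm_eq_pev (x y : B) (n : ℕ) : icomm x y n = pev x y (icoef n) := by
  induction n with
  | zero => simp [icomm, icoef, pev_single, wev]
  | succ n ih =>
    rw [icomm, icoef, pev_sub, pev_snoc, pev_cons, ih]
    simp

end

theorem icoef_apply (n : ℕ) : icoef n (List.replicate n false ++ [true]) = (-1) ^ n := by
  induction n with
  | zero => simp [icoef]
  | succ n ih =>
    rw [icoef, Finsupp.sub_apply]
    rw [Finsupp.mapDomain_of_notMem_range]
    · rw [List.replicate_succ, List.cons_append, Finsupp.mapDomain_apply List.cons_injective, ih,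
        pow_succ]
      ring
    · rintro ⟨w, hw⟩
      have := congrArg List.getLast? hw
      simp at this

/-- evaluation of a coefficient function on words of length at most `L`, peeling off last
letters -/
def evL {B : Type u} [Ring B] (u v : B) : ℕ → (List Bool → ℤ) → B
  | 0, f => (f [] : B)
  | L + 1, f => (f [] : B) + evL u v L (fun w => f (w ++ [true])) * u +
      evL u v L (fun w => f (w ++ [false])) * v

section
variable {B : Type u} [Ring B]

theorem evL_zero (u v : B) (L : ℕ) : evL u v L (fun _ => 0) = 0 := by
  induction L with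
  | zero => simp [evL]
  | succ L ih => simp [evL, ih]

theorem evL_add (u v : B) (L : ℕ) (f h : List Bool → ℤ) :
    evL u v L (fun w => f w + h w) = evL u v L f + evL u v L h := by
  induction L generalizing f h with
  | zero => simp [evL]
  | succ L ih =>
    simp only [evL, ih, add_mul, Int.cast_add]
    abel

theorem evL_single (u v : B) (L : ℕ) (w : List Bool) (hw : w.length ≤ L) (c : ℤ) :
    evL u v L (fun w' => if w' = w then c else 0) = c • wev u v w := by
  induction L generalizing w with
  | zero =>
    have : w = [] := List.eq_nil_of_length_eq_zero (by omega)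
    subst this
    simp [evL, wev]
  | succ L ih =>
    rcases List.eq_nil_or_concat w with rfl | ⟨w', b, rfl⟩
    · have h1 : ∀ b : Bool, (fun w : List Bool => if w ++ [b] = [] then c else 0) = fun _ => 0 := by
        intro b
        funext w
        simp
      simp only [evL, h1, evL_zero]
      simp [wev]
    · rw [List.concat_eq_append] at hw ⊢
      rw [List.length_append] at hw
      simp only [evL]
      have h0 : (if ([] : List Bool) = w' ++ [b] then c else 0) = 0 := by simp
      rw [h0]
      cases b with
      | true =>
        have h1 : (fun w : List Bool => if w ++ [true] = w' ++ [true] then c else 0) =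
            fun w => if w = w' then c else 0 := by
          funext w; simp
        have h2 : (fun w : List Bool => if w ++ [false] = w' ++ [true] then c else 0) =
            fun w => 0 := by
          funext w; simp
        rw [h1, h2, evL_zero, ih w' (by simp at hw; omega), wev_append]
        simp [wev, mul_assoc]
      | false =>
        have h1 : (fun w : List Bool => if w ++ [false] = w' ++ [false] then c else 0) =
            fun w => if w = w' then c else 0 := by
          funext w; simp
        have h2 : (fun w : List Bool => if w ++ [true] = w' ++ [false] then c else 0) =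
            fun w => 0 := by
          funext w; simp
        rw [h1, h2, evL_zero, ih w' (by simp at hw; omega), wev_append]
        simp [wev, mul_assoc]

theorem evL_eq_pev (u v : B) (φ : List Bool →₀ ℤ) :
    ∃ L0, ∀ L ≥ L0, evL u v L φ = pev u v φ := by
  induction φ using Finsupp.induction_linear with
  | zero =>
    refine ⟨0, fun L _ => ?_⟩
    have : ((0 : List Bool →₀ ℤ) : List Bool → ℤ) = fun _ => 0 := rfl
    rw [this, evL_zero]
    simp [pev]
  | add f h hf hh =>
    obtain ⟨L1, h1⟩ := hf
    obtain ⟨L2, h2⟩ := hh
    refine ⟨max L1 L2, fun L hL => ?_⟩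
    have : ((f + h : List Bool →₀ ℤ) : List Bool → ℤ) = fun w => f w + h w := rfl
    rw [this, evL_add, h1 L (by omega), h2 L (by omega), pev_add]
  | single w c =>
    refine ⟨w.length, fun L hL => ?_⟩
    have : ((Finsupp.single w c : List Bool →₀ ℤ) : List Bool → ℤ) =
        fun w' => if w' = w then c else 0 := by
      funext w'
      rw [Finsupp.single_apply]
      simp [eq_comm]
    rw [this, evL_single u v L w hL, pev_single]

/-- If `B a ∩ B b = 0` in a domain, then `a a` and `b a` generate a free ring. -/
theorem evL_indep [NoZeroDivisors B] (a b : B) (ha : a ≠ 0)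
    (hab : ∀ p q : B, p * a = q * b → p = 0 ∧ q = 0) (L : ℕ) :
    ∀ f : List Bool → ℤ, evL (a * a) (b * a) L f = 0 → ∀ w : List Bool, w.length ≤ L →
      ((f w : ℤ) : B) = 0 := by
  induction L with
  | zero =>
    intro f hf w hw
    have : w = [] := List.eq_nil_of_length_eq_zero (by omega)
    subst this
    exact hf
  | succ L ih =>
    intro f hf w hw
    rw [evL] at hf
    set P := evL (a * a) (b * a) L (fun w => f (w ++ [true])) with hP
    set Q := evL (a * a) (b * a) L (fun w => f (w ++ [false])) with hQ
    have h1 : (f [] : B) + (P * a + Q * b) * a = 0 := by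
      rw [← hf]
      noncomm_ring
    have hc : ((f [] : ℤ) : B) = 0 := by
      have h2 : (b * (P * a + Q * b)) * a = (-(f [] : B)) * b := by
        have h3 : (P * a + Q * b) * a = -(f [] : B) := by
          rw [eq_neg_iff_add_eq_zero, add_comm]; exact h1
        rw [mul_assoc, h3, mul_neg, neg_mul, neg_inj]
        exact (Int.cast_commute (f []) b).symm.eq
      have := (hab _ _ h2).2
      rwa [neg_eq_zero] at this
    rw [hc, zero_add] at h1
    have h4 : P * a + Q * b = 0 := by
      rcases mul_eq_zero.mp h1 with h | h
      · exact h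
      · exact absurd h ha
    have h5 : P * a = (-Q) * b := by
      rw [neg_mul, eq_neg_iff_add_eq_zero]; exact h4
    obtain ⟨hP0, hQ0⟩ := hab _ _ h5
    rw [neg_eq_zero] at hQ0
    rcases List.eq_nil_or_concat w with rfl | ⟨w', c, rfl⟩
    · exact hc
    · rw [List.concat_eq_append] at hw ⊢
      rw [List.length_append] at hw
      cases c with
      | true => exact ih _ hP0 w' (by simp at hw; omega)
      | false => exact ih _ hQ0 w' (by simp at hw; omega)

theorem pev_indep [NoZeroDivisors B] (a b : B) (ha : a ≠ 0)
    (hab : ∀ p q : B, p * a = q * b → p = 0 ∧ q = 0) (φ : List Bool →₀ ℤ)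
    (hφ : pev (a * a) (b * a) φ = 0) (w : List Bool) : ((φ w : ℤ) : B) = 0 := by
  obtain ⟨L0, hL0⟩ := evL_eq_pev (a * a) (b * a) φ
  have h1 := hL0 (max L0 w.length) (le_max_left _ _)
  rw [hφ] at h1
  exact evL_indep a b ha hab _ φ h1 w (le_max_right _ _)

/-- **Ore condition.** -/
theorem ore_condition [NoZeroDivisors B] (N : TwoSidedIdeal B) (hN : N ≠ ⊥)
    (φ : List Bool →₀ ℤ) (hφ : ∀ a ∈ N, ∀ b ∈ N, pev a b φ = 0) (w0 : List Bool)
    (hw0 : ((φ w0 : ℤ) : B) ≠ 0) (a b : B) (ha : a ≠ 0) (hb : b ≠ 0) :
    ∃ p q : B, p ≠ 0 ∧ p * a = q * b := by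
  by_contra hcon
  push Not at hcon
  have hz : ∃ z ∈ N, z ≠ 0 := by
    by_contra h
    push Not at h
    apply hN
    rw [eq_bot_iff]
    intro z hz
    rw [TwoSidedIdeal.mem_bot]
    exact h z hz
  obtain ⟨z, hzN, hz0⟩ := hz
  have hab : ∀ p q : B, p * (z * a) = q * (z * b) → p = 0 ∧ q = 0 := by
    intro p q h
    rw [← mul_assoc, ← mul_assoc] at h
    have hp : p * z = 0 := by
      by_contra hpz
      exact hcon _ _ hpz h
    rw [hp, zero_mul] at h
    have hq : q * z = 0 := by
      rcases mul_eq_zero.mp h.symm with h' | h'
      · exact h'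
      · exact absurd h' hb
    refine ⟨?_, ?_⟩
    · rcases mul_eq_zero.mp hp with h' | h'
      · exact h'
      · exact absurd h' hz0
    · rcases mul_eq_zero.mp hq with h' | h'
      · exact h'
      · exact absurd h' hz0
  apply hw0
  refine pev_indep (z * a) (z * b) (mul_ne_zero hz0 ha) hab φ (hφ _ ?_ _ ?_) w0
  · exact N.mul_mem_right _ _ (N.mul_mem_right _ _ hzN)
  · exact N.mul_mem_right _ _ (N.mul_mem_right _ _ hzN)

end

end Pool.Agent.helper9.MNE
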