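import Mathlib
import Pool.Agent.helper9.MNE.Domain
import Pool.Agent.helper9.MNE.Ore
import Pool.Agent.helper9.MNE.Multilin
import Pool.Agent.helper9.MNE.Density

/-!
# No noncommutative domain of the special kind satisfies the basic identity
-/

universe u

namespace Pool.Agent.helper9.MNE

open Finset Polynomial

section

variable {D : Type u} [DivisionRing D]

/-- `x ↦ [x,_n Y]` is a generalised linear map. -/
theorem icomm_gpi (Y : D) (n : ℕ) : ∃ (ι : Type) (_ : Fintype ι) (a b : ι → D),
    ∀ x : D, icomm x Y n = ∑ j, a j * x * b j := by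
  induction n with
  | zero => exact ⟨Unit, inferInstance, fun _ => 1, fun _ => 1, fun x => by simp [icomm]⟩
  | succ n ih =>
    obtain ⟨ι, _, a, b, h⟩ := ih
    refine ⟨ι ⊕ ι, inferInstance, Sum.elim a (fun j => -(Y * a j)),
      Sum.elim (fun j => b j * Y) b, fun x => ?_⟩
    rw [icomm, h, Fintype.sum_sum_type, Finset.sum_mul, Finset.mul_sum, sub_eq_add_neg,
      ← Finset.sum_neg_distrib]
    congr 1
    · apply Finset.sum_congr rfl
      intro j _
      simp [mul_assoc]
    · apply Finset.sum_congr rfl
      intro j _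
      simp [mul_assoc]

theorem wev_central (c : D) (hc : ∀ x : D, c * x = x * c) (X Y : D) (w : List Bool) :
    wev (c * X) Y w = c ^ w.count true * wev X Y w := by
  induction w with
  | nil => simp [wev]
  | cons b w ih =>
    rw [wev_cons, wev_cons, ih]
    have hcp : ∀ (k : ℕ) (x : D), c ^ k * x = x * c ^ k := by
      intro k x
      exact (Commute.pow_left (hc x) k).eq
    cases b with
    | true =>
      simp only [cond_true, List.count_cons_self]
      rw [pow_succ', mul_assoc, mul_assoc, ← mul_assoc X, ← hcp _ X]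
      simp only [mul_assoc]
    | false =>
      rw [List.count_cons_of_ne (by decide)]
      simp only [cond_false]
      rw [← mul_assoc, ← hcp _ Y, mul_assoc]

theorem icomm_central (c : D) (hc : ∀ x : D, c * x = x * c) (X Y : D) (n : ℕ) :
    icomm (c * X) Y n = c * icomm X Y n := by
  induction n with
  | zero => rfl
  | succ n ih =>
    rw [icomm, icomm, ih, mul_sub, mul_assoc, ← mul_assoc Y, ← hc Y, mul_assoc]

/-- Vandermonde argument. -/
theorem vandermonde (g : List Bool →₀ ℤ) (hg : ∀ w : List Bool, w.count true ≤ 1 → g w = 0)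
    (m : ℕ) (hm : ∀ w ∈ g.support, w.count true ≤ m) (hm1 : 1 ≤ m)
    (t : Finset (Subring.center D)) (ht : m < t.card) (W X Y : D)
    (h : ∀ c ∈ t, (c : D) * W = pev ((c : D) * X) Y g) : W = 0 := by
  have hcen : ∀ c : Subring.center D, ∀ x : D, (c : D) * x = x * c := by
    intro c x
    exact ((Subring.mem_center_iff.mp c.2) x).symm
  by_contra hW
  obtain ⟨l, hl⟩ : ∃ l : Module.Dual (Subring.center D) D, l W ≠ 0 := by
    by_contra hcon
    push Not at hcon
    exact hW ((Module.forall_dual_apply_eq_zero_iff _ W).mp hcon)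
  set p : (Subring.center D)[X] := C (l W) * Polynomial.X -
    ∑ w ∈ g.support, C ((g w : Subring.center D) * l (wev X Y w)) * Polynomial.X ^ (w.count true)
    with hp
  have hcoeff : p.coeff 1 = l W := by
    rw [hp, coeff_sub, coeff_C_mul, coeff_X_one, mul_one, finsetSum_coeff, Finset.sum_eq_zero,
      sub_zero]
    intro w hw
    rw [coeff_C_mul, coeff_X_pow, if_neg, mul_zero]
    intro h1
    exact (Finsupp.mem_support_iff.mp hw) (hg w (by omega))
  have hp0 : p ≠ 0 := by
    intro h0
    rw [h0] at hcoeff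
    exact hl hcoeff.symm
  have hdeg : p.natDegree ≤ m := by
    rw [hp]
    refine (natDegree_sub_le _ _).trans (max_le ?_ ?_)
    · exact (natDegree_C_mul_le _ _).trans (natDegree_X_le.trans hm1)
    · apply natDegree_sum_le_of_forall_le
      intro w hw
      exact (natDegree_C_mul_le _ _).trans (by rw [natDegree_X_pow]; exact hm w hw)
  have hroot : ∀ c ∈ t, p.eval c = 0 := by
    intro c hc
    have h1 := congrArg l (h c hc)
    have h2 : (c : D) * W = c • W := rfl
    rw [h2, map_smul, pev, Finsupp.sum, map_sum] at h1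
    rw [hp, eval_sub, eval_mul, eval_C, eval_X, eval_finsetSum, sub_eq_zero, mul_comm]
    refine Eq.trans h1 ?_
    apply Finset.sum_congr rfl
    intro w _
    rw [wev_central (c : D) (hcen c), eval_mul, eval_C, eval_pow, eval_X]
    have h3 : (g w) • ((c : D) ^ w.count true * wev X Y w) =
        ((g w : Subring.center D) * c ^ w.count true) • wev X Y w := by
      rw [zsmul_eq_mul]
      change _ = (((g w : Subring.center D) * c ^ w.count true : Subring.center D) : D) * _
      push_cast
      rw [mul_assoc]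
    rw [h3, map_smul, smul_eq_mul]
    ring
  have := Polynomial.card_le_degree_of_subset_roots (p := p) (Z := t) (by
    intro c hc
    rw [mem_roots hp0]
    exact hroot c hc)
  omega

end

section final

variable {B : Type u} [Ring B] {D : Type u} [DivisionRing D] (ι : B →+* D)
  (hι : Function.Injective ι) (N : TwoSidedIdeal B)
  (hden : ∀ x : D, ∃ s ∈ N, s ≠ 0 ∧ ∃ t ∈ N, ι s * x = ι t)

include hι hden

theorem common_den (hN : ∃ z ∈ N, z ≠ 0) [NoZeroDivisors B] (t : Finset (Subring.center D)) :
    ∃ s ∈ N, s ≠ 0 ∧ ∀ c ∈ t, ∃ s' ∈ N, (c : D) * ι s = ι s' := by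
  classical
  induction t using Finset.induction_on with
  | empty =>
    obtain ⟨z, hz, hz0⟩ := hN
    exact ⟨z, hz, hz0, by simp⟩
  | insert c t _ ih =>
    obtain ⟨s, hs, hs0, hst⟩ := ih
    obtain ⟨r, hr, hr0, u', hu', hru⟩ := hden (c : D)
    refine ⟨r * s, N.mul_mem_right _ _ hr, mul_ne_zero hr0 hs0, ?_⟩
    intro c' hc'
    have hcen : ∀ c : Subring.center D, ∀ x : D, (c : D) * x = x * c := by
      intro c x
      exact ((Subring.mem_center_iff.mp c.2) x).symm
    rcases Finset.mem_insert.mp hc' with rfl | hc'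
    · refine ⟨u' * s, N.mul_mem_right _ _ hu', ?_⟩
      rw [map_mul, map_mul, ← mul_assoc, hcen, hru]
    · obtain ⟨s', hs', hs's⟩ := hst c' hc'
      refine ⟨r * s', N.mul_mem_left _ _ hs', ?_⟩
      rw [map_mul, map_mul, ← mul_assoc, hcen, mul_assoc, hs's]

theorem icomm_zero_of_infinite [NoZeroDivisors B] (hinf : Infinite (Subring.center D))
    (n : ℕ) (g : List Bool →₀ ℤ) (hg : ∀ w : List Bool, w.count true ≤ 1 → g w = 0)
    (hstar : ∀ a ∈ N, ∀ b ∈ N, icomm a b n = pev a b g) (hN : ∃ z ∈ N, z ≠ 0)
    (y : B) (hy : y ∈ N) (x : D) : icomm x (ι y) n = 0 := by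
  set m := g.support.sup (fun w => w.count true) + 1 with hm
  have hm' : ∀ w ∈ g.support, w.count true ≤ m := by
    intro w hw
    have : w.count true ≤ g.support.sup (fun w => w.count true) :=
      Finset.le_sup (f := fun w : List Bool => w.count true) hw
    omega
  obtain ⟨t, ht⟩ := Infinite.exists_subset_card_eq (Subring.center D) (m + 1)
  obtain ⟨s, hs, hs0, hst⟩ := common_den ι hι N hden hN t
  have h1 : ∀ r : B, icomm (ι r * ι s) (ι y) n = 0 := by
    intro r
    apply vandermonde g hg m hm' (by omega) t (by omega) _ (ι r * ι s) (ι y)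
    intro c hc
    obtain ⟨s', hs', hs's⟩ := hst c hc
    have hcen : ∀ x : D, (c : D) * x = x * c := by
      intro x
      exact ((Subring.mem_center_iff.mp c.2) x).symm
    have h2 : (c : D) * (ι r * ι s) = ι (r * s') := by
      rw [← mul_assoc, hcen (ι r), mul_assoc, hs's, map_mul]
    rw [← icomm_central (c : D) hcen, h2]
    have h3 := congrArg ι (hstar (r * s') (N.mul_mem_left _ _ hs') y hy)
    have h4 : ι (icomm (r * s') y n) = icomm (ι (r * s')) (ι y) n :=
      icomm_map (ι : B →ₙ+* D) _ _ n
    rw [h4] at h3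
    rw [h3, pev, pev, Finsupp.sum, Finsupp.sum, map_sum]
    apply Finset.sum_congr rfl
    intro w _
    rw [map_zsmul]
    congr 1
    unfold wev
    rw [map_list_prod, List.map_map]
    congr 1
    apply List.map_congr_left
    intro b _
    cases b <;> rfl
  obtain ⟨κ, _, a, b, hab⟩ := icomm_gpi (ι y) n
  have h2 := gpi_ext' (Set.range (fun r : B => ι r))
    (by rintro _ ⟨r, rfl⟩ _ ⟨r', rfl⟩; exact ⟨r * r', map_mul ι r r'⟩)
    (by
      intro x
      obtain ⟨s, _, hs0, t, _, hst⟩ := hden x
      refine ⟨ι s, ⟨s, rfl⟩, ?_, t, hst.symm⟩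
      intro h0
      apply hs0
      apply hι
      rw [h0, map_zero])
    a (fun j => ι s * b j)
    (by
      rintro _ ⟨r, rfl⟩
      rw [← h1 r, hab]
      apply Finset.sum_congr rfl
      intro j _
      simp only [mul_assoc])
    (x * (ι s)⁻¹)
  have hs0' : ι s ≠ 0 := by
    intro h0
    apply hs0
    apply hι
    rw [h0, map_zero]
  rw [hab, ← h2]
  apply Finset.sum_congr rfl
  intro j _
  have : x * (ι s)⁻¹ * ι s = x := by rw [mul_assoc, inv_mul_cancel₀ hs0', mul_one]
  calc a j * x * b j = a j * (x * (ι s)⁻¹ * ι s) * b j := by rw [this]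
    _ = a j * (x * (ι s)⁻¹) * (ι s * b j) := by simp only [mul_assoc]

end final

end Pool.Agent.helper9.MNE
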