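import Mathlib
import Pool.Agent.helper9.MNE.Center

/-!
# Every non-Engel variety of rings contains a finite non-Engel ring
-/

universe u

namespace Pool.Agent.helper9.MNE

open Finset nonZeroDivisors OreLocalization

section

variable {B : Type u} [Ring B] (N : TwoSidedIdeal B) (n : ℕ) (g : List Bool →₀ ℤ)
  (hg : ∀ w : List Bool, w.count true ≤ 1 → g w = 0)
  (hstar : ∀ a ∈ N, ∀ b ∈ N, icomm a b n = pev a b g)
  (x y : B) (hx : x ∈ N) (hy : y ∈ N)
  (hne : ∀ k, icomm x y k ≠ 0)
  (hmax : ∀ I : TwoSidedIdeal B, I ≠ ⊥ → ∃ k, icomm x y k ∈ I)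

include hg hstar hx hy hne hmax

theorem no_star_ring : False := by
  classical
  have hN0 : ∃ z ∈ N, z ≠ 0 := ⟨x, hx, hne 0⟩
  have hNbot : N ≠ ⊥ := by
    rintro rfl
    rw [TwoSidedIdeal.mem_bot] at hx
    exact hne 0 hx
  haveI : NoZeroDivisors B :=
    ⟨fun {a b} hab => noZeroDivisors_B N n g hg hstar x y hx hy hne hmax a b hab⟩
  haveI : Nontrivial B := ⟨⟨x, 0, hne 0⟩⟩
  -- the identity
  set φ : List Bool →₀ ℤ := icoef n - g with hφdef
  have hφ : ∀ a ∈ N, ∀ b ∈ N, pev a b φ = 0 := by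
    intro a ha b hb
    rw [hφdef, pev_sub, ← icomm_eq_pev, hstar a ha b hb, sub_self]
  set w0 : List Bool := List.replicate n false ++ [true] with hw0def
  have hφw0 : ((φ w0 : ℤ) : B) ≠ 0 := by
    have h1 : g w0 = 0 := by
      apply hg
      rw [hw0def, List.count_append, List.count_replicate]
      simp
    rw [hφdef, Finsupp.sub_apply, h1, sub_zero, hw0def, icoef_apply]
    push_cast
    exact pow_ne_zero _ (neg_ne_zero.mpr one_ne_zero)
  -- Ore condition
  have hore : Nonempty (OreSet (B⁰)) := by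
    rw [nonempty_oreSet_iff_of_noZeroDivisors]
    intro r s
    by_cases hr : r = 0
    · exact ⟨0, 1, by simp [hr]⟩
    · have hs0 : (s : B) ≠ 0 := nonZeroDivisors.ne_zero s.2
      obtain ⟨p, q, hp, hpq⟩ := ore_condition N hNbot φ hφ w0 hφw0 r s hr hs0
      exact ⟨q, ⟨p, mem_nonZeroDivisors_of_ne_zero hp⟩, hpq⟩
  obtain ⟨hore⟩ := hore
  let D : Type u := OreLocalization (B⁰) B
  letI : DivisionRing D := inferInstanceAs (DivisionRing (OreLocalization (B⁰) B))
  let ι : B →+* D := numeratorRingHom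
  have hι : Function.Injective ι := numeratorHom_inj inf_le_left
  have hden : ∀ d : D, ∃ s ∈ N, s ≠ 0 ∧ ∃ t ∈ N, ι s * d = ι t := by
    intro d
    obtain ⟨z, hz, hz0⟩ := hN0
    induction d using OreLocalization.ind with
    | _ r s =>
      have hs0 : (s : B) ≠ 0 := nonZeroDivisors.ne_zero s.2
      refine ⟨z * s, N.mul_mem_right _ _ hz, mul_ne_zero hz0 hs0, z * r, N.mul_mem_right _ _ hz, ?_⟩
      rw [map_mul, map_mul, mul_assoc]
      congr 1
      change ((s : B) /ₒ (1 : B⁰)) * (r /ₒ s) = r /ₒ 1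
      exact OreLocalization.mul_cancel
  rcases finite_or_infinite (Subring.center D) with hfin | hinf
  · -- finite centre
    -- top word
    have hex : ∃ ε : List Bool, ((φ ε : ℤ) : B) ≠ 0 ∧
        ∀ w : List Bool, ε.length < w.length → ((φ w : ℤ) : B) = 0 := by
      have hS : (φ.support.filter (fun w => ((φ w : ℤ) : B) ≠ 0)).Nonempty := by
        refine ⟨w0, Finset.mem_filter.mpr ⟨?_, hφw0⟩⟩
        rw [Finsupp.mem_support_iff]
        intro h0
        apply hφw0
        rw [h0, Int.cast_zero]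
      obtain ⟨ε, hε, hmaxε⟩ := Finset.exists_max_image _ (fun w : List Bool => w.length) hS
      refine ⟨ε, (Finset.mem_filter.mp hε).2, ?_⟩
      intro w hw
      by_contra hne0
      have hwmem : w ∈ φ.support.filter (fun w => ((φ w : ℤ) : B) ≠ 0) := by
        refine Finset.mem_filter.mpr ⟨?_, hne0⟩
        rw [Finsupp.mem_support_iff]
        intro h0
        apply hne0
        rw [h0, Int.cast_zero]
      have := hmaxε w hwmem
      omega
    obtain ⟨ε, hε, hlong⟩ := hex
    obtain ⟨d, ε', rfl⟩ : ∃ d, ∃ ε' : Fin d → Bool, ε = List.ofFn ε' :=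
      ⟨ε.length, ε.get, (List.ofFn_get ε).symm⟩
    set c : Equiv.Perm (Fin d) → ℤ := fun σ => φ (List.ofFn (fun i => ε' (σ i))) with hc
    have hM : ∀ z : Fin d → D, (∀ i, z i ∈ (fun r => ι r) '' (N : Set B)) → mlin c z = 0 := by
      intro z hz
      choose z' hz'N hz' using hz
      have h1 := multilin N φ hφ (d := d) (by
        intro w hw
        apply hlong
        rw [List.length_ofFn]
        exact hw) ε' z' hz'N
      have h2 := congrArg ι h1
      rw [map_sum, map_zero] at h2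
      rw [← h2]
      unfold mlin
      apply Finset.sum_congr rfl
      intro σ _
      rw [map_zsmul, map_list_prod, List.map_ofFn]
      congr 3
      funext i
      exact (hz' (σ i)).symm
    have hall := mlin_ext ((fun r => ι r) '' (N : Set B))
      (by
        rintro _ ⟨r, hr, rfl⟩ _ ⟨r', hr', rfl⟩
        exact ⟨r * r', N.mul_mem_left _ _ hr', map_mul ι r r'⟩)
      (by
        intro x
        obtain ⟨s, hs, hs0, t, ht, hst⟩ := hden x
        refine ⟨ι s, ⟨s, hs, rfl⟩, ?_, t, ht, hst.symm⟩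
        intro h0
        apply hs0
        apply hι
        rw [h0, map_zero]) c hM
    have hc1 : ((c 1 : ℤ) : D) ≠ 0 := by
      have h1 : (c 1 : ℤ) = φ (List.ofFn ε') := by
        simp [hc]
      rw [h1]
      intro h0
      apply hε
      apply hι
      rw [map_intCast, h0, map_zero]
    have hcomm := comm_of_finite_center hfin c hall hc1
    apply hne 1
    apply hι
    rw [map_zero]
    change ι (x * y - y * x) = 0
    rw [map_sub, map_mul, map_mul, hcomm, sub_self]
  · -- infinite centre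
    have h1 := icomm_zero_of_infinite ι hι N hden hinf n g hg hstar hN0 y hy (ι x)
    apply hne n
    apply hι
    rw [map_zero, ← h1]
    exact icomm_map (ι : B →ₙ+* D) _ _ n

end

theorem pev_map {A : Type u} {B : Type u} [Ring A] [Ring B] (f : A →+* B) (x y : A)
    (g : List Bool →₀ ℤ) : f (pev x y g) = pev (f x) (f y) g := by
  rw [pev, pev, Finsupp.sum, Finsupp.sum, map_sum]
  apply Finset.sum_congr rfl
  intro w _
  rw [map_zsmul]
  congr 1
  unfold wev
  rw [map_list_prod, List.map_map]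
  congr 1
  apply List.map_congr_left
  intro b _
  cases b <;> rfl

/-- Varieties are closed under products. -/
theorem variety_pi {V : RingClass.{u}} (hV : IsVariety V) (R : ℕ → Type u)
    [inst : ∀ k, NonUnitalRing (R k)] (hR : ∀ k, V (R k)) : V (∀ k, R k) := by
  obtain ⟨E, hE⟩ := hV
  rw [hE]
  intro e he ρ
  funext k
  have h1 := RTerm.eval_map (Pi.evalNonUnitalRingHom R k) ρ e.1
  have h2 := RTerm.eval_map (Pi.evalNonUnitalRingHom R k) ρ e.2
  have h3 := (hE (R k)).mp (hR k) e he (fun i => ρ i k)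
  exact h1.trans (h3.trans h2.symm)

theorem icomm_zero_left {R : Type u} [NonUnitalRing R] (x y : R) (k m : ℕ)
    (h : icomm x y k = 0) : icomm x y (k + m) = 0 := by
  induction m with
  | zero => exact h
  | succ m ih => rw [← add_assoc, icomm, ih, zero_mul, mul_zero, sub_zero]

/-- In a non-Engel variety there is one ring with elements `x, y` such that no `[x,_k y]`
vanishes. -/
theorem exists_ring_of_not_engel {V : RingClass.{u}} (hV : IsVariety V) (hE : ¬ IsEngel V) :
    ∃ (R : Type u) (_ : NonUnitalRing R), V R ∧ ∃ x y : R, ∀ k, icomm x y k ≠ 0 := by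
  unfold IsEngel at hE
  push Not at hE
  have h1 : ∀ k : ℕ, ∃ (R : Type u) (_ : NonUnitalRing R), V R ∧ ∃ x y : R,
      icomm x y (k + 1) ≠ 0 := by
    intro k
    obtain ⟨R, inst, hR, x, y, hxy⟩ := hE (k + 1) (by omega)
    exact ⟨R, inst, hR, x, y, hxy⟩
  choose R inst hR x y hxy using h1
  refine ⟨∀ k, R k, inferInstance, variety_pi hV R hR, x, y, ?_⟩
  intro k hk
  have h2 := icomm_map (Pi.evalNonUnitalRingHom R k) x y k
  rw [hk, map_zero] at h2
  apply hxy k
  rw [icomm]
  have h3 : icomm (x k) (y k) k = 0 := h2.symm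
  rw [h3, zero_mul, mul_zero, sub_zero]

/-- No ring has an ideal satisfying the basic identity and containing `X, Y` such that no
`[X,_k Y]` vanishes. -/
theorem no_star_ring' {A : Type u} [Ring A] (N0 : TwoSidedIdeal A) (n : ℕ) (g : List Bool →₀ ℤ)
    (hg : ∀ w : List Bool, w.count true ≤ 1 → g w = 0)
    (hstar : ∀ a ∈ N0, ∀ b ∈ N0, icomm a b n = pev a b g)
    (X Y : A) (hX : X ∈ N0) (hY : Y ∈ N0) (hXY : ∀ k, icomm X Y k ≠ 0) : False := by
  -- Zorn
  have hzorn : ∃ P : TwoSidedIdeal A, (∀ k, icomm X Y k ∉ P) ∧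
      ∀ I : TwoSidedIdeal A, P ≤ I → (∀ k, icomm X Y k ∉ I) → I = P := by
    obtain ⟨P, hP⟩ := zorn_le_nonempty₀
      {I : TwoSidedIdeal A | ∀ k, icomm X Y k ∉ I} (by
      intro c hc hchain I0 hI0
      let U : TwoSidedIdeal A := TwoSidedIdeal.mk' {b | ∃ I ∈ c, b ∈ I}
        ⟨I0, hI0, I0.zero_mem⟩
        (by
          rintro a b ⟨I, hI, ha⟩ ⟨J, hJ, hb⟩
          rcases hchain.total hI hJ with h | h
          · exact ⟨J, hJ, J.add_mem (h ha) hb⟩
          · exact ⟨I, hI, I.add_mem ha (h hb)⟩)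
        (by rintro a ⟨I, hI, ha⟩; exact ⟨I, hI, I.neg_mem ha⟩)
        (by rintro r a ⟨I, hI, ha⟩; exact ⟨I, hI, I.mul_mem_left _ _ ha⟩)
        (by rintro a r ⟨I, hI, ha⟩; exact ⟨I, hI, I.mul_mem_right _ _ ha⟩)
      have hU : ∀ b, b ∈ U ↔ ∃ I ∈ c, b ∈ I := by
        intro b
        rw [TwoSidedIdeal.mem_mk']
        rfl
      refine ⟨U, ?_, ?_⟩
      · intro k hk
        rw [hU] at hk
        obtain ⟨I, hI, hkI⟩ := hk
        exact hc hI k hkI
      · intro I hI b hb
        rw [hU]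
        exact ⟨I, hI, hb⟩) ⊥ (by
        intro k hk
        rw [TwoSidedIdeal.mem_bot] at hk
        exact hXY k hk)
    refine ⟨P, hP.2.prop, ?_⟩
    intro I hPI hI
    exact (hP.2.eq_of_le hI hPI).symm
  obtain ⟨P, hP, hPmax⟩ := hzorn
  let π : A →+* P.ringCon.Quotient := P.ringCon.mk'
  have hπsurj : Function.Surjective π := RingCon.mk'_surjective P.ringCon
  have hπ0 : ∀ b, π b = 0 ↔ b ∈ P := by
    intro b
    rw [← TwoSidedIdeal.mem_ker, TwoSidedIdeal.ker_ringCon_mk']
  let N : TwoSidedIdeal P.ringCon.Quotient := TwoSidedIdeal.mk'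
    {b | ∃ r ∈ N0, π r = b}
    ⟨0, N0.zero_mem, by rw [map_zero]⟩
    (by rintro _ _ ⟨r, hr, rfl⟩ ⟨s, hs, rfl⟩; exact ⟨r + s, N0.add_mem hr hs, by rw [map_add]⟩)
    (by rintro _ ⟨r, hr, rfl⟩; exact ⟨-r, N0.neg_mem hr, by rw [map_neg]⟩)
    (by
      rintro b _ ⟨r, hr, rfl⟩
      obtain ⟨b, rfl⟩ := hπsurj b
      exact ⟨b * r, N0.mul_mem_left _ _ hr, map_mul _ _ _⟩)
    (by
      rintro _ b ⟨r, hr, rfl⟩
      obtain ⟨b, rfl⟩ := hπsurj b
      exact ⟨r * b, N0.mul_mem_right _ _ hr, map_mul _ _ _⟩)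
  have hN : ∀ b, b ∈ N ↔ ∃ r ∈ N0, π r = b := by
    intro b
    rw [TwoSidedIdeal.mem_mk']
    rfl
  refine no_star_ring N n g hg ?_ (π X) (π Y) ?_ ?_ ?_ ?_
  · intro a ha b hb
    rw [hN] at ha hb
    obtain ⟨r, hr, rfl⟩ := ha
    obtain ⟨s, hs, rfl⟩ := hb
    have h2 := congrArg π (hstar r hr s hs)
    rw [pev_map] at h2
    rw [← h2]
    exact (icomm_map (π : A →ₙ+* P.ringCon.Quotient) _ _ n).symm
  · rw [hN]; exact ⟨X, hX, rfl⟩
  · rw [hN]; exact ⟨Y, hY, rfl⟩
  · intro k hk
    apply hP k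
    rw [← hπ0, ← hk]
    exact icomm_map (π : A →ₙ+* P.ringCon.Quotient) _ _ k
  · intro I hI
    by_contra hcon
    push Not at hcon
    have h1 : TwoSidedIdeal.comap π I = P := by
      apply hPmax
      · intro b hb
        rw [TwoSidedIdeal.mem_comap, (hπ0 b).mpr hb]
        exact I.zero_mem
      · intro k hk
        rw [TwoSidedIdeal.mem_comap] at hk
        apply hcon k
        have h2 := icomm_map (π : A →ₙ+* P.ringCon.Quotient) X Y k
        have h3 : π (icomm X Y k) = icomm (π X) (π Y) k := h2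
        rw [← h3]
        exact hk
    apply hI
    rw [eq_bot_iff]
    intro b hb
    obtain ⟨b, rfl⟩ := hπsurj b
    have h2 : b ∈ TwoSidedIdeal.comap π I := by
      rw [TwoSidedIdeal.mem_comap]; exact hb
    rw [h1, ← hπ0] at h2
    rw [TwoSidedIdeal.mem_bot]
    exact h2

/-- **Main theorem on the basic identity.** A variety satisfying the basic identity is Engel. -/
theorem engel_of_star {V : RingClass.{u}} (hV : IsVariety V) (n : ℕ) (g : List Bool →₀ ℤ)
    (hstar : StarId V n g) : IsEngel V := by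
  by_contra hE
  obtain ⟨R, _, hR, x, y, hxy⟩ := exists_ring_of_not_engel hV hE
  let N0 : TwoSidedIdeal (Unitization ℤ R) := TwoSidedIdeal.mk'
    {b | ∃ r : R, (r : Unitization ℤ R) = b}
    ⟨0, Unitization.inr_zero ℤ⟩
    (by rintro _ _ ⟨r, rfl⟩ ⟨s, rfl⟩; exact ⟨r + s, Unitization.inr_add ℤ _ _⟩)
    (by rintro _ ⟨r, rfl⟩; exact ⟨-r, Unitization.inr_neg ℤ _⟩)
    (by
      rintro b _ ⟨r, rfl⟩
      refine ⟨b.fst • r + b.snd * r, ?_⟩
      apply Unitization.ext <;> simp [-zsmul_eq_mul])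
    (by
      rintro _ b ⟨r, rfl⟩
      refine ⟨b.fst • r + r * b.snd, ?_⟩
      apply Unitization.ext <;> simp [-zsmul_eq_mul])
  have hN : ∀ b, b ∈ N0 ↔ ∃ r : R, (r : Unitization ℤ R) = b := by
    intro b
    rw [TwoSidedIdeal.mem_mk']
    rfl
  refine no_star_ring' N0 n g hstar.1 ?_ (x : Unitization ℤ R) (y : Unitization ℤ R) ?_ ?_ ?_
  · intro a ha b hb
    rw [hN] at ha hb
    obtain ⟨r, rfl⟩ := ha
    obtain ⟨s, rfl⟩ := hb
    have h1 := hstar.2 R hR r s
    rw [icomm_inr] at h1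
    exact h1
  · rw [hN]; exact ⟨x, rfl⟩
  · rw [hN]; exact ⟨y, rfl⟩
  · intro k hk
    apply hxy k
    rw [← icomm_inr] at hk
    exact Unitization.inr_injective (R := ℤ) (hk.trans (Unitization.inr_zero ℤ).symm)

/-- Every non-Engel variety of rings contains one of the finite rings `D0 K α β`, `α ≠ β`. -/
theorem exists_finite_of_not_engel {V : RingClass.{u}} (hV : IsVariety V) (hE : ¬ IsEngel V) :
    ∃ (K : Type u) (_ : Field K) (_ : Finite K) (α β : K), α ≠ β ∧ V (D0 K α β) := by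
  rcases star_or_contains hV with ⟨n, g, h⟩ | h
  · exact absurd (engel_of_star hV n g h) hE
  · exact h

end Pool.Agent.helper9.MNE
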