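import Mathlib
import Pool.Agent.helper9.MNE.Main
import Pool.Agent.helper9.MNE.Good

/-!
# Quotients, critical rings, finitely many rings of bounded order
-/

universe u v w

namespace Pool.Agent.helper9.MNE

section quot

variable {R : Type u} [NonUnitalRing R]

/-- quotient ring -/
abbrev QR (P : TwoSidedIdeal R) : Type u := P.ringCon.Quotient

/-- quotient map -/
def qmk (P : TwoSidedIdeal R) : R →ₙ+* QR P where
  toFun r := (r : P.ringCon.Quotient)
  map_mul' _ _ := rfl
  map_zero' := rfl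
  map_add' _ _ := rfl

theorem qmk_surjective (P : TwoSidedIdeal R) : Function.Surjective (qmk P) :=
  Quotient.mk''_surjective

theorem qmk_eq_zero (P : TwoSidedIdeal R) (r : R) : qmk P r = 0 ↔ r ∈ P := by
  rw [TwoSidedIdeal.mem_iff]
  exact RingCon.eq P.ringCon

theorem sat_of_surjective {S : Type v} [NonUnitalRing S] (f : R →ₙ+* S)
    (hf : Function.Surjective f) (e : RTerm × RTerm) (h : Sat R e) : Sat S e := by
  intro ρ
  choose ρ' hρ' using fun i => hf (ρ i)
  have h1 := congrArg f (h ρ')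
  rw [RTerm.eval_map, RTerm.eval_map] at h1
  have h2 : (fun i => f (ρ' i)) = ρ := funext hρ'
  rw [h2] at h1
  exact h1

theorem sat_of_injective {S : Type v} [NonUnitalRing S] (f : S →ₙ+* R)
    (hf : Function.Injective f) (e : RTerm × RTerm) (h : Sat R e) : Sat S e := by
  intro ρ
  apply hf
  rw [RTerm.eval_map, RTerm.eval_map]
  exact h _

/-- Given a nonzero element there is an ideal avoiding it with finitely subdirectly irreducible
quotient. -/
theorem exists_fsi (r : R) (hr : r ≠ 0) : ∃ P : TwoSidedIdeal R, r ∉ P ∧ FSI (QR P) := by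
  have hzorn : ∃ P : TwoSidedIdeal R, r ∉ P ∧ ∀ I : TwoSidedIdeal R, P ≤ I → r ∉ I → I = P := by
    obtain ⟨P, hP⟩ := zorn_le_nonempty₀ {I : TwoSidedIdeal R | r ∉ I} (by
      intro c hc hchain I0 hI0
      let U : TwoSidedIdeal R := TwoSidedIdeal.mk' {b | ∃ I ∈ c, b ∈ I}
        ⟨I0, hI0, I0.zero_mem⟩
        (by
          rintro a b ⟨I, hI, ha⟩ ⟨J, hJ, hb⟩
          rcases hchain.total hI hJ with h | h
          · exact ⟨J, hJ, J.add_mem (h ha) hb⟩
          · exact ⟨I, hI, I.add_mem ha (h hb)⟩)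
        (by rintro a ⟨I, hI, ha⟩; exact ⟨I, hI, I.neg_mem ha⟩)
        (by rintro r a ⟨I, hI, ha⟩; exact ⟨I, hI, I.mul_mem_left _ _ ha⟩)
        (by rintro a r ⟨I, hI, ha⟩; exact ⟨I, hI, I.mul_mem_right _ _ ha⟩)
      have hU : ∀ b, b ∈ U ↔ ∃ I ∈ c, b ∈ I := by
        intro b
        rw [TwoSidedIdeal.mem_mk']
        rfl
      refine ⟨U, ?_, ?_⟩
      · intro hk
        rw [hU] at hk
        obtain ⟨I, hI, hkI⟩ := hk
        exact hc hI hkI
      · intro I hI b hb
        rw [hU]
        exact ⟨I, hI, hb⟩) ⊥ (by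
        intro hk
        rw [TwoSidedIdeal.mem_bot] at hk
        exact hr hk)
    refine ⟨P, hP.2.prop, ?_⟩
    intro I hPI hI
    exact (hP.2.eq_of_le hI hPI).symm
  obtain ⟨P, hP, hPmax⟩ := hzorn
  refine ⟨P, hP, ?_⟩
  have key : ∀ I : TwoSidedIdeal (QR P), I ≠ ⊥ → qmk P r ∈ I := by
    intro I hI
    by_contra hrI
    let C : TwoSidedIdeal R := TwoSidedIdeal.comap (qmk P) I
    have hC : ∀ a, a ∈ C ↔ qmk P a ∈ I := fun a => TwoSidedIdeal.mem_comap _
    have h1 : C = P := by
      apply hPmax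
      · intro b hb
        rw [hC, (qmk_eq_zero P b).mpr hb]
        exact I.zero_mem
      · rw [hC]; exact hrI
    apply hI
    rw [eq_bot_iff]
    intro b hb
    obtain ⟨b, rfl⟩ := qmk_surjective P b
    rw [← hC, h1, ← qmk_eq_zero] at hb
    rw [TwoSidedIdeal.mem_bot]
    exact hb
  intro I J hIJ
  by_contra hcon
  push Not at hcon
  have h1 : qmk P r ∈ I ⊓ J := by
    rw [TwoSidedIdeal.mem_inf]
    exact ⟨key I hcon.1, key J hcon.2⟩
  rw [hIJ, TwoSidedIdeal.mem_bot, qmk_eq_zero] at h1
  exact hP h1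

end quot

/-- critical rings are finitely subdirectly irreducible -/
theorem fsi_of_critical (R : Type u) [NonUnitalRing R] (hR : IsCritical R) : FSI R := by
  obtain ⟨hfin, hcrit⟩ := hR
  intro I J hIJ
  by_contra hcon
  push Not at hcon
  apply hcrit
  have key : ∀ I : TwoSidedIdeal R, I ≠ ⊥ → IsFactor (QR I) R ∧ ¬ Nonempty (QR I ≃+* R) := by
    intro I hI
    constructor
    · refine ⟨⊤, (qmk I).comp (NonUnitalSubringClass.subtype ⊤), ?_⟩
      intro b
      obtain ⟨a, rfl⟩ := qmk_surjective I b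
      exact ⟨⟨a, trivial⟩, rfl⟩
    · rintro ⟨e⟩
      apply hI
      have h1 : Function.Surjective (fun r : R => e (qmk I r)) :=
        e.surjective.comp (qmk_surjective I)
      have h2 : Function.Injective (fun r : R => e (qmk I r)) :=
        Finite.injective_iff_surjective.mpr h1
      rw [eq_bot_iff]
      intro r hr
      rw [TwoSidedIdeal.mem_bot]
      apply h2
      have h3 : qmk I r = qmk I 0 := by rw [(qmk_eq_zero I r).mpr hr, map_zero]
      exact congrArg e h3
  intro e he ρ
  have h1 : ∀ I : TwoSidedIdeal R, I ≠ ⊥ → e.1.eval ρ - e.2.eval ρ ∈ I := by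
    intro I hI
    have h2 := he (QR I) (key I hI) (fun i => qmk I (ρ i))
    rw [← qmk_eq_zero, map_sub, RTerm.eval_map, RTerm.eval_map, h2, sub_self]
  have h3 : e.1.eval ρ - e.2.eval ρ ∈ I ⊓ J := by
    rw [TwoSidedIdeal.mem_inf]
    exact ⟨h1 I hcon.1, h1 J hcon.2⟩
  rw [hIJ, TwoSidedIdeal.mem_bot, sub_eq_zero] at h3
  exact h3

/-- A type with `k` elements and no given algebraic structure. -/
def FT (k : ℕ) : Type := Fin k

theorem finite_structures (k : ℕ) : Finite (NonUnitalRing (FT k)) := by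
  have : Finite (FT k) := inferInstanceAs (Finite (Fin k))
  let F : NonUnitalRing (FT k) → (FT k → FT k → FT k) × (FT k → FT k → FT k) :=
    fun inst => (fun a b => inst.toAdd.add a b, fun a b => inst.toMul.mul a b)
  apply Finite.of_injective F
  intro i1 i2 h
  have h1 := congrArg Prod.fst h
  have h2 := congrArg Prod.snd h
  apply NonUnitalRing.ext
  · exact h1
  · exact h2

/-- Every finite ring is isomorphic to a ring structure on `FT k`. -/
theorem exists_structure (R : Type u) [NonUnitalRing R] [Finite R] :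
    ∃ inst : NonUnitalRing (FT (Nat.card R)), Nonempty (R ≃+* FT (Nat.card R)) := by
  let e : FT (Nat.card R) ≃ R := (Finite.equivFin R).symm
  exact ⟨e.nonUnitalRing, ⟨by
    letI := e.nonUnitalRing
    exact (e.ringEquiv).symm⟩⟩

end Pool.Agent.helper9.MNE
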