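import Mathlib
import Pool.Agent.helper9.MNE.Main
import Pool.Agent.helper9.MNE.Good
import Pool.Agent.helper9.MNE.Quot

/-!
# Minimal non-Engel varieties are Cross
-/

universe u v w

namespace Pool.Agent.helper9.MNE

/-! ### Terms -/

/-- the term `t ^ (k + 1)` -/
def tpow (t : RTerm) : ℕ → RTerm
  | 0 => t
  | k + 1 => .mul (tpow t k) t

/-- the term `s - t` -/
def tsub (s t : RTerm) : RTerm := .add s (.neg t)

/-- the term `k t` -/
def tnsm : ℕ → RTerm → RTerm
  | 0, _ => .zero
  | k + 1, t => .add (tnsm k t) t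

/-- the term `x_i x_j - x_j x_i` -/
def tcomm (i j : ℕ) : RTerm := tsub (.mul (.var i) (.var j)) (.mul (.var j) (.var i))

/-- the term `x_i ^ q - x_i` -/
def tfrob (q i : ℕ) : RTerm := tsub (tpow (.var i) (q - 1)) (.var i)

section
variable {R : Type u} [NonUnitalRing R]

theorem eval_tpow (ρ : ℕ → R) (t : RTerm) (k : ℕ) : (tpow t k).eval ρ = pw (t.eval ρ) k := by
  induction k with
  | zero => rfl
  | succ k ih =>
    change (tpow t k).eval ρ * t.eval ρ = pw (t.eval ρ) k * t.eval ρ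
    rw [ih]

theorem eval_tsub (ρ : ℕ → R) (s t : RTerm) : (tsub s t).eval ρ = s.eval ρ - t.eval ρ :=
  (sub_eq_add_neg _ _).symm

theorem eval_tnsm (ρ : ℕ → R) (t : RTerm) (k : ℕ) : (tnsm k t).eval ρ = k • t.eval ρ := by
  induction k with
  | zero => rw [zero_nsmul]; rfl
  | succ k ih =>
    change (tnsm k t).eval ρ + t.eval ρ = _
    rw [ih, succ_nsmul]

theorem eval_tcomm (ρ : ℕ → R) (i j : ℕ) : (tcomm i j).eval ρ = ρ i * ρ j - ρ j * ρ i := by
  unfold tcomm
  rw [eval_tsub]
  rfl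

theorem eval_tfrob (ρ : ℕ → R) (q i : ℕ) : (tfrob q i).eval ρ = pw (ρ i) (q - 1) - ρ i := by
  unfold tfrob
  rw [eval_tsub, eval_tpow]
  rfl

end

/-- the nine basic identities -/
def E0 (p q : ℕ) : Set (RTerm × RTerm) :=
  {(tnsm p (.var 0), .zero),
   (.mul (tfrob q 0) (tfrob q 2), .zero),
   (.mul (tfrob q 0) (tcomm 2 3), .zero),
   (.mul (tcomm 0 1) (tfrob q 2), .zero),
   (.mul (tcomm 0 1) (tcomm 2 3), .zero),
   (.mul (tfrob q 0) (.mul (.var 4) (tfrob q 2)), .zero),
   (.mul (tfrob q 0) (.mul (.var 4) (tcomm 2 3)), .zero),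
   (.mul (tcomm 0 1) (.mul (.var 4) (tfrob q 2)), .zero),
   (.mul (tcomm 0 1) (.mul (.var 4) (tcomm 2 3)), .zero)}

theorem E0_finite (p q : ℕ) : (E0 p q).Finite := by
  unfold E0
  exact Set.toFinite _

section
variable {R : Type u} [NonUnitalRing R]

/-- an assignment with five prescribed values -/
def asg (a b c d e : R) : ℕ → R
  | 0 => a
  | 1 => b
  | 2 => c
  | 3 => d
  | _ + 4 => e

theorem good_of_E0 {p q : ℕ} (h : ∀ e ∈ E0 p q, Sat R e) : Good p q R := by
  have h1 := h (tnsm p (.var 0), .zero) (by simp [E0])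
  have h2 := h (.mul (tfrob q 0) (tfrob q 2), .zero) (by simp [E0])
  have h3 := h (.mul (tfrob q 0) (tcomm 2 3), .zero) (by simp [E0])
  have h4 := h (.mul (tcomm 0 1) (tfrob q 2), .zero) (by simp [E0])
  have h5 := h (.mul (tcomm 0 1) (tcomm 2 3), .zero) (by simp [E0])
  have h6 := h (.mul (tfrob q 0) (.mul (.var 4) (tfrob q 2)), .zero) (by simp [E0])
  have h7 := h (.mul (tfrob q 0) (.mul (.var 4) (tcomm 2 3)), .zero) (by simp [E0])
  have h8 := h (.mul (tcomm 0 1) (.mul (.var 4) (tfrob q 2)), .zero) (by simp [E0])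
  have h9 := h (.mul (tcomm 0 1) (.mul (.var 4) (tcomm 2 3)), .zero) (by simp [E0])
  refine ⟨?_, ?_, ?_⟩
  · intro a
    have := h1 (fun _ => a)
    rw [eval_tnsm] at this
    exact this
  · rintro s (⟨a, rfl⟩ | ⟨a, b, rfl⟩) s' (⟨c, rfl⟩ | ⟨c, d, rfl⟩)
    · have := h2 (asg a a c c c)
      simp only [RTerm.eval, eval_tfrob, asg] at this
      exact this
    · have := h3 (asg a a c d c)
      simp only [RTerm.eval, eval_tfrob, eval_tcomm, asg] at this
      exact this
    · have := h4 (asg a b c c c)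
      simp only [RTerm.eval, eval_tfrob, eval_tcomm, asg] at this
      exact this
    · have := h5 (asg a b c d c)
      simp only [RTerm.eval, eval_tcomm, asg] at this
      exact this
  · rintro s (⟨a, rfl⟩ | ⟨a, b, rfl⟩) s' (⟨c, rfl⟩ | ⟨c, d, rfl⟩) r
    · have := h6 (asg a a c c r)
      simp only [RTerm.eval, eval_tfrob, asg] at this
      exact this
    · have := h7 (asg a a c d r)
      simp only [RTerm.eval, eval_tfrob, eval_tcomm, asg] at this
      exact this
    · have := h8 (asg a b c c r)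
      simp only [RTerm.eval, eval_tfrob, eval_tcomm, asg] at this
      exact this
    · have := h9 (asg a b c d r)
      simp only [RTerm.eval, eval_tcomm, asg] at this
      exact this

theorem E0_of_good {p q : ℕ} (h : Good p q R) : ∀ e ∈ E0 p q, Sat R e := by
  have hf : ∀ a : R, pw a (q - 1) - a ∈ SS q R := fun a => Or.inl ⟨a, rfl⟩
  have hc : ∀ a b : R, a * b - b * a ∈ SS q R := fun a b => Or.inr ⟨a, b, rfl⟩
  rintro e (rfl | rfl | rfl | rfl | rfl | rfl | rfl | rfl | rfl) ρ
  · change (tnsm p (.var 0)).eval ρ = 0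
    rw [eval_tnsm]
    exact h.nsm _
  · simp only [RTerm.eval, eval_tfrob]
    exact h.mul0 _ (hf _) _ (hf _)
  · simp only [RTerm.eval, eval_tfrob, eval_tcomm]
    exact h.mul0 _ (hf _) _ (hc _ _)
  · simp only [RTerm.eval, eval_tfrob, eval_tcomm]
    exact h.mul0 _ (hc _ _) _ (hf _)
  · simp only [RTerm.eval, eval_tcomm]
    exact h.mul0 _ (hc _ _) _ (hc _ _)
  · simp only [RTerm.eval, eval_tfrob]
    exact h.mul1 _ (hf _) _ (hf _) _
  · simp only [RTerm.eval, eval_tfrob, eval_tcomm]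
    exact h.mul1 _ (hf _) _ (hc _ _) _
  · simp only [RTerm.eval, eval_tfrob, eval_tcomm]
    exact h.mul1 _ (hc _ _) _ (hf _) _
  · simp only [RTerm.eval, eval_tcomm]
    exact h.mul1 _ (hc _ _) _ (hc _ _) _

end

/-! ### The rings `D0 K α β` -/

section
variable {K : Type u} [Field K] (α β : K)

theorem D0_lower (M : D0 K α β) : M.1 1 0 = 0 := by
  obtain ⟨M, hM⟩ := M
  change M 1 0 = 0
  unfold D0 at hM
  induction hM using NonUnitalSubring.closure_induction with
  | mem x hx => rcases hx with rfl | rfl <;> simp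
  | zero => rfl
  | add x y _ _ hx hy => simp [hx, hy]
  | neg x _ hx => simp [hx]
  | mul x y _ _ hx hy => simp [Matrix.mul_apply, Fin.sum_univ_two, hx, hy]

theorem pw_val (M : D0 K α β) (k : ℕ) :
    (pw M k).1 0 0 = (M.1 0 0) ^ (k + 1) ∧ (pw M k).1 1 1 = (M.1 1 1) ^ (k + 1) := by
  induction k with
  | zero => simp [pw]
  | succ k ih =>
    have h1 : (pw M (k + 1)).1 = (pw M k).1 * M.1 := rfl
    rw [h1]
    constructor
    · rw [Matrix.mul_apply, Fin.sum_univ_two, ih.1, D0_lower α β M, mul_zero, add_zero, ← pow_succ]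
    · rw [Matrix.mul_apply, Fin.sum_univ_two, ih.2, D0_lower α β (pw M k), zero_mul, zero_add,
        ← pow_succ]

theorem SS_D0 [Finite K] (s : D0 K α β) (hs : s ∈ SS (Nat.card K) (D0 K α β)) :
    s.1 0 0 = 0 ∧ s.1 1 0 = 0 ∧ s.1 1 1 = 0 := by
  have := Fintype.ofFinite K
  have hq : Nat.card K - 1 + 1 = Fintype.card K := by
    rw [Nat.card_eq_fintype_card]
    exact Nat.sub_add_cancel Fintype.card_pos
  refine ⟨?_, D0_lower α β s, ?_⟩
  · rcases hs with ⟨a, rfl⟩ | ⟨a, b, rfl⟩
    · have h1 : (pw a (Nat.card K - 1) - a).1 0 0 = (pw a (Nat.card K - 1)).1 0 0 - a.1 0 0 := rfl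
      rw [h1, (pw_val α β a _).1, hq, FiniteField.pow_card, sub_self]
    · have h1 : (a * b - b * a).1 = a.1 * b.1 - b.1 * a.1 := rfl
      rw [h1, Matrix.sub_apply, Matrix.mul_apply, Matrix.mul_apply, Fin.sum_univ_two,
        Fin.sum_univ_two, D0_lower α β a, D0_lower α β b]
      ring
  · rcases hs with ⟨a, rfl⟩ | ⟨a, b, rfl⟩
    · have h1 : (pw a (Nat.card K - 1) - a).1 1 1 = (pw a (Nat.card K - 1)).1 1 1 - a.1 1 1 := rfl
      rw [h1, (pw_val α β a _).2, hq, FiniteField.pow_card, sub_self]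
    · have h1 : (a * b - b * a).1 = a.1 * b.1 - b.1 * a.1 := rfl
      rw [h1, Matrix.sub_apply, Matrix.mul_apply, Matrix.mul_apply, Fin.sum_univ_two,
        Fin.sum_univ_two, D0_lower α β a, D0_lower α β b]
      ring

theorem good_D0 [Finite K] (p : ℕ) (hp : (p : K) = 0) : Good p (Nat.card K) (D0 K α β) := by
  refine ⟨?_, ?_, ?_⟩
  · intro a
    apply Subtype.ext
    change p • a.1 = 0
    ext i j
    rw [Matrix.smul_apply, nsmul_eq_mul, hp, zero_mul]
    rfl
  · intro s hs s' hs'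
    obtain ⟨h1, h2, h3⟩ := SS_D0 α β s hs
    obtain ⟨h1', h2', h3'⟩ := SS_D0 α β s' hs'
    apply Subtype.ext
    change s.1 * s'.1 = 0
    ext i j
    fin_cases i <;> fin_cases j <;>
      simp [Matrix.mul_apply, Fin.sum_univ_two, h1, h2, h3, h1', h2', h3']
  · intro s hs s' hs' r
    obtain ⟨h1, h2, h3⟩ := SS_D0 α β s hs
    obtain ⟨h1', h2', h3'⟩ := SS_D0 α β s' hs'
    have h4 := D0_lower α β r
    apply Subtype.ext
    change s.1 * (r.1 * s'.1) = 0
    ext i j
    fin_cases i <;> fin_cases j <;>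
      simp [Matrix.mul_apply, Fin.sum_univ_two, h1, h2, h3, h1', h2', h3', h4]

theorem not_engel_of_D0 {V : RingClass.{u}} (hαβ : α ≠ β) (hV : V (D0 K α β)) :
    ¬ IsEngel V := by
  rintro ⟨n, hn, h⟩
  have hn0 : n ≠ 0 := by omega
  have hx : !![(0 : K), 1; 0, 0] ∈ D0 K α β :=
    NonUnitalSubring.subset_closure (Set.mem_insert _ _)
  have hy : !![α, 0; 0, β] ∈ D0 K α β :=
    NonUnitalSubring.subset_closure (Set.mem_insert_of_mem _ (Set.mem_singleton _))
  have h1 := h _ hV ⟨_, hx⟩ ⟨_, hy⟩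
  have h2 : ∀ k : ℕ, icomm !![(0 : K), 1; 0, 0] !![α, 0; 0, β] k = !![0, (β - α) ^ k; 0, 0] := by
    intro k
    induction k with
    | zero => simp [icomm]
    | succ k ih =>
      rw [icomm, ih]
      ext i j
      fin_cases i <;> fin_cases j <;> simp
      ring
  have h3 := icomm_map (NonUnitalSubringClass.subtype (D0 K α β)) ⟨_, hx⟩ ⟨_, hy⟩ n
  rw [h1, map_zero] at h3
  change 0 = icomm !![(0 : K), 1; 0, 0] !![α, 0; 0, β] n at h3
  rw [h2] at h3
  have h4 := congrFun (congrFun h3 0) 1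
  have h5 : (β - α) ^ n = 0 := by simpa using h4.symm
  exact hαβ (sub_eq_zero.mp (pow_eq_zero_iff (M₀ := K) hn0 |>.mp h5)).symm

end

/-! ### The variety generated by one ring -/

/-- `V` is the variety generated by the ring `D`. -/
def GenBy (V : RingClass.{u}) (D : Type v) [NonUnitalRing D] : Prop :=
  ∀ (R : Type u) [NonUnitalRing R], V R ↔ ∀ e, Sat D e → Sat R e

/-- A minimal non-Engel variety is generated by one of the rings `D0 K α β`. -/
theorem generated_of_minimal {V : RingClass.{u}} (hV : IsMinimalNonEngel V) :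
    ∃ (K : Type u) (_ : Field K) (_ : Finite K) (α β : K), α ≠ β ∧ GenBy V (D0 K α β) := by
  obtain ⟨hvar, hE, hmin⟩ := hV
  obtain ⟨K, _, _, α, β, hαβ, hD⟩ := exists_finite_of_not_engel hvar hE
  refine ⟨K, inferInstance, inferInstance, α, β, hαβ, ?_⟩
  let W : RingClass.{u} := fun R _ => ∀ e, Sat (D0 K α β) e → Sat R e
  have hW : IsVariety W := ⟨{e | Sat (D0 K α β) e}, fun R _ => Iff.rfl⟩
  obtain ⟨E, hEV⟩ := hvar
  have hWV : ∀ (R : Type u) [NonUnitalRing R], W R → V R := by
    intro R _ hR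
    rw [hEV R]
    intro e he
    exact hR e ((hEV _).mp hD e he)
  have hDW : W (D0 K α β) := fun e he => he
  intro R _
  constructor
  · intro hR
    by_contra hWR
    exact not_engel_of_D0 α β hαβ hDW (hmin W hW hWV ⟨R, inferInstance, hR, hWR⟩)
  · exact hWV R

/-! ### Finite basis -/

/-- all ring structures on types with at most `N` elements -/
abbrev Str (N : ℕ) : Type := Σ k : Fin (N + 1), NonUnitalRing (FT k)

instance (N : ℕ) : Finite (Str N) := by
  have : ∀ k : Fin (N + 1), Finite (NonUnitalRing (FT k)) := fun k => finite_structures k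
  infer_instance

/-- for every small ring not in the variety generated by `D` an identity of `D` failing in it -/
noncomputable def chosen (D : Type v) [NonUnitalRing D] (N : ℕ) (s : Str N) : RTerm × RTerm :=
  open Classical in
  if h : ∃ e, Sat D e ∧ ¬ @Sat (FT s.1) s.2 e then h.choose else (.zero, .zero)

theorem sat_chosen (D : Type v) [NonUnitalRing D] (N : ℕ) (s : Str N) : Sat D (chosen D N s) := by
  unfold chosen
  split_ifs with h
  · exact h.choose_spec.1
  · intro ρ; rfl

theorem sat_of_sat_chosen (D : Type v) [NonUnitalRing D] (N : ℕ) (s : Str N)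
    (h : @Sat (FT s.1) s.2 (chosen D N s)) : ∀ e, Sat D e → @Sat (FT s.1) s.2 e := by
  by_contra hcon
  push Not at hcon
  obtain ⟨e, he, he'⟩ := hcon
  have hex : ∃ e, Sat D e ∧ ¬ @Sat (FT s.1) s.2 e := ⟨e, he, he'⟩
  unfold chosen at h
  rw [dif_pos hex] at h
  exact hex.choose_spec.2 h

theorem finitely_based {V : RingClass.{u}} (D : Type v) [NonUnitalRing D] (hgen : GenBy V D)
    (p f : ℕ) [Fact p.Prime] (hf : 0 < f) (hG : Good p (p ^ f) D) : IsFinitelyBased V := by
  refine ⟨E0 p (p ^ f) ∪ Set.range (chosen D ((p ^ f) ^ 3)),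
    (E0_finite _ _).union (Set.finite_range _), ?_⟩
  intro R _
  rw [hgen R]
  constructor
  · rintro h e (he | ⟨s, rfl⟩)
    · exact h e (E0_of_good hG e he)
    · exact h _ (sat_chosen D _ s)
  · intro h e he ρ
    by_contra hne
    have hr : e.1.eval ρ - e.2.eval ρ ≠ 0 := sub_ne_zero.mpr hne
    obtain ⟨P, hP, hF⟩ := exists_fsi _ hr
    have hQ : ∀ e ∈ E0 p (p ^ f) ∪ Set.range (chosen D ((p ^ f) ^ 3)), Sat (QR P) e :=
      fun e he => sat_of_surjective (qmk P) (qmk_surjective P) e (h e he)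
    have hGQ : Good p (p ^ f) (QR P) := good_of_E0 fun e he => hQ e (Or.inl he)
    obtain ⟨hfin, hcard⟩ := card_good p f hf hGQ hF
    obtain ⟨inst, ⟨φ⟩⟩ := exists_structure (QR P)
    let s : Str ((p ^ f) ^ 3) := ⟨⟨Nat.card (QR P), Nat.lt_succ_of_le hcard⟩, inst⟩
    have h1 : @Sat (FT s.1) s.2 (chosen D ((p ^ f) ^ 3) s) := by
      refine sat_of_surjective (φ : QR P →ₙ+* FT (Nat.card (QR P))) φ.surjective _ ?_
      exact hQ _ (Or.inr ⟨s, rfl⟩)
    have h2 := sat_of_sat_chosen D _ s h1 e he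
    have h3 : Sat (QR P) e :=
      sat_of_injective (φ : QR P →ₙ+* FT (Nat.card (QR P))) φ.injective e h2
    apply hP
    rw [← qmk_eq_zero, map_sub, RTerm.eval_map, RTerm.eval_map, h3, sub_self]

/-! ### Local finiteness -/

/-- substitute `0` for all variables from `x_m` on -/
def tcut (m : ℕ) : RTerm → RTerm
  | .var i => if i < m then .var i else .zero
  | .zero => .zero
  | .neg t => .neg (tcut m t)
  | .add s t => .add (tcut m s) (tcut m t)
  | .mul s t => .mul (tcut m s) (tcut m t)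

theorem eval_tcut {R : Type u} [NonUnitalRing R] (m : ℕ) (ρ : ℕ → R) (t : RTerm) :
    (tcut m t).eval ρ = t.eval (fun i => if i < m then ρ i else 0) := by
  induction t with
  | var i =>
    change (if i < m then RTerm.var i else RTerm.zero).eval ρ = if i < m then ρ i else 0
    split_ifs <;> rfl
  | zero => rfl
  | neg t ih => simp only [tcut, RTerm.eval, ih]
  | add s t ihs iht => simp only [tcut, RTerm.eval, ihs, iht]
  | mul s t ihs iht => simp only [tcut, RTerm.eval, ihs, iht]

theorem locally_finite {V : RingClass.{u}} (D : Type v) [NonUnitalRing D] [Finite D]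
    (hgen : GenBy V D) : IsLocallyFinite V := by
  rintro R _ hR ⟨s, hs, hclos⟩
  rw [hgen R] at hR
  have hsf : Finite s := hs
  let m := Nat.card s
  let g : s ≃ Fin m := Finite.equivFin s
  let a : ℕ → R := fun i => if h : i < m then (g.symm ⟨i, h⟩ : R) else 0
  have ha : ∀ x ∈ s, ∃ i, a i = x := by
    intro x hx
    refine ⟨(g ⟨x, hx⟩ : ℕ), ?_⟩
    simp only [a]
    rw [dif_pos (g ⟨x, hx⟩).2]
    simp
  have hcut : (fun i => if i < m then a i else 0) = a := by
    funext i
    simp only [a]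
    split_ifs <;> rfl
  have hterm : ∀ r : R, ∃ t : RTerm, t.eval a = r := by
    intro r
    have hr : r ∈ NonUnitalSubring.closure s := by rw [hclos]; trivial
    induction hr using NonUnitalSubring.closure_induction with
    | mem x hx =>
      obtain ⟨i, hi⟩ := ha x hx
      exact ⟨.var i, hi⟩
    | zero => exact ⟨.zero, rfl⟩
    | add x y _ _ hx hy =>
      obtain ⟨t, rfl⟩ := hx
      obtain ⟨t', rfl⟩ := hy
      exact ⟨.add t t', rfl⟩
    | neg x _ hx =>
      obtain ⟨t, rfl⟩ := hx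
      exact ⟨.neg t, rfl⟩
    | mul x y _ _ hx hy =>
      obtain ⟨t, rfl⟩ := hx
      obtain ⟨t', rfl⟩ := hy
      exact ⟨.mul t t', rfl⟩
  choose T hT using hterm
  let ex : (Fin m → D) → ℕ → D := fun σ i => if h : i < m then σ ⟨i, h⟩ else 0
  let F : R → ((Fin m → D) → D) := fun r σ => (T r).eval (ex σ)
  apply Finite.of_injective F
  intro r r' h
  have h1 : Sat D (tcut m (T r), tcut m (T r')) := by
    intro ρ
    change (tcut m (T r)).eval ρ = (tcut m (T r')).eval ρ
    rw [eval_tcut, eval_tcut]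
    have h2 := congrFun h (fun i => ρ i)
    have h3 : ex (fun i => ρ i) = fun i => if i < m then ρ i else 0 := by
      funext i
      simp only [ex]
      split_ifs <;> rfl
    simp only [F] at h2
    rw [h3] at h2
    exact h2
  have h4 := hR _ h1 a
  change (tcut m (T r)).eval a = (tcut m (T r')).eval a at h4
  rw [eval_tcut, eval_tcut, hcut, hT, hT] at h4
  exact h4

/-! ### Critical rings -/

theorem finitely_many_critical {V : RingClass.{u}} (D : Type v) [NonUnitalRing D]
    (hgen : GenBy V D) (p f : ℕ) [Fact p.Prime] (hf : 0 < f) (hG : Good p (p ^ f) D) :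
    HasFinitelyManyCriticalRings V := by
  let N := (p ^ f) ^ 3
  let e : Fin (Nat.card (Str N)) ≃ Str N := (Finite.equivFin (Str N)).symm
  refine ⟨Nat.card (Str N), fun i => ULift.{u} (FT (e i).1), fun i =>
    letI := (e i).2
    inferInstance, ?_⟩
  intro R _ hR hcrit
  have hF := fsi_of_critical R hcrit
  have hGR : Good p (p ^ f) R :=
    good_of_E0 fun e he => (hgen R).mp hR e (E0_of_good hG e he)
  obtain ⟨hfin, hcard⟩ := card_good p f hf hGR hF
  obtain ⟨inst, ⟨φ⟩⟩ := exists_structure R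
  obtain ⟨i, hi⟩ := e.surjective ⟨⟨Nat.card R, Nat.lt_succ_of_le hcard⟩, inst⟩
  refine ⟨i, ?_⟩
  have h1 : ∀ s : Str N, s = ⟨⟨Nat.card R, Nat.lt_succ_of_le hcard⟩, inst⟩ →
      @Nonempty (@RingEquiv R (ULift.{u} (FT s.1)) _ (letI := s.2; inferInstance) _
        (letI := s.2; inferInstance)) := by
    rintro s rfl
    exact ⟨φ.trans (ULift.ringEquiv).symm⟩
  exact h1 _ hi

theorem cross_of_minimal {V : RingClass.{u}} (hV : IsMinimalNonEngel V) : IsCross V := by
  obtain ⟨K, _, _, α, β, hαβ, hgen⟩ := generated_of_minimal hV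
  obtain ⟨p, hp⟩ := CharP.exists K
  have := Fintype.ofFinite K
  obtain ⟨f, hpp, hcard⟩ := FiniteField.card K p
  haveI : Fact p.Prime := ⟨hpp⟩
  have hG : Good p (p ^ (f : ℕ)) (D0 K α β) := by
    have h1 := good_D0 α β p (CharP.cast_eq_zero K p)
    rw [Nat.card_eq_fintype_card, hcard] at h1
    exact h1
  exact ⟨hV.1, finitely_based _ hgen p f f.pos hG, locally_finite _ hgen,
    finitely_many_critical _ hgen p f f.pos hG⟩

end Pool.Agent.helper9.MNE
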